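import Pool.Agent.Lib.MP_062a1c_lc.Stmts
import Pool.Agent.Lib.MP_a1c723_lc.BV.Ran
import Pool.Agent.Lib.MP_a1c723_lc.BV.Dom

/-!
# MP_062a1c_lc, module EVD: a random function is eventually different from `|T|` functions
-/

set_option autoImplicit false

namespace Pool.Agent.Hia

open Pool.Agent.MPa4e7db Pool.Agent.StarRoth.BV MeasureTheory ProbabilityTheory Filter

/-- Module EVD. -/
theorem evdStmt : EvdStmt := by
  intro T I _ G hG
  have h1 : ∀ t n k, ∃ D : Set (Set T × ℕ × ℕ), D.Countable ∧
      ∀ x, MeasurableSet[Fsig D] {y | (x, y) ∈ {z | G t z n = k}} := fun t n k =>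
    exists_support_prod (hG t n (measurableSet_singleton k))
  choose D hD hD' using h1
  obtain ⟨s₀, hs₀⟩ := DomAux.exists_new (fun t => ⋃ n, ⋃ k, D t n k)
    (fun t => Set.countable_iUnion fun n => Set.countable_iUnion fun k => hD t n k)
  refine ⟨fun z n => rr s₀ z.2 n, fun n => (rr_meas s₀ n).comp measurable_snd, fun t => ?_⟩
  unfold FF
  rw [Filter.eventually_curry_iff]
  refine Eventually.of_forall fun x => ?_
  exact rr_evdiff s₀ (D := ⋃ n, ⋃ k, D t n k) (fun n j hj => hs₀ t _ hj rfl)
    (fun y n => G t (x, y) n) (fun n k => Fsig_mono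
      ((Set.subset_iUnion (D t n) k).trans (Set.subset_iUnion (fun n => ⋃ k, D t n k) n)) _
      (hD' t n k x))

end Pool.Agent.Hia
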