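import Pool.Agent.Lib.MP_062a1c_lc.Stmts
import Pool.Agent.Lib.MP_a1c723_lc.BV.FactsEx

/-!
# MP_062a1c_lc, module FACTS: the complete Boolean algebra
-/

set_option autoImplicit false

namespace Pool.Agent.Hia

open Pool.Agent.MPa4e7db Pool.Agent.StarRoth.BV MeasureTheory Filter Topology

namespace Fx

/-! ### Residual sets -/

theorem residual_ex {I : Type} {P : ℕ → (I → Bool) → Prop} (hP : ∀ n, IsOpen {x | P n x})
    (h : ∀ (F : Finset I) (x₀ : I → Bool), ∃ n x, (∀ i ∈ F, x i = x₀ i) ∧ P n x) :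
    ∀ᶠ x in residual (I → Bool), ∃ n, P n x := by
  have h1 : IsOpen {x : I → Bool | ∃ n, P n x} := by
    have : {x : I → Bool | ∃ n, P n x} = ⋃ n, {x | P n x} := by
      ext x
      simp
    rw [this]
    exact isOpen_iUnion hP
  have h2 : Dense {x : I → Bool | ∃ n, P n x} := by
    rw [dense_iff_inter_open]
    rintro V hV ⟨x₀, hx₀⟩
    obtain ⟨F, u, hu, hFV⟩ := isOpen_pi_iff.mp hV x₀ hx₀
    obtain ⟨n, x, hx, hn⟩ := h F x₀
    refine ⟨x, hFV fun i hi => ?_, n, hn⟩
    rw [hx i hi]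
    exact (hu i hi).2
  exact residual_of_dense_open h1 h2

theorem ev_of_residual {I J : Type} {P : (I → Bool) → Prop}
    (h : ∀ᶠ x in residual (I → Bool), P x) : ∀ᶠ z in FF I J, P z.1 := by
  unfold FF
  rw [eventually_curry_iff]
  filter_upwards [h] with x hx
  exact Eventually.of_forall fun y => hx

theorem exists_notMem {I : Type} {a : ℕ → I} (ha : Function.Injective a) (F : Finset I) (m : ℕ) :
    ∃ n, m ≤ n ∧ a n ∉ F := by
  classical
  by_contra hcon
  push Not at hcon
  have h1 : Set.Infinite (Set.Ici m) := Set.Ici_infinite m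
  have h2 : (a '' Set.Ici m) ⊆ F := by
    rintro _ ⟨n, hn, rfl⟩
    exact hcon n hn
  exact (h1.image ha.injOn) (F.finite_toSet.subset h2)

theorem isOpen_coord {I : Type} (i : I) (b : Bool) : IsOpen {x : I → Bool | x i = b} :=
  (isOpen_discrete ({b} : Set Bool)).preimage (continuous_apply (A := fun _ : I => Bool) i)

theorem ev_coord {I J : Type} {a : ℕ → I} (ha : Function.Injective a) (b : Bool) :
    ∀ᶠ z in FF I J, ∀ m, ∃ n, m ≤ n ∧ z.1 (a n) = b := by
  classical
  refine ev_of_residual (P := fun x => ∀ m, ∃ n, m ≤ n ∧ x (a n) = b) ?_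
  rw [eventually_countable_forall]
  intro m
  refine residual_ex (fun n => ?_) fun F x₀ => ?_
  · by_cases h : m ≤ n
    · simp only [h, true_and]
      exact isOpen_coord _ _
    · simp only [h, false_and]
      exact isOpen_empty
  · obtain ⟨n, hn, hnF⟩ := exists_notMem ha F m
    refine ⟨n, Function.update x₀ (a n) b, fun i hi => ?_, hn, by simp⟩
    rw [Function.update_of_ne]
    rintro rfl
    exact hnF hi

theorem ev_ne {I J : Type} {a a' : ℕ → I} (ha : Function.Injective a)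
    (hd : ∀ n, a n ≠ a' n) : ∀ᶠ z in FF I J, ∃ n, z.1 (a n) ≠ z.1 (a' n) := by
  classical
  refine ev_of_residual (P := fun x => ∃ n, x (a n) ≠ x (a' n)) ?_
  refine residual_ex (fun n => ?_) fun F x₀ => ?_
  · have : {x : I → Bool | x (a n) ≠ x (a' n)} =
        ({x | x (a n) = true} ∩ {x | x (a' n) = false}) ∪
          ({x | x (a n) = false} ∩ {x | x (a' n) = true}) := by
      ext x
      simp only [Set.mem_ofPred_eq, Set.mem_union, Set.mem_inter_iff]
      cases x (a n) <;> cases x (a' n) <;> simp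
    rw [this]
    exact ((isOpen_coord _ _).inter (isOpen_coord _ _)).union
      ((isOpen_coord _ _).inter (isOpen_coord _ _))
  · obtain ⟨n, hn, hnF⟩ := exists_notMem ha F 0
    refine ⟨n, Function.update x₀ (a n) (!(x₀ (a' n))), fun i hi => ?_, ?_⟩
    · rw [Function.update_of_ne]
      rintro rfl
      exact hnF hi
    · rw [Function.update_self, Function.update_of_ne (hd n).symm]
      cases x₀ (a' n) <;> simp

/-! ### Representation of elements of the quotient -/

section Rep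

variable {Ω : Type} [MeasurableSpace Ω] {F : Filter Ω} [CountableInterFilter F] {B : Type}
  [CompleteBooleanAlgebra B] {cls : {s : Set Ω // MeasurableSet s} → B}

omit [CountableInterFilter F] [CompleteBooleanAlgebra B] in
/-- `b` is the class of `{z | P z}`. -/
def Rep (F : Filter Ω) (cls : {s : Set Ω // MeasurableSet s} → B) (b : B) (P : Ω → Prop) : Prop :=
  ∃ s, cls s = b ∧ ∀ᶠ z in F, (z ∈ s.1 ↔ P z)

omit [CountableInterFilter F] [CompleteBooleanAlgebra B] in
theorem Rep.of_meas {P : Ω → Prop} (hP : MeasurableSet {z | P z}) :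
    Rep F cls (cls ⟨{z | P z}, hP⟩) P := ⟨_, rfl, Eventually.of_forall fun _ => Iff.rfl⟩

omit [CountableInterFilter F] in
theorem Rep.inf (Q : FactsAux.Quot F B cls) {a b : B} {P R : Ω → Prop} (h1 : Rep F cls a P)
    (h2 : Rep F cls b R) : Rep F cls (a ⊓ b) (fun z => P z ∧ R z) := by
  obtain ⟨s, rfl, hs⟩ := h1
  obtain ⟨t, rfl, ht⟩ := h2
  refine ⟨⟨s.1 ∩ t.1, s.2.inter t.2⟩, (Q.inf s t).symm, ?_⟩
  filter_upwards [hs, ht] with z h3 h4
  exact and_congr h3 h4

omit [CountableInterFilter F] in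
theorem Rep.compl (Q : FactsAux.Quot F B cls) {a : B} {P : Ω → Prop} (h1 : Rep F cls a P) :
    Rep F cls aᶜ (fun z => ¬ P z) := by
  obtain ⟨s, rfl, hs⟩ := h1
  refine ⟨⟨s.1ᶜ, s.2.compl⟩, (Q.compl s).symm, ?_⟩
  filter_upwards [hs] with z h3
  exact not_congr h3

omit [CountableInterFilter F] [CompleteBooleanAlgebra B] in
theorem Rep.congr {a : B} {P R : Ω → Prop} (h1 : Rep F cls a P) (h : ∀ᶠ z in F, (P z ↔ R z)) :
    Rep F cls a R := by
  obtain ⟨s, rfl, hs⟩ := h1
  refine ⟨s, rfl, ?_⟩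
  filter_upwards [hs, h] with z h3 h4
  exact h3.trans h4

omit [CountableInterFilter F] in
theorem Rep.bot (Q : FactsAux.Quot F B cls) : Rep F cls (⊥ : B) (fun _ => False) :=
  ⟨_, Q.bot, Eventually.of_forall fun _ => Iff.rfl⟩

omit [CountableInterFilter F] in
theorem Rep.top (Q : FactsAux.Quot F B cls) : Rep F cls (⊤ : B) (fun _ => True) :=
  ⟨_, Q.top, Eventually.of_forall fun _ => Iff.rfl⟩

theorem Rep.iSup (Q : FactsAux.Quot F B cls) {ι : Sort*} [Countable ι] {f : ι → B}
    {P : ι → Ω → Prop} (h : ∀ i, Rep F cls (f i) (P i)) :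
    Rep F cls (⨆ i, f i) (fun z => ∃ i, P i z) := by
  rcases isEmpty_or_nonempty ι with he | hne
  · rw [iSup_of_empty]
    refine (Rep.bot Q).congr (Eventually.of_forall fun z => ?_)
    simp
  · obtain ⟨g, hg⟩ := exists_surjective_nat ι
    choose s hs hs' using h
    refine ⟨⟨⋃ n, (s (g n)).1, MeasurableSet.iUnion fun n => (s (g n)).2⟩, ?_, ?_⟩
    · have h1 := Q.iSup fun n => s (g n)
      rw [← h1]
      simp only [hs]
      exact hg.iSup_comp f
    · have h2 : ∀ᶠ z in F, ∀ n, (z ∈ (s (g n)).1 ↔ P (g n) z) := by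
        rw [eventually_countable_forall]
        exact fun n => hs' (g n)
      filter_upwards [h2] with z hz
      simp only [Set.mem_iUnion]
      constructor
      · rintro ⟨n, hn⟩
        exact ⟨g n, (hz n).1 hn⟩
      · rintro ⟨i, hi⟩
        obtain ⟨n, rfl⟩ := hg i
        exact ⟨n, (hz n).2 hi⟩

theorem Rep.iInf (Q : FactsAux.Quot F B cls) {ι : Sort*} [Countable ι] {f : ι → B}
    {P : ι → Ω → Prop} (h : ∀ i, Rep F cls (f i) (P i)) :
    Rep F cls (⨅ i, f i) (fun z => ∀ i, P i z) := by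
  have h1 : (⨅ i, f i) = (⨆ i, (f i)ᶜ)ᶜ := by
    rw [compl_iSup]
    simp only [compl_compl]
  rw [h1]
  refine (Rep.compl Q (Rep.iSup Q fun i => Rep.compl Q (h i))).congr
    (Eventually.of_forall fun z => ?_)
  simp

omit [CountableInterFilter F] in
theorem Rep.sup (Q : FactsAux.Quot F B cls) {a b : B} {P R : Ω → Prop} (h1 : Rep F cls a P)
    (h2 : Rep F cls b R) : Rep F cls (a ⊔ b) (fun z => P z ∨ R z) := by
  have h3 : a ⊔ b = (aᶜ ⊓ bᶜ)ᶜ := by simp
  rw [h3]
  refine (Rep.compl Q (Rep.inf Q (Rep.compl Q h1) (Rep.compl Q h2))).congr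
    (Eventually.of_forall fun z => ?_)
  tauto

omit [CountableInterFilter F] in
theorem Rep.himp (Q : FactsAux.Quot F B cls) {a b : B} {P R : Ω → Prop} (h1 : Rep F cls a P)
    (h2 : Rep F cls b R) : Rep F cls (a ⇨ b) (fun z => P z → R z) := by
  have h3 : a ⇨ b = aᶜ ⊔ b := by rw [himp_eq, sup_comm]
  rw [h3]
  refine (Rep.sup Q (Rep.compl Q h1) h2).congr (Eventually.of_forall fun z => ?_)
  tauto

omit [CountableInterFilter F] in
theorem Rep.bv (Q : FactsAux.Quot F B cls) (p : Prop) :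
    Rep F cls (Pool.Agent.Hia.bv B p) (fun _ => p) := by
  classical
  unfold Pool.Agent.Hia.bv
  split_ifs with h
  · exact (Rep.top Q).congr (Eventually.of_forall fun z => by simp [h])
  · exact (Rep.bot Q).congr (Eventually.of_forall fun z => by simp [h])

omit [CountableInterFilter F] in
theorem Rep.eq_top (Q : FactsAux.Quot F B cls) {a : B} {P : Ω → Prop} (h1 : Rep F cls a P)
    (h : ∀ᶠ z in F, P z) : a = ⊤ := by
  obtain ⟨s, rfl, hs⟩ := h1
  rw [Q.eq_top_iff]
  filter_upwards [hs, h] with z h3 h4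
  exact h3.2 h4

omit [CountableInterFilter F] in
theorem Rep.of_top (Q : FactsAux.Quot F B cls) {a : B} {P : Ω → Prop} (h1 : Rep F cls a P)
    (h : a = ⊤) : ∀ᶠ z in F, P z := by
  obtain ⟨s, rfl, hs⟩ := h1
  rw [Q.eq_top_iff] at h
  filter_upwards [hs, h] with z h3 h4
  exact h3.1 h4

omit [CountableInterFilter F] in
theorem Rep.of_bot (Q : FactsAux.Quot F B cls) {a : B} {P : Ω → Prop} (h1 : Rep F cls a P)
    (h : a = ⊥) : ∀ᶠ z in F, ¬ P z := by
  obtain ⟨s, rfl, hs⟩ := h1
  rw [Q.eq_bot_iff] at h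
  filter_upwards [hs, h] with z h3 h4
  exact fun h5 => h4 (h3.2 h5)

omit [CountableInterFilter F] in
theorem Rep.eq_bot (Q : FactsAux.Quot F B cls) {a : B} {P : Ω → Prop} (h1 : Rep F cls a P)
    (h : ∀ᶠ z in F, ¬ P z) : a = ⊥ := by
  obtain ⟨s, rfl, hs⟩ := h1
  rw [Q.eq_bot_iff]
  filter_upwards [hs, h] with z h3 h4
  exact fun h5 => h4 (h3.1 h5)

omit [CountableInterFilter F] in
theorem Rep.le (Q : FactsAux.Quot F B cls) {a b : B} {P R : Ω → Prop} (h1 : Rep F cls a P)
    (h2 : Rep F cls b R) (h : ∀ᶠ z in F, P z → R z) : a ≤ b := by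
  obtain ⟨s, rfl, hs⟩ := h1
  obtain ⟨t, rfl, ht⟩ := h2
  rw [Q.le_iff]
  filter_upwards [hs, ht, h] with z h3 h4 h5 h6
  exact h4.2 (h5 (h3.1 h6))

end Rep

/-! ### Measurability -/

theorem measurable_below (t : List Bool) : Measurable (below t) := by
  induction t with
  | nil => exact measurable_pi_apply 0
  | cons b s ih =>
    have h1 : (below (b :: s)) = fun x : ℕ → Bool =>
        if x 0 = b then below s (fun n => x (n + 1)) else x 0 := by
      funext x
      rfl
    rw [h1]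
    refine Measurable.ite ?_ ?_ (measurable_pi_apply 0)
    · have h2 : Measurable fun a : ℕ → Bool => a 0 := measurable_pi_apply 0
      exact h2 (measurableSet_singleton b)
    · exact ih.comp (measurable_pi_lambda _ fun n => measurable_pi_apply (n + 1))

theorem measurableSet_below (t : List Bool) : MeasurableSet {x : ℕ → Bool | below t x = true} :=
  measurable_below t (measurableSet_singleton true)

theorem measurableSet_isPre (r : List Bool) : MeasurableSet {x : ℕ → Bool | IsPre r x} := by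
  have : {x : ℕ → Bool | IsPre r x} = ⋂ i : ℕ, ⋂ h : i < r.length, {x | x i = r[i]} := by
    ext x
    simp only [Set.mem_ofPred_eq, Set.mem_iInter, IsPre]
    exact ⟨fun h i hi => (h i hi).symm, fun h i hi => (h i hi).symm⟩
  rw [this]
  exact MeasurableSet.iInter fun i => MeasurableSet.iInter fun h =>
    (measurable_pi_apply i) (measurableSet_singleton _)

theorem exists_ini (x : ℕ → Bool) (m : ℕ) : ∃ r : List Bool, r.length = m ∧ IsPre r x :=
  ⟨List.ofFn fun i : Fin m => x i, by simp, fun i h => by simp⟩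

theorem isPre_append {s r : List Bool} {x : ℕ → Bool} (h : IsPre (s ++ r) x) : IsPre s x := by
  intro i hi
  have := h i (by rw [List.length_append]; omega)
  rwa [List.getElem_append_left hi] at this

end Fx

open Fx FactsAux FactsAux.Quot

theorem facts2Stmt : Facts2Stmt := by
  classical
  intro hAlg hCCC hDom hEvd hHit hTree W _
  have hinj0 : Function.Injective (fun w : W => (Tm.var (Sum.inl w) : TmS W)) := by
    intro v w h
    simpa using h
  have : Infinite (TmS W) := Infinite.of_injective _ hinj0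
  obtain ⟨hCI, hNB, hcccF⟩ := hCCC (Set (TmS W) × ℕ × ℕ) (Set (TmS W) × ℕ × ℕ)
  have := hCI
  have := hNB
  obtain ⟨B, instB, cls, q1, q2, q3, q4, q5, q6, q7, -⟩ :=
    hAlg (FF (Set (TmS W) × ℕ × ℕ) (Set (TmS W) × ℕ × ℕ)) hcccF
  have Q : Quot (FF (Set (TmS W) × ℕ × ℕ) (Set (TmS W) × ℕ × ℕ)) B cls :=
    ⟨q1, q2, q3, q4, q5, q6, q7⟩
  -- the branches
  let ι : W → ℕ → Set (TmS W) × ℕ × ℕ := fun w n => ({Tm.var (Sum.inl w)}, n, 0)
  have hι : ∀ v w m n, ι v m = ι w n → v = w ∧ m = n := by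
    intro v w m n h
    simp only [ι, Prod.mk.injEq, and_true] at h
    exact ⟨hinj0 (Set.singleton_injective h.1), h.2⟩
  have hιi : ∀ w, Function.Injective (ι w) := fun w m n h => (hι w w m n h).2
  let X : W → ((Set (TmS W) × ℕ × ℕ) → Bool) × ((Set (TmS W) × ℕ × ℕ) → Bool) → ℕ → Bool :=
    fun w z n => z.1 (ι w n)
  have hXm : ∀ w, Measurable (X w) := fun w =>
    measurable_pi_lambda _ fun n => (measurable_pi_apply _).comp measurable_fst
  have hX1 : ∀ w, ∀ᶠ z in FF (Set (TmS W) × ℕ × ℕ) (Set (TmS W) × ℕ × ℕ),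
      ∀ m, ∃ n, m ≤ n ∧ X w z n = true := fun w => ev_coord (hιi w) true
  have hX0 : ∀ w, ∀ᶠ z in FF (Set (TmS W) × ℕ × ℕ) (Set (TmS W) × ℕ × ℕ),
      ∀ m, ∃ n, m ≤ n ∧ X w z n = false := fun w => ev_coord (hιi w) false
  have hXne : ∀ v w, v ≠ w → ∀ᶠ z in FF (Set (TmS W) × ℕ × ℕ) (Set (TmS W) × ℕ × ℕ),
      X v z ≠ X w z := by
    intro v w hvw
    filter_upwards [ev_ne (J := Set (TmS W) × ℕ × ℕ) (hιi v)
      (fun n h => hvw (hι v w n n h).1)] with z hz h
    obtain ⟨n, hn⟩ := hz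
    exact hn (congrFun h n)
  let u : W → List Bool → B := fun w t =>
    cls ⟨{z | below t (X w z) = true}, (hXm w) (measurableSet_below t)⟩
  let π : W → List Bool → B := fun w r =>
    cls ⟨{z | IsPre r (X w z)}, (hXm w) (measurableSet_isPre r)⟩
  have hu : ∀ w t, Rep (FF (Set (TmS W) × ℕ × ℕ) (Set (TmS W) × ℕ × ℕ)) cls (u w t)
      (fun z => below t (X w z) = true) := fun w t => Rep.of_meas _
  have hπ : ∀ w r, Rep (FF (Set (TmS W) × ℕ × ℕ) (Set (TmS W) × ℕ × ℕ)) cls (π w r)
      (fun z => IsPre r (X w z)) := fun w r => Rep.of_meas _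
  have hchi : ∀ w m t, Rep (FF (Set (TmS W) × ℕ × ℕ) (Set (TmS W) × ℕ × ℕ)) cls (chi π w m t)
      (fun z => m ≤ t.length ∧ IsPre (t.take m) (X w z)) := fun w m t =>
    (Rep.iSup Q fun _ => hπ w _).congr (Eventually.of_forall fun z => exists_prop)
  let Y : W ⊕ (Bool × List Bool) → ((Set (TmS W) × ℕ × ℕ) → Bool) ×
      ((Set (TmS W) × ℕ × ℕ) → Bool) → ℕ → Bool := fun i z =>
    match i with
    | .inl w => X w z
    | .inr j => pt j.1 j.2
  have hg : ∀ i n, Rep (FF (Set (TmS W) × ℕ × ℕ) (Set (TmS W) × ℕ × ℕ)) cls (genS u i n)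
      (fun z => below (nd n) (Y i z) = true) := by
    intro i n
    cases i with
    | inl w => exact hu w (nd n)
    | inr j => exact Rep.bv Q _
  refine ⟨B, instB, u, π, ?_⟩
  refine
    { nontriv := ?_
      chain := ?_
      mono := ?_
      right := ?_
      left := ?_
      exL := ?_
      exR := ?_
      total := ?_
      germ := ?_
      node := ?_
      hit := ?_
      dom := ?_
      evd := ?_ }
  · intro h
    obtain ⟨x, hx⟩ := ((Rep.bot Q).of_top Q h).exists
    exact hx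
  · intro i j
    refine (Rep.sup Q (Rep.iInf Q fun n => Rep.himp Q (hg i n) (hg j n))
      (Rep.iInf Q fun n => Rep.himp Q (hg j n) (hg i n))).eq_top Q
      (Eventually.of_forall fun z => ?_)
    rcases hTree.chain (Y i z) (Y j z) with h | h
    · exact Or.inl fun n => h _
    · exact Or.inr fun n => h _
  · intro w s r
    exact (hπ w _).le Q (hπ w _) (Eventually.of_forall fun z h => isPre_append h)
  · intro w s
    exact (hπ w _).le Q (hu w _) (Eventually.of_forall fun z h => hTree.right _ _ h)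
  · intro w s
    refine (hπ w _).le Q (Rep.compl Q (hu w _)) (Eventually.of_forall fun z h => ?_)
    rw [hTree.left _ _ h]
    simp
  · intro w r
    refine (hπ w _).le Q (Rep.iSup Q fun t => Rep.iSup Q fun _ => hu w t) ?_
    filter_upwards [hX1 w] with z hz h
    obtain ⟨t, ht, ht'⟩ := hTree.exL r _ h hz
    exact ⟨t, ht, ht'⟩
  · intro w r
    refine (hπ w _).le Q (Rep.iSup Q fun t => Rep.iSup Q fun _ => Rep.compl Q (hu w t)) ?_
    filter_upwards [hX0 w] with z hz h
    obtain ⟨t, ht, ht'⟩ := hTree.exR r _ h hz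
    refine ⟨t, ht, ?_⟩
    rw [ht']
    simp
  · intro w m
    refine (Rep.iSup Q fun r => Rep.iSup Q fun _ => hπ w r).eq_top Q
      (Eventually.of_forall fun z => ?_)
    obtain ⟨r, hr, hr'⟩ := exists_ini (X w z) m
    exact ⟨r, hr, hr'⟩
  · intro v w hvw
    refine (Rep.iSup Q fun m => Rep.sup Q (Rep.iInf Q fun t => Rep.himp Q (hchi w m t) (hu v t))
      (Rep.iInf Q fun t => Rep.himp Q (hchi w m t) (Rep.compl Q (hu v t)))).eq_top Q ?_
    filter_upwards [hXne w v (Ne.symm hvw)] with z hz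
    obtain ⟨m, hm⟩ := hTree.germ _ _ hz
    refine ⟨m, hm.imp (fun h t ht => h t ht.1 ht.2) (fun h t ht => ?_)⟩
    rw [h t ht.1 ht.2]
    simp
  · intro w s
    refine (Rep.iSup Q fun k => Rep.sup Q
      (Rep.iInf Q fun t => Rep.iInf Q fun _ => hu w t)
      (Rep.iInf Q fun t => Rep.iInf Q fun _ => Rep.compl Q (hu w t))).eq_top Q ?_
    filter_upwards [hX1 w, hX0 w] with z h1 h0
    obtain ⟨k, hk⟩ := hTree.node _ h1 h0 s
    refine ⟨k, hk.imp (fun h t ht => h t ht) (fun h t ht => ?_)⟩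
    rw [h t ht]
    simp
  · -- hit
    intro v δ hδ
    obtain ⟨V, hV⟩ : ∃ V : List Bool → {s : Set (((Set (TmS W) × ℕ × ℕ) → Bool) ×
        ((Set (TmS W) × ℕ × ℕ) → Bool)) // MeasurableSet s}, ∀ s, cls (V s) = v s :=
      ⟨fun s => (q1 (v s)).choose, fun s => (q1 (v s)).choose_spec⟩
    obtain ⟨D, hD⟩ : ∃ D : List Bool → ℕ → {s : Set (((Set (TmS W) × ℕ × ℕ) → Bool) ×
        ((Set (TmS W) × ℕ × ℕ) → Bool)) // MeasurableSet s}, ∀ s k, cls (D s k) = δ s k :=
      ⟨fun s k => (q1 (δ s k)).choose, fun s k => (q1 (δ s k)).choose_spec⟩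
    obtain ⟨w, hw⟩ := hHit ι hι (fun s z => decide (z ∈ (V s).1))
      (fun s z => least (fun k => (D s k).1) z)
      (fun s => by
        refine measurable_to_bool ?_
        have : (fun z => decide (z ∈ (V s).1)) ⁻¹' {true} = (V s).1 := by
          ext z
          simp
        rw [this]
        exact (V s).2)
      (fun s => least_measurable fun k => (D s k).2)
    have hDtop : ∀ᶠ z in FF (Set (TmS W) × ℕ × ℕ) (Set (TmS W) × ℕ × ℕ),
        ∀ s, z ∈ ⋃ k, (D s k).1 := by
      rw [eventually_countable_forall]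
      intro s
      have h2 := hδ s
      simp only [← hD] at h2
      rw [Q.iSup, Q.eq_top_iff] at h2
      exact h2
    have hrV : ∀ s, Rep (FF (Set (TmS W) × ℕ × ℕ) (Set (TmS W) × ℕ × ℕ)) cls (v s)
        (fun z => z ∈ (V s).1) := fun s => ⟨V s, hV s, Eventually.of_forall fun _ => Iff.rfl⟩
    have hrD : ∀ s k, Rep (FF (Set (TmS W) × ℕ × ℕ) (Set (TmS W) × ℕ × ℕ)) cls (δ s k)
        (fun z => z ∈ (D s k).1) := fun s k =>
      ⟨D s k, hD s k, Eventually.of_forall fun _ => Iff.rfl⟩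
    refine ⟨w, fun m => ⟨?_, ?_⟩⟩
    · refine (Rep.iSup Q fun s => Rep.iSup Q fun _ => Rep.iSup Q fun k => Rep.inf Q (hrD s k)
        (Rep.sup Q (Rep.inf Q (hrV s) (hπ w _))
          (Rep.inf Q (Rep.compl Q (hrV s)) (hπ w _)))).eq_top Q ?_
      filter_upwards [hw, hDtop] with z hz hzD
      obtain ⟨s, hs, hp⟩ := (hz m).1
      refine ⟨s, hs, least (fun k => (D s k).1) z, least_mem (hzD s), ?_⟩
      by_cases hv : z ∈ (V s).1
      · left
        refine ⟨hv, ?_⟩
        rw [decide_eq_true hv] at hp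
        exact hp
      · right
        refine ⟨hv, ?_⟩
        rw [decide_eq_false hv] at hp
        exact hp
    · refine (Rep.iSup Q fun s => Rep.iSup Q fun _ => Rep.iSup Q fun k => Rep.inf Q (hrD s k)
        (Rep.sup Q (Rep.inf Q (Rep.compl Q (hrV s)) (hπ w _))
          (Rep.inf Q (hrV s) (hπ w _)))).eq_top Q ?_
      filter_upwards [hw, hDtop] with z hz hzD
      obtain ⟨s, hs, hp⟩ := (hz m).2
      refine ⟨s, hs, least (fun k => (D s k).1) z, least_mem (hzD s), ?_⟩
      by_cases hv : z ∈ (V s).1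
      · right
        refine ⟨hv, ?_⟩
        rw [decide_eq_true hv] at hp
        exact hp
      · left
        refine ⟨hv, ?_⟩
        rw [decide_eq_false hv] at hp
        exact hp
  · -- dom
    intro e he
    obtain ⟨E, hE⟩ : ∃ E : TmS W → ℕ → ℕ → {s : Set (((Set (TmS W) × ℕ × ℕ) → Bool) ×
        ((Set (TmS W) × ℕ × ℕ) → Bool)) // MeasurableSet s}, ∀ t m k, cls (E t m k) = e t m k :=
      ⟨fun t m k => (q1 (e t m k)).choose, fun t m k => (q1 (e t m k)).choose_spec⟩
    obtain ⟨h, hh, hdom⟩ := hDom (W := TmS W) (J := Set (TmS W) × ℕ × ℕ)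
      (fun t z m => least (fun k => (E t m k).1) z)
      (fun t m => least_measurable fun k => (E t m k).2)
    refine ⟨fun m k => cls (lev (fun z => h z m) (hh m) k), ?_, ?_, ?_⟩
    · intro m k l hkl
      exact Q.lev_disj _ _ hkl
    · intro m
      exact Q.lev_top _ _
    · intro t m₀
      have hrE : ∀ m k, Rep (FF (Set (TmS W) × ℕ × ℕ) (Set (TmS W) × ℕ × ℕ)) cls (e t m k)
          (fun z => z ∈ (E t m k).1) := fun m k =>
        ⟨E t m k, hE t m k, Eventually.of_forall fun _ => Iff.rfl⟩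
      have hrh : ∀ m k, Rep (FF (Set (TmS W) × ℕ × ℕ) (Set (TmS W) × ℕ × ℕ)) cls
          (cls (lev (fun z => h z m) (hh m) k)) (fun z => h z m = k) := fun m k =>
        ⟨_, rfl, Eventually.of_forall fun _ => Iff.rfl⟩
      refine (Rep.iSup Q fun m => Rep.iSup Q fun _ => Rep.iSup Q fun k => Rep.iSup Q fun j =>
        Rep.iSup Q fun _ => Rep.inf Q (hrh m k) (hrE m j)).eq_top Q ?_
      have h1 : ∀ᶠ z in FF (Set (TmS W) × ℕ × ℕ) (Set (TmS W) × ℕ × ℕ),
          ∀ m, z ∈ ⋃ k, (E t m k).1 := by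
        rw [eventually_countable_forall]
        intro m
        have h2 := he t m
        simp only [← hE] at h2
        rw [Q.iSup, Q.eq_top_iff] at h2
        exact h2
      filter_upwards [h1, hdom t] with z hz hf
      obtain ⟨m, hm, hle⟩ := frequently_atTop.1 hf m₀
      exact ⟨m, hm, h z m, least (fun k => (E t m k).1) z, hle, rfl, least_mem (hz m)⟩
  · -- evd
    intro e he
    obtain ⟨E, hE⟩ : ∃ E : TmS W → ℕ → ℕ → {s : Set (((Set (TmS W) × ℕ × ℕ) → Bool) ×
        ((Set (TmS W) × ℕ × ℕ) → Bool)) // MeasurableSet s}, ∀ t m k, cls (E t m k) = e t m k :=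
      ⟨fun t m k => (q1 (e t m k)).choose, fun t m k => (q1 (e t m k)).choose_spec⟩
    obtain ⟨h, hh, hevd⟩ := hEvd (T := TmS W) (I := Set (TmS W) × ℕ × ℕ)
      (fun t z m => least (fun k => (E t m k).1) z)
      (fun t m => least_measurable fun k => (E t m k).2)
    refine ⟨fun m k => cls (lev (fun z => h z m) (hh m) k), ?_, ?_, ?_⟩
    · intro m k l hkl
      exact Q.lev_disj _ _ hkl
    · intro m
      exact Q.lev_top _ _
    · intro t
      have hrE : ∀ m k, Rep (FF (Set (TmS W) × ℕ × ℕ) (Set (TmS W) × ℕ × ℕ)) cls (e t m k)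
          (fun z => z ∈ (E t m k).1) := fun m k =>
        ⟨E t m k, hE t m k, Eventually.of_forall fun _ => Iff.rfl⟩
      have hrh : ∀ m k, Rep (FF (Set (TmS W) × ℕ × ℕ) (Set (TmS W) × ℕ × ℕ)) cls
          (cls (lev (fun z => h z m) (hh m) k)) (fun z => h z m = k) := fun m k =>
        ⟨_, rfl, Eventually.of_forall fun _ => Iff.rfl⟩
      refine (Rep.iSup Q fun m₀ => Rep.iInf Q fun m => Rep.iInf Q fun _ => Rep.iInf Q fun k =>
        Rep.compl Q (Rep.inf Q (hrh m k) (hrE m k))).eq_top Q ?_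
      have hd : ∀ᶠ z in FF (Set (TmS W) × ℕ × ℕ) (Set (TmS W) × ℕ × ℕ), ∀ p : ℕ × ℕ × ℕ,
          p.2.1 ≠ p.2.2 → ¬ (z ∈ (E t p.1 p.2.1).1 ∧ z ∈ (E t p.1 p.2.2).1) := by
        rw [eventually_countable_forall]
        rintro ⟨n, k, l⟩
        by_cases hkl : k = l
        · exact Eventually.of_forall fun z h => absurd hkl h
        · filter_upwards [(Rep.inf Q (hrE n k) (hrE n l)).of_bot Q (he t n k l hkl)] with z hz _
          exact hz
      filter_upwards [hevd t, hd] with z hz hdz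
      obtain ⟨n₀, hn₀⟩ := eventually_atTop.1 hz
      refine ⟨n₀, ?_⟩
      rintro n hn k ⟨h1, h2⟩
      refine hn₀ n hn ?_
      have h3 : least (fun k => (E t n k).1) z = k := by
        refine least_eq h2 fun l hl hl2 => ?_
        exact hdz ⟨n, l, k⟩ hl ⟨hl2, h2⟩
      rw [h3]
      exact h1

end Pool.Agent.Hia
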