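import Pool.Agent.Lib.MP_062a1c_lc.Stmts

/-!
# MP_062a1c_lc, module FIELD: names of fields of sets
-/

set_option autoImplicit false

namespace Pool.Agent.Hia

open Pool.Agent.MPa4e7db Pool.Agent.StarRoth.BV

namespace Fld

variable {B : Type} [CompleteBooleanAlgebra B] {G : Type}

theorem memB_fldN (g : G → ℕ → B) (t : BName B) :
    memB t (fldN g) = ⨆ σ, eqB t (setN (ev g σ)) := by
  rw [fldN, memB_mk]
  exact iSup_congr fun σ => top_inf_eq _

theorem mem_fldN (g : G → ℕ → B) (σ : Tm G) {p : B} : p ≤ memB (setN (ev g σ)) (fldN g) := by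
  rw [memB_fldN]
  exact iSup_intro σ (le_eqB_refl _ _)

theorem memB_famB (g : G → ℕ → B) (t : BName B) :
    memB t (famB g) = ⨆ i, eqB t (setN (g i)) := by
  rw [famB, memB_mk]
  exact iSup_congr fun σ => top_inf_eq _

theorem setN_congr {p : B} {x y : ℕ → B} (h : ∀ m, p ≤ iffB (x m) (y m)) :
    p ≤ eqB (setN x) (setN y) := by
  apply eqB_ext
  · intro z q hq hz
    rw [memB_setN] at hz ⊢
    refine iSup_elim hz fun i r hr hri => iSup_intro i (le_inf ?_ (hri.trans inf_le_right))
    exact iffB_mp ((hr.trans hq).trans (h i)) (hri.trans inf_le_left)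
  · intro z q hq hz
    rw [memB_setN] at hz ⊢
    refine iSup_elim hz fun i r hr hri => iSup_intro i (le_inf ?_ (hri.trans inf_le_right))
    exact iffB_mpr ((hr.trans hq).trans (h i)) (hri.trans inf_le_left)

theorem eqB_setN {p : B} {X : BName B} {x : ℕ → B} (h : p ≤ subB X omegaN)
    (h2 : ∀ m, p ≤ iffB (memB (natN m) X) (x m)) : p ≤ eqB X (setN x) :=
  eqB.trans (eqB_setN_of_sub h) (setN_congr h2)

theorem ev_var (g : G → ℕ → B) (i : G) : ev g (.var i) = g i := by
  funext n
  rfl

theorem subB_mp {p : B} {x y z : BName B} (h : p ≤ subB x y) (hz : p ≤ memB z x) :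
    p ≤ memB z y := himp_mp (iInf_mp h z) hz

theorem subB_omegaN_of_mem (g : G → ℕ → B) {p : B} {a : BName B} (h : p ≤ memB a (fldN g)) :
    p ≤ subB a omegaN := by
  rw [memB_fldN] at h
  refine iSup_elim h fun σ q _ hq => ?_
  refine le_iInf fun z => himp_intro fun r hr hz => ?_
  exact subB_mp (subB_setN_omegaN r _) (memB_congr_right (hr.trans hq) hz)

theorem isFieldB_fldN (g : G → ℕ → B) : isFieldB (fldN g) omegaN = ⊤ := by
  rw [eq_top_iff]
  refine le_inf (le_inf (le_inf ?_ ?_) ?_) ?_
  · exact le_iInf fun a => himp_intro fun q _ ha => subB_omegaN_of_mem g ha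
  · rw [memB_fldN]
    refine iSup_intro Tm.one ?_
    refine eqB_setN ?_ fun m => ?_
    · exact le_iInf fun z => himp_intro fun q _ hq => hq
    · rw [natN_mem_omegaN]
      exact iffB_intro (fun q _ _ => le_top) (fun q _ _ => le_top)
  · refine le_iInf fun a => le_iInf fun b => himp_intro fun q _ h => ?_
    have ha := h.trans inf_le_left
    have hb := h.trans inf_le_right
    rw [memB_fldN] at ha
    refine iSup_elim ha fun σ r hr hσ => ?_
    rw [memB_fldN]
    refine iSup_intro (Tm.compl σ) (eqB_setN ?_ fun m => ?_)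
    · refine le_iInf fun z => himp_intro fun s hs hz => ?_
      exact (iffB_mp (iInf_mp ((hs.trans hr).trans hb) z) hz).trans inf_le_left
    · have h1 := iInf_mp (hr.trans hb) (natN m)
      refine iffB_intro (fun s hs hm => ?_) (fun s hs hm => ?_)
      · have h2 := (iffB_mp (hs.trans h1) hm).trans inf_le_right
        refine compl_intro fun t ht h3 => ?_
        refine le_bot_iff.1 (compl_mp (ht.trans h2) ?_)
        refine memB_congr_right (eqB.symm ((ht.trans hs).trans hσ)) ?_
        rw [memB_natN_setN]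
        exact h3
      · refine iffB_mpr (hs.trans h1) (le_inf ?_ ?_)
        · rw [natN_mem_omegaN]
          exact le_top
        · refine compl_intro fun t ht h3 => ?_
          have h4 := memB_congr_right ((ht.trans hs).trans hσ) h3
          rw [memB_natN_setN] at h4
          exact le_bot_iff.1 (compl_mp (ht.trans hm) h4)
  · refine le_iInf fun a => le_iInf fun b => le_iInf fun c => himp_intro fun q _ h => ?_
    have ha := h.trans (inf_le_left.trans inf_le_left)
    have hb := h.trans (inf_le_left.trans inf_le_right)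
    have hc := h.trans inf_le_right
    have ha' := subB_omegaN_of_mem g ha
    rw [memB_fldN] at ha hb
    refine iSup_elim ha fun σ r hr hσ => ?_
    refine iSup_elim (hr.trans hb) fun τ s hs hτ => ?_
    rw [memB_fldN]
    refine iSup_intro (Tm.inter σ τ) (eqB_setN ?_ fun m => ?_)
    · refine le_iInf fun z => himp_intro fun t ht hz => ?_
      refine subB_mp (((ht.trans hs).trans hr).trans ha') ?_
      exact (iffB_mp (iInf_mp (((ht.trans hs).trans hr).trans hc) z) hz).trans inf_le_left
    · have h1 := iInf_mp ((hs.trans hr).trans hc) (natN m)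
      refine iffB_intro (fun t ht hm => ?_) (fun t ht hm => ?_)
      · have h2 := iffB_mp (ht.trans h1) hm
        have h3 := memB_congr_right ((ht.trans hs).trans hσ) (h2.trans inf_le_left)
        have h4 := memB_congr_right (ht.trans hτ) (h2.trans inf_le_right)
        rw [memB_natN_setN] at h3 h4
        exact le_inf h3 h4
      · refine iffB_mpr (ht.trans h1) (le_inf ?_ ?_)
        · refine memB_congr_right (eqB.symm ((ht.trans hs).trans hσ)) ?_
          rw [memB_natN_setN]
          exact hm.trans inf_le_left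
        · refine memB_congr_right (eqB.symm (ht.trans hτ)) ?_
          rw [memB_natN_setN]
          exact hm.trans inf_le_right

theorem isGenB_fldN (g : G → ℕ → B) : isGenB (fldN g) (famB g) omegaN = ⊤ := by
  rw [eq_top_iff]
  refine le_inf ?_ ?_
  · refine le_iInf fun c => himp_intro fun q _ hc => ?_
    rw [memB_famB] at hc
    refine iSup_elim hc fun i r _ hi => ?_
    rw [memB_fldN]
    refine iSup_intro (Tm.var i) ?_
    rw [ev_var]
    exact hi
  · refine le_iInf fun S => himp_intro fun p _ h => ?_
    have hF := h.trans inf_le_left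
    have hF2 := hF.trans (inf_le_left.trans (inf_le_left.trans inf_le_right))
    have hF3 := hF.trans (inf_le_left.trans inf_le_right)
    have hF4 := hF.trans inf_le_right
    have key : ∀ σ, p ≤ memB (setN (ev g σ)) S := by
      intro σ
      induction σ with
      | var i =>
        rw [ev_var]
        refine subB_mp (h.trans inf_le_right) ?_
        rw [memB_famB]
        exact iSup_intro i (le_eqB_refl _ _)
      | one =>
        refine memB_congr_left ?_ hF2
        refine eqB_setN ?_ fun m => ?_
        · exact le_iInf fun z => himp_intro fun q _ hq => hq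
        · rw [natN_mem_omegaN]
          exact iffB_intro (fun q _ _ => le_top) (fun q _ _ => le_top)
      | compl σ ih =>
        exact himp_mp (iInf_mp (iInf_mp hF3 _) _) (le_inf ih (isDiffB_setN p (ev g σ)))
      | inter σ τ ih1 ih2 =>
        exact himp_mp (iInf_mp (iInf_mp (iInf_mp hF4 _) _) _)
          (le_inf (le_inf ih1 ih2) (isInterB_setN p (ev g σ) (ev g τ)))
    refine le_iInf fun a => himp_intro fun q hq ha => ?_
    rw [memB_fldN] at ha
    refine iSup_elim ha fun σ r hr hσ => ?_
    exact memB_congr_left (eqB.symm hσ) ((hr.trans hq).trans (key σ))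

theorem ex_subst {G' : Type} (g : G → ℕ → B) (g' : G' → ℕ → B)
    (h : ∀ i, ∃ σ, g' i = ev g σ) (τ : Tm G') : ∃ σ, ev g' τ = ev g σ := by
  induction τ with
  | var i =>
    obtain ⟨σ, hσ⟩ := h i
    exact ⟨σ, by rw [ev_var, hσ]⟩
  | one => exact ⟨Tm.one, rfl⟩
  | compl τ ih =>
    obtain ⟨σ, hσ⟩ := ih
    refine ⟨Tm.compl σ, ?_⟩
    funext n
    simp only [ev, hσ]
  | inter τ τ' ih ih' =>
    obtain ⟨σ, hσ⟩ := ih
    obtain ⟨σ', hσ'⟩ := ih'
    refine ⟨Tm.inter σ σ', ?_⟩
    funext n
    simp only [ev, hσ, hσ']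

theorem subB_fldN {G' : Type} (g : G → ℕ → B) (g' : G' → ℕ → B)
    (h : ∀ i, ∃ σ, g' i = ev g σ) : subB (fldN g') (fldN g) = ⊤ := by
  rw [eq_top_iff]
  refine le_iInf fun a => himp_intro fun q _ ha => ?_
  rw [memB_fldN] at ha ⊢
  refine iSup_elim ha fun τ r _ hτ => ?_
  obtain ⟨σ, hσ⟩ := ex_subst g g' h τ
  refine iSup_intro σ ?_
  rw [← hσ]
  exact hτ

end Fld

theorem fieldStmt : FieldStmt := by
  intro B _ G g
  exact ⟨Fld.isFieldB_fldN g, Fld.isGenB_fldN g, fun g' h => Fld.subB_fldN g g' h⟩

end Pool.Agent.Hia
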