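import Pool.Agent.Lib.MP_062a1c_lc.Enum

/-!
# MP_062a1c_lc, module MEAGER: every set of reals of size at most `|S|` is meager
-/

set_option autoImplicit false

namespace Pool.Agent.Hia

open Pool.Agent.MPa4e7db Pool.Agent.StarRoth.BV

namespace Mgr

variable {B : Type} [CompleteBooleanAlgebra B]

theorem ext_isNwdB (w : BName B) : Ext (fun N : BName B => isNwdB N w) := by
  unfold isNwdB
  exact ext_iInf fun s => ext_himp (ext_const _) (ext_iSup fun t => ext_inf (ext_const _)
    (ext_iInf fun f => ext_himp (ext_memB_right f) (ext_const _)))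

theorem ext_isFunIntoB_dom (f r : BName B) : Ext (fun d : BName B => isFunIntoB f d r) := by
  unfold isFunIntoB isFunOnB
  refine ext_inf (ext_inf (ext_inf ?_ ?_) (ext_const _)) (ext_const _)
  · exact ext_iInf fun z => ext_himp (ext_const _) (ext_iSup fun x => ext_iSup fun y =>
      ext_inf (ext_memB_right x) (ext_const _))
  · exact ext_iInf fun x => ext_himp (ext_memB_right x) (ext_const _)

/-- The set of the `f t ∈ F` that differ from `h` from `i` on. -/
noncomputable def nwd {T : Type} (F : BName B) (f : T → BName B) (e : T → ℕ → ℕ → B)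
    (h : ℕ → ℕ → B) (i : ℕ) : BName B :=
  BName.mk T f fun t => memB (f t) F ⊓ ⨅ m : ℕ, ⨅ (_ : i ≤ m), ⨅ k : ℕ, (h m k ⊓ e t m k)ᶜ

theorem memB_nwd {T : Type} (F : BName B) (f : T → BName B) (e : T → ℕ → ℕ → B)
    (h : ℕ → ℕ → B) (i : ℕ) (x : BName B) :
    memB x (nwd F f e h i) = ⨆ t, (memB (f t) F ⊓
      ⨅ m : ℕ, ⨅ (_ : i ≤ m), ⨅ k : ℕ, (h m k ⊓ e t m k)ᶜ) ⊓ eqB x (f t) := rfl

/-- Extension of the finite sequence `s` of length `n₀` by zeros up to `m₀` and then by `h`. -/
noncomputable def extR (s : BName B) (h : ℕ → ℕ → B) (n₀ m₀ : ℕ) (j k : ℕ) : B :=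
  if j < n₀ then relB s (natN j) (natN k) else
    if j < m₀ then (if k = 0 then ⊤ else ⊥) else if j = m₀ then h m₀ k else ⊥

theorem isNwdB_nwd {T : Type} {F : BName B} {f : T → BName B} {h : ℕ → ℕ → B} {p : B}
    (hd : ∀ m k l, k ≠ l → h m k ⊓ h m l = ⊥) (ht : ∀ m, ⨆ k, h m k = ⊤) (i : ℕ) :
    p ≤ isNwdB (nwd F f (fun t m k => p ⊓ memB (f t) F ⊓ relB (f t) (natN m) (natN k)) h i)
      omegaN := by
  refine le_iInf fun s => himp_intro fun q hq hs => ?_
  refine iSup_elim hs fun n q1 hq1 hn => ?_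
  have hn1 := hn.trans inf_le_left
  rw [memB_omegaN] at hn1
  refine iSup_elim hn1 fun n₀ q2 hq2 hn₀ => ?_
  have hs2 : q2 ≤ isFunIntoB s (natN n₀) omegaN :=
    ext_isFunIntoB_dom _ _ hn₀ (hq2.trans (hn.trans inf_le_right))
  obtain ⟨m₀, hm1, hm2⟩ : ∃ m₀, n₀ ≤ m₀ ∧ i ≤ m₀ := ⟨max n₀ i, le_max_left _ _, le_max_right _ _⟩
  refine iSup_intro (funN (extR s h n₀ m₀)) (le_inf (le_inf ?_ ?_) ?_)
  · refine iSup_intro (natN (m₀ + 1)) (le_inf ?_ ?_)
    · rw [natN_mem_omegaN]
      exact le_top
    · refine En.isFunIntoB_funN_fin ?_ ?_ ?_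
      · intro j k l hkl
        unfold extR
        split_ifs with h1 h2 h3 h4 h5 h6
        · refine En.fun_unique (inf_le_left.trans (hs2.trans inf_le_left))
            (x := natN j) (k := k) (l := l) ?_ ?_ hkl
          · exact inf_le_right.trans inf_le_left
          · exact inf_le_right.trans inf_le_right
        · omega
        · exact inf_le_right.trans inf_le_right
        · exact inf_le_right.trans inf_le_left
        · exact inf_le_right.trans inf_le_left
        · rw [hd m₀ k l hkl]
          exact inf_le_right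
        · exact inf_le_right.trans inf_le_left
      · intro j hj
        unfold extR
        split_ifs with h1 h2 h3
        · have h4 : q2 ≤ memB (natN j) (natN n₀) := by
            rw [memB_natN_lt h1]
            exact le_top
          refine iSup_elim (isFunOnB_total (hs2.trans inf_le_left) h4) fun y q3 hq3 hy => ?_
          have h5 := himp_mp (iInf_mp (iInf_mp ((hq3.trans hs2).trans inf_le_right) (natN j)) y) hy
          rw [memB_omegaN] at h5
          refine iSup_elim h5 fun k q4 hq4 hk => iSup_intro k ?_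
          exact relB_congr (le_eqB_refl _ _) hk (hq4.trans hy)
        · refine iSup_intro 0 ?_
          rw [if_pos rfl]
          exact le_top
        · exact le_top.trans (ht m₀).ge
        · omega
      · intro j k hj
        unfold extR
        rw [if_neg (by omega), if_neg (by omega), if_neg (by omega)]
  · refine le_iInf fun z => himp_intro fun q3 hq3 hz => ?_
    have h4 := himp_mp (iInf_mp ((hq3.trans hs2).trans (inf_le_left.trans
      (inf_le_left.trans inf_le_left))) z) hz
    refine iSup_elim h4 fun x q4 hq4 hx => iSup_elim hx fun y q5 hq5 hy => ?_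
    have h5 := hy.trans inf_le_left
    have h6 := hy.trans inf_le_right
    rw [isOPairB_eq] at h6
    rw [memB_natN] at h5
    refine iSup_elim h5 fun j q6 hq6 hj => ?_
    have h7 : q6 ≤ relB s x y := by
      rw [relB_eq]
      exact memB_congr_left (hq6.trans h6) ((hq6.trans (hq5.trans hq4)).trans hz)
    have h8 := himp_mp (iInf_mp (iInf_mp (((hq6.trans (hq5.trans hq4)).trans
      (hq3.trans hs2)).trans inf_le_right) x) y) h7
    rw [memB_omegaN] at h8
    refine iSup_elim h8 fun k q7 hq7 hk => ?_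
    have h9 : q7 ≤ relB s (natN (j : ℕ)) (natN k) := relB_congr (hq7.trans hj) hk (hq7.trans h7)
    rw [funN, memB_mk]
    refine iSup_intro ((j : ℕ), k) (le_inf ?_ ?_)
    · simp only [extR]
      rw [if_pos j.2]
      exact h9
    · exact eqB.trans ((hq7.trans hq6).trans h6) (opair_congr (hq7.trans hj) hk)
  · refine le_iInf fun x => himp_intro fun q3 hq3 hx => ?_
    rw [memB_nwd] at hx
    refine compl_intro fun q4 hq4 hsub => ?_
    refine le_bot_iff.1 ?_
    refine iSup_elim (hq4.trans hx) fun t q5 hq5 htt => ?_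
    refine iSup_elim ((le_top (a := q5)).trans (ht m₀).ge) fun k q6 hq6 hk => ?_
    have e1 : q6 ≤ relB (funN (extR s h n₀ m₀)) (natN m₀) (natN k) := by
      refine le_trans ?_ (En.le_relB_funN _ m₀ k)
      unfold extR
      rw [if_neg (by omega), if_neg (by omega), if_pos rfl]
      exact hk
    have e2 : q6 ≤ relB x (natN m₀) (natN k) := by
      rw [relB_eq] at e1 ⊢
      exact himp_mp (iInf_mp ((hq6.trans hq5).trans hsub) _) e1
    have e3 : q6 ≤ relB (f t) (natN m₀) (natN k) :=
      relB_congr_fun ((hq6.trans htt).trans inf_le_right) e2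
    have l1 : q6 ≤ p := (hq6.trans hq5).trans (hq4.trans (hq3.trans (hq2.trans (hq1.trans hq))))
    have e4 : q6 ≤ (h m₀ k ⊓ (p ⊓ memB (f t) F ⊓ relB (f t) (natN m₀) (natN k)))ᶜ := by
      refine (hq6.trans htt).trans (inf_le_left.trans (inf_le_right.trans ?_))
      exact (iInf_le _ m₀).trans ((iInf_le _ hm2).trans (iInf_le _ k))
    exact compl_mp e4 (le_inf hk (le_inf (le_inf l1
      ((hq6.trans htt).trans (inf_le_left.trans inf_le_left))) e3))

end Mgr

theorem meagerStmt : MeagerStmt := by
  intro B W _ u π H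
  rw [eq_top_iff]
  refine le_iInf fun F => himp_intro fun p₀ _ hp₀ => ?_
  refine iSup_elim (hp₀.trans inf_le_right) fun g p hp hg => ?_
  have hF : p ≤ isRealsB F omegaN := (hp.trans hp₀).trans inf_le_left
  obtain ⟨f, hf⟩ := En.enum (T := TmS W) (b := fun σ => setN (ev (genS u) σ)) hg
  have hfun : ∀ t q, q ≤ p ⊓ memB (f t) F → q ≤ isFunIntoB (f t) omegaN omegaN := fun t q hq =>
    himp_mp (iInf_mp ((hq.trans inf_le_left).trans hF) (f t)) (hq.trans inf_le_right)
  obtain ⟨h, hd, ht, hh⟩ := H.evd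
    (fun t m k => p ⊓ memB (f t) F ⊓ relB (f t) (natN m) (natN k)) (by
      intro t m k l hkl
      rw [← le_bot_iff]
      have h1 : (p ⊓ memB (f t) F ⊓ relB (f t) (natN m) (natN k)) ⊓
          (p ⊓ memB (f t) F ⊓ relB (f t) (natN m) (natN l)) ≤ p ⊓ memB (f t) F :=
        inf_le_left.trans inf_le_left
      refine En.fun_unique ((hfun t _ h1).trans inf_le_left) (x := natN m) (k := k) (l := l)
        ?_ ?_ hkl
      · exact inf_le_left.trans inf_le_right
      · exact inf_le_right.trans inf_le_right)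
  refine iSup_intro (graphN (fun n : ℕ => natN n)
    (Mgr.nwd F f (fun t m k => p ⊓ memB (f t) F ⊓ relB (f t) (natN m) (natN k)) h)) ?_
  refine le_inf (le_inf ?_ ?_) ?_
  · refine isFunOnB_graphN _ _ _ _ (fun t => memB_omegaN t) fun i j => ?_
    by_cases hij : i = j
    · subst hij
      exact le_eqB_refl _ _
    · rw [eqB_natN_ne hij, inf_bot_eq]
      exact bot_le
  · refine le_iInf fun n => le_iInf fun N => himp_intro fun q hq hN => ?_
    rw [relB_graphN] at hN
    refine iSup_elim hN fun i q1 hq1 hi => ?_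
    exact Mgr.ext_isNwdB _ (eqB.symm (hi.trans inf_le_right))
      ((hq1.trans hq).trans (Mgr.isNwdB_nwd hd ht i))
  · refine le_iInf fun x => himp_intro fun q hq hx => ?_
    refine iSup_elim (hf x q hq hx) fun t q1 hq1 ht1 => ?_
    refine iSup_elim ((le_top (a := q1)).trans (hh t).ge) fun m₀ q2 hq2 hm₀ => ?_
    refine iSup_intro (natN m₀) (iSup_intro (Mgr.nwd F f
      (fun t m k => p ⊓ memB (f t) F ⊓ relB (f t) (natN m) (natN k)) h m₀) (le_inf ?_ ?_))
    · rw [relB_graphN]
      exact iSup_intro m₀ (le_inf (le_eqB_refl _ _) (le_eqB_refl _ _))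
    · rw [Mgr.memB_nwd]
      exact iSup_intro t (le_inf (le_inf (hq2.trans (ht1.trans inf_le_left)) hm₀)
        (hq2.trans (ht1.trans inf_le_right)))

end Pool.Agent.Hia
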