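import Pool.Agent.Lib.MP_062a1c_lc.Enum

/-!
# MP_062a1c_lc, module NOTDOM: no set of reals of size at most `|S|` is dominating
-/

set_option autoImplicit false

namespace Pool.Agent.Hia

open Pool.Agent.MPa4e7db Pool.Agent.StarRoth.BV

theorem notDomStmt : NotDomStmt := by
  intro B W _ u π H
  rw [eq_top_iff]
  refine le_iInf fun F => himp_intro fun p₀ _ hp₀ => ?_
  refine iSup_elim (hp₀.trans inf_le_right) fun g p hp hg => ?_
  have hF : p ≤ isRealsB F omegaN := (hp.trans hp₀).trans inf_le_left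
  obtain ⟨f, hf⟩ := En.enum (T := TmS W) (b := fun σ => setN (ev (genS u) σ)) hg
  have hfun : ∀ t q, q ≤ p ⊓ memB (f t) F → q ≤ isFunIntoB (f t) omegaN omegaN := fun t q hq =>
    himp_mp (iInf_mp ((hq.trans inf_le_left).trans hF) (f t)) (hq.trans inf_le_right)
  obtain ⟨h, hd, ht, hh⟩ := H.dom
    (fun t m k => (p ⊓ memB (f t) F ⊓ relB (f t) (natN m) (natN k)) ⊔ (p ⊓ memB (f t) F)ᶜ) (by
      intro t m
      rw [eq_top_iff]
      have h1 : (⊤ : B) ≤ (p ⊓ memB (f t) F) ⊔ (p ⊓ memB (f t) F)ᶜ := by rw [sup_compl_eq_top]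
      refine sup_elim h1 (fun q _ hq => ?_) (fun q _ hq => iSup_intro 0 (hq.trans le_sup_right))
      refine iSup_elim (En.fun_total (hfun t q hq) m) fun k r hr hk => iSup_intro k ?_
      exact (le_inf (hr.trans hq) hk).trans le_sup_left)
  -- the name of `h + 1`
  let r : ℕ → ℕ → B := fun m k => match k with
    | 0 => ⊥
    | k + 1 => h m k
  have hr1 : ∀ n k l, k ≠ l → r n k ⊓ r n l = ⊥ := by
    intro n k l hkl
    cases k with
    | zero => exact bot_inf_eq _
    | succ k =>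
      cases l with
      | zero => exact inf_bot_eq _
      | succ l => exact hd n k l fun h => hkl (by rw [h])
  have hr2 : ∀ n, ⨆ k, r n k = ⊤ := by
    intro n
    rw [eq_top_iff, ← ht n]
    exact iSup_le fun k => iSup_intro (k + 1) le_rfl
  refine compl_intro fun q hq hdom => ?_
  have h1 := himp_mp (iInf_mp hdom (funN r)) (En.isFunIntoB_funN hr1 hr2 q)
  refine le_bot_iff.1 ?_
  refine iSup_elim h1 fun x q1 hq1 hx => ?_
  refine iSup_elim (hf x q1 (hq1.trans hq) (hx.trans inf_le_left)) fun t q2 hq2 htt => ?_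
  refine iSup_elim ((hq2.trans hx).trans inf_le_right) fun n q3 hq3 hn => ?_
  have h2 := hn.trans inf_le_left
  rw [memB_omegaN] at h2
  refine iSup_elim h2 fun n₀ q4 hq4 hn₀ => ?_
  refine iSup_elim ((le_top (a := q4)).trans (hh t n₀).ge) fun m q5 hq5 h5 =>
    iSup_elim h5 fun hm q6 hq6 h6 => iSup_elim h6 fun k q7 hq7 h7 =>
    iSup_elim h7 fun j q8 hq8 h8 => iSup_elim h8 fun hj q9 hq9 h9 => ?_
  have l4 : q9 ≤ q4 := hq9.trans (hq8.trans (hq7.trans (hq6.trans hq5)))
  have l2 : q9 ≤ q2 := l4.trans (hq4.trans hq3)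
  have l1 : q9 ≤ p := l2.trans (hq2.trans (hq1.trans hq))
  have e1 : q9 ≤ relB (f t) (natN m) (natN j) := by
    refine sup_elim (h9.trans inf_le_right) (fun s _ hs => hs.trans inf_le_right)
      (fun s hs hs' => ?_)
    exact compl_mp hs' (le_inf (hs.trans l1) ((hs.trans l2).trans (htt.trans inf_le_left)))
  have e2 : q9 ≤ relB x (natN m) (natN j) :=
    relB_congr_fun (eqB.symm (l2.trans (htt.trans inf_le_right))) e1
  have e3 : q9 ≤ relB (funN r) (natN m) (natN (k + 1)) :=
    (h9.trans inf_le_left).trans (En.le_relB_funN r m (k + 1))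
  have e4 : q9 ≤ (memB (natN m) n)ᶜ := by
    refine compl_intro fun s hs hs' => ?_
    have h10 := memB_congr_right (hs.trans (l4.trans hn₀)) hs'
    rw [En.memB_natN_ge hm] at h10
    exact le_bot_iff.1 h10
  have e5 : q9 ≤ memB (natN (k + 1)) (natN j) ⊔ eqB (natN (k + 1)) (natN j) := by
    refine himp_mp (iInf_mp (iInf_mp (iInf_mp ((l4.trans hq4).trans (hn.trans inf_le_right))
      (natN m)) (natN (k + 1))) (natN j)) (le_inf (le_inf (le_inf ?_ e4) e3) e2)
    rw [natN_mem_omegaN]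
    exact le_top
  rw [En.memB_natN_ge (by omega : j ≤ k + 1), eqB_natN_ne (by omega : k + 1 ≠ j),
    sup_bot_eq] at e5
  exact e5

end Pool.Agent.Hia
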