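import Pool.Agent.Lib.MP_062a1c_lc.Stmts
import Pool.Agent.Lib.MP_a1c723_lc.BV.Base

/-!
# MP_062a1c_lc: the subalgebra `A` is not an interval algebra (module NOTINT)
-/

set_option autoImplicit false

namespace Pool.Agent.Hia

open Pool.Agent.MPa4e7db Pool.Agent.StarRoth.BV

namespace NotInt

variable {B : Type} [CompleteBooleanAlgebra B]

/-! ### Nodes as natural numbers -/

/-- The code of a node. -/
noncomputable def cd (s : List Bool) : ℕ := ndE.symm s

theorem nd_cd (s : List Bool) : nd (cd s) = s := by simp [nd, cd]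

theorem cd_nd (n : ℕ) : cd (nd n) = n := by simp [nd, cd]

/-- The value of: the node `t` is in `a`. -/
noncomputable def el (a : BName B) (t : List Bool) : B := memB (natN (cd t)) a

theorem el_setN (x : ℕ → B) (t : List Bool) : el (setN x) t = x (cd t) := memB_natN_setN _ _

theorem el_omegaN (t : List Bool) : el (omegaN : BName B) t = ⊤ := natN_mem_omegaN _

theorem el_emptyN (t : List Bool) : el (emptyN : BName B) t = ⊥ := memB_emptyN _

theorem ext_el (t : List Bool) : Ext (fun a : BName B => el a t) := ext_memB_right _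

theorem el_congr {p : B} {a b : BName B} (h : p ≤ eqB a b) {t : List Bool} (ht : p ≤ el a t) :
    p ≤ el b t := ext_el t h ht

theorem el_diff {p : B} {a b : BName B} (h : p ≤ isDiffB b omegaN a) (t : List Bool) :
    p ≤ iffB (el b t) (el a t)ᶜ := by
  have h1 := iInf_mp h (natN (cd t))
  rw [natN_mem_omegaN, top_inf_eq] at h1
  exact h1

theorem el_inter {p : B} {a b c : BName B} (h : p ≤ isInterB c a b) (t : List Bool) :
    p ≤ iffB (el c t) (el a t ⊓ el b t) := iInf_mp h (natN (cd t))

/-- The inclusion of `a ∩ ω` in `b`. -/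
noncomputable def sub (a b : BName B) : B := ⨅ t : List Bool, el a t ⇨ el b t

theorem subB_le_sub (a b : BName B) : subB a b ≤ sub a b :=
  le_iInf fun t => iInf_le _ (natN (cd t))

theorem sub_mp {p : B} {a b : BName B} (h : p ≤ sub a b) {t : List Bool} (ht : p ≤ el a t) :
    p ≤ el b t := himp_mp (iInf_mp h t) ht

/-! ### Induction for a generated field -/

variable {G : Type}

/-- The set of the elements `a` of the field with `φ a`. -/
def sepN (g : G → ℕ → B) (φ : BName B → B) : BName B :=
  BName.mk (Tm G) (fun σ => setN (ev g σ)) (fun σ => φ (setN (ev g σ)))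

theorem memB_fldN (g : G → ℕ → B) (t : BName B) :
    memB t (fldN g) = ⨆ σ, eqB t (setN (ev g σ)) := by
  rw [fldN, memB_mk]
  exact iSup_congr fun σ => top_inf_eq _

theorem memB_sepN (g : G → ℕ → B) {φ : BName B → B} (hφ : Ext φ) (t : BName B) :
    memB t (sepN g φ) = memB t (fldN g) ⊓ φ t := by
  rw [sepN, memB_mk, memB_fldN, iSup_inf_eq]
  refine iSup_congr fun σ => le_antisymm ?_ ?_
  · exact le_inf inf_le_right (hφ (eqB.symm inf_le_right) inf_le_left)
  · exact le_inf (hφ inf_le_left inf_le_right) inf_le_left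

theorem gen_induct {g : G → ℕ → B} {C : BName B} {p : B}
    (hF : p ≤ isFieldB (fldN g) omegaN) (hG : p ≤ isGenB (fldN g) C omegaN)
    {φ : BName B → B} (hφ : Ext φ) (h1 : ∀ q, q ≤ p → q ≤ φ omegaN)
    (hc : ∀ a b q, q ≤ p → q ≤ isDiffB b omegaN a → q ≤ φ a → q ≤ φ b)
    (hi : ∀ a b c q, q ≤ p → q ≤ isInterB c a b → q ≤ φ a → q ≤ φ b → q ≤ φ c)
    (hC : ∀ c q, q ≤ p → q ≤ memB c C → q ≤ φ c) :
    ∀ a q, q ≤ p → q ≤ memB a (fldN g) → q ≤ φ a := by
  have hF1 : p ≤ ⨅ a : BName B, memB a (fldN g) ⇨ subB a omegaN :=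
    hF.trans (inf_le_left.trans (inf_le_left.trans inf_le_left))
  have hF2 : p ≤ memB omegaN (fldN g) :=
    hF.trans (inf_le_left.trans (inf_le_left.trans inf_le_right))
  have hF3 := hF.trans (inf_le_left.trans inf_le_right)
  have hF4 := hF.trans inf_le_right
  have h2 : p ≤ isFieldB (sepN g φ) omegaN := by
    refine le_inf (le_inf (le_inf ?_ ?_) ?_) ?_
    · refine le_iInf fun a => himp_intro fun q hq ha => ?_
      rw [memB_sepN g hφ] at ha
      exact himp_mp (iInf_mp (hq.trans hF1) a) (ha.trans inf_le_left)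
    · rw [memB_sepN g hφ]
      exact le_inf hF2 (h1 p le_rfl)
    · refine le_iInf fun a => le_iInf fun b => himp_intro fun q hq h => ?_
      have ha := h.trans inf_le_left
      rw [memB_sepN g hφ] at ha ⊢
      refine le_inf ?_ (hc a b q hq (h.trans inf_le_right) (ha.trans inf_le_right))
      exact himp_mp (iInf_mp (iInf_mp (hq.trans hF3) a) b)
        (le_inf (ha.trans inf_le_left) (h.trans inf_le_right))
    · refine le_iInf fun a => le_iInf fun b => le_iInf fun c => himp_intro fun q hq h => ?_
      have ha := h.trans (inf_le_left.trans inf_le_left)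
      have hb := h.trans (inf_le_left.trans inf_le_right)
      rw [memB_sepN g hφ] at ha hb ⊢
      refine le_inf ?_ (hi a b c q hq (h.trans inf_le_right) (ha.trans inf_le_right)
        (hb.trans inf_le_right))
      exact himp_mp (iInf_mp (iInf_mp (iInf_mp (hq.trans hF4) a) b) c)
        (le_inf (le_inf (ha.trans inf_le_left) (hb.trans inf_le_left)) (h.trans inf_le_right))
  have h3 : p ≤ subB C (sepN g φ) := by
    refine le_iInf fun c => himp_intro fun q hq h => ?_
    rw [memB_sepN g hφ]
    refine le_inf ?_ (hC c q hq h)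
    exact himp_mp (iInf_mp ((hq.trans hG).trans inf_le_left) c) h
  have h4 : p ≤ subB (fldN g) (sepN g φ) :=
    himp_mp (iInf_mp (hG.trans inf_le_right) (sepN g φ)) (le_inf h2 h3)
  intro a q hq ha
  have h5 := himp_mp (iInf_mp (hq.trans h4) a) ha
  rw [memB_sepN g hφ] at h5
  exact h5.trans inf_le_right

/-! ### Signs -/

/-- `x` or its complement. -/
def sg (b : Bool) (x : B) : B := if b = true then x else xᶜ

theorem sg_true (x : B) : sg true x = x := rfl

theorem sg_false (x : B) : sg false x = xᶜ := rfl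

theorem sg_compl (b : Bool) (x : B) : sg b xᶜ = sg (!b) x := by
  cases b
  · simp [sg]
  · simp [sg]

theorem sg_not (b : Bool) (x : B) : sg (!b) x = (sg b x)ᶜ := by
  cases b
  · simp [sg]
  · simp [sg]

theorem sg_sup (x : B) {p ψ : B} (h : ∀ b q, q ≤ p → q ≤ sg b x → q ≤ ψ) : p ≤ ψ := by
  have h1 : p ≤ x ⊔ xᶜ := by rw [sup_compl_eq_top]; exact le_top
  exact sup_elim h1 (fun q hq hx => h true q hq hx) (fun q hq hx => h false q hq hx)

theorem sg_congr {p : B} {x y : B} (h : p ≤ iffB x y) (b : Bool) (hx : p ≤ sg b x) :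
    p ≤ sg b y := by
  cases b
  · refine compl_intro fun q hq hy => ?_
    have h1 : q ≤ x := iffB_mpr (hq.trans h) hy
    have h2 : q ≤ xᶜ := hq.trans hx
    exact le_bot_iff.1 (compl_mp h2 h1)
  · exact iffB_mp h hx

theorem iffB_symm' {p : B} {x y : B} (h : p ≤ iffB x y) : p ≤ iffB y x :=
  le_inf (h.trans inf_le_right) (h.trans inf_le_left)

/-! ### Germs at nodes -/

/-- All (`v = true`) or none (`v = false`) of the nodes in `cone s k` are in `f`. -/
noncomputable def nodeG (s : List Bool) (k : ℕ) (v : Bool) (f : List Bool → B) : B :=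
  ⨅ t : List Bool, ⨅ (_ : t ∈ cone s k), sg v (f t)

theorem turn_prefix {s : List Bool} {b : Bool} {k l : ℕ} (h : k ≤ l) :
    turn s b k <+: turn s b l := by
  obtain ⟨j, rfl⟩ := Nat.exists_eq_add_of_le h
  refine ⟨List.replicate j (!b), ?_⟩
  rw [turn, turn, List.append_assoc, List.cons_append, List.replicate_append_replicate]

theorem cone_anti {s : List Bool} {k l : ℕ} (h : k ≤ l) : cone s l ⊆ cone s k := by
  rintro t (ht | ht)
  · exact Or.inl ((turn_prefix h).trans ht)
  · exact Or.inr ((turn_prefix h).trans ht)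

theorem length_cone {s t : List Bool} {k : ℕ} (h : t ∈ cone s k) : s.length + 1 + k ≤ t.length := by
  rcases h with h | h
  · have := h.length_le
    simp [turn] at this
    omega
  · have := h.length_le
    simp [turn] at this
    omega

theorem nodeG_mono {s : List Bool} {k l : ℕ} (h : k ≤ l) (v : Bool) (f : List Bool → B) :
    nodeG s k v f ≤ nodeG s l v f :=
  le_iInf fun t => le_iInf fun ht => iInf_le_of_le t (iInf_le_of_le (cone_anti h ht) le_rfl)

theorem nodeG_mp {p : B} {s : List Bool} {k : ℕ} {v : Bool} {f : List Bool → B}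
    (h : p ≤ nodeG s k v f) {t : List Bool} (ht : t ∈ cone s k) : p ≤ sg v (f t) :=
  h.trans (iInf_le_of_le t (iInf_le_of_le ht le_rfl))

theorem turn_mem_cone (s : List Bool) (b : Bool) (k : ℕ) : turn s b k ∈ cone s k := by
  cases b
  · exact Or.inr (List.prefix_refl _)
  · exact Or.inl (List.prefix_refl _)

section

variable {W : Type} {u π : W → List Bool → B}

theorem node_germ (H : Facts2 B W u π) (s : List Bool) (σ : Tm (W ⊕ List Bool)) :
    ⨆ k : ℕ, ⨆ v : Bool, nodeG s k v (fun t => ev (genA u) σ (cd t)) = ⊤ := by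
  rw [eq_top_iff]
  induction σ with
  | var i =>
    rcases i with w | r
    · have h := (H.node w s).ge
      refine iSup_elim h fun k q _ hk => iSup_intro k ?_
      refine sup_elim hk (fun r _ hr => iSup_intro true ?_) (fun r _ hr => iSup_intro false ?_)
      · refine le_iInf fun t => le_iInf fun ht => ?_
        simp only [ev, genA, nd_cd, sg_true]
        exact hr.trans (iInf_le_of_le t (iInf_le_of_le ht le_rfl))
      · refine le_iInf fun t => le_iInf fun ht => ?_
        simp only [ev, genA, nd_cd, sg_false]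
        exact hr.trans (iInf_le_of_le t (iInf_le_of_le ht le_rfl))
    · refine iSup_intro r.length (iSup_intro false ?_)
      refine le_iInf fun t => le_iInf fun ht => ?_
      simp only [ev, genA, nd_cd, sg_false, bv]
      rw [if_neg, compl_bot]
      rintro rfl
      have := length_cone ht
      omega
  | one =>
    refine iSup_intro 0 (iSup_intro true ?_)
    exact le_iInf fun t => le_iInf fun ht => le_top
  | compl σ ih =>
    refine iSup_elim ih fun k q _ hk => iSup_elim hk fun v r _ hr =>
      iSup_intro k (iSup_intro (!v) ?_)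
    refine le_iInf fun t => le_iInf fun ht => ?_
    simp only [ev]
    rw [sg_compl, Bool.not_not]
    exact nodeG_mp hr ht
  | inter σ τ ih1 ih2 =>
    refine iSup_elim ih1 fun k q _ hk => iSup_elim hk fun v r _ hr => ?_
    refine iSup_elim (le_top.trans ih2) fun k' q' hq' hk' => iSup_elim hk' fun v' r' hr' hr'' => ?_
    have h1 : r' ≤ nodeG s (max k k') v (fun t => ev (genA u) σ (cd t)) :=
      ((hr'.trans hq').trans hr).trans (nodeG_mono (le_max_left _ _) _ _)
    have h2 : r' ≤ nodeG s (max k k') v' (fun t => ev (genA u) τ (cd t)) :=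
      hr''.trans (nodeG_mono (le_max_right _ _) _ _)
    refine iSup_intro (max k k') (iSup_intro (v && v') ?_)
    refine le_iInf fun t => le_iInf fun ht => ?_
    have h3 := nodeG_mp h1 ht
    have h4 := nodeG_mp h2 ht
    simp only [ev]
    cases v
    · simp only [Bool.false_and, sg_false] at h3 ⊢
      exact h3.trans (compl_le_compl inf_le_left)
    · cases v'
      · simp only [Bool.and_false, sg_false] at h4 ⊢
        exact h4.trans (compl_le_compl inf_le_right)
      · exact le_inf h3 h4

/-! ### Germs at branches -/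

/-- All (`v = true`) or none (`v = false`) of the nodes that extend the initial segment of length
`m` of `x_w` and are to the left (`b = true`) or right (`b = false`) of it are in `f`. -/
noncomputable def brG (u π : W → List Bool → B) (w : W) (b v : Bool) (m : ℕ)
    (f : List Bool → B) : B :=
  ⨅ t : List Bool, chi π w m t ⊓ sg b (u w t) ⇨ sg v (f t)

theorem take_take_of_le {m n : ℕ} (h : m ≤ n) (t : List Bool) : (t.take n).take m = t.take m := by
  rw [List.take_take, min_eq_left h]

theorem chi_anti (H : Facts2 B W u π) (w : W) {m n : ℕ} (h : m ≤ n) (t : List Bool) :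
    chi π w n t ≤ chi π w m t := by
  refine iSup_le fun hn => ?_
  refine iSup_intro (h.trans hn) ?_
  have h1 := H.mono w (t.take m) ((t.take n).drop m)
  have h2 : t.take m ++ (t.take n).drop m = t.take n := by
    conv_rhs => rw [← List.take_append_drop m (t.take n)]
    rw [take_take_of_le h]
  rwa [h2] at h1

theorem brG_mono (H : Facts2 B W u π) (w : W) (b v : Bool) {m n : ℕ} (h : m ≤ n)
    (f : List Bool → B) : brG u π w b v m f ≤ brG u π w b v n f := by
  refine le_iInf fun t => ?_
  refine (iInf_le _ t).trans ?_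
  exact himp_le_himp_right (inf_le_inf_right _ (chi_anti H w h t))

theorem brG_mp {p : B} {w : W} {b v : Bool} {m : ℕ} {f : List Bool → B}
    (h : p ≤ brG u π w b v m f) {t : List Bool} (h1 : p ≤ chi π w m t) (h2 : p ≤ sg b (u w t)) :
    p ≤ sg v (f t) := himp_mp (iInf_mp h t) (le_inf h1 h2)

theorem branch_germ (H : Facts2 B W u π) (w : W) (b : Bool) (σ : Tm (W ⊕ List Bool)) :
    ⨆ m : ℕ, ⨆ v : Bool, brG u π w b v m (fun t => ev (genA u) σ (cd t)) = ⊤ := by
  classical
  rw [eq_top_iff]
  induction σ with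
  | var i =>
    rcases i with x | r
    · by_cases hx : x = w
      · subst hx
        refine iSup_intro 0 (iSup_intro b ?_)
        refine le_iInf fun t => himp_intro fun q _ hq => ?_
        simp only [ev, genA, nd_cd]
        exact hq.trans inf_le_right
      · have h := (H.germ x w hx).ge
        refine iSup_elim h fun m q _ hm => iSup_intro m ?_
        refine sup_elim hm (fun r _ hr => iSup_intro true ?_) (fun r _ hr => iSup_intro false ?_)
        · refine le_iInf fun t => himp_intro fun q hq hq1 => ?_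
          simp only [ev, genA, nd_cd, sg_true]
          exact himp_mp (iInf_mp (hq.trans hr) t) (hq1.trans inf_le_left)
        · refine le_iInf fun t => himp_intro fun q hq hq1 => ?_
          simp only [ev, genA, nd_cd, sg_false]
          exact himp_mp (iInf_mp (hq.trans hr) t) (hq1.trans inf_le_left)
    · refine iSup_intro (r.length + 1) (iSup_intro false ?_)
      refine le_iInf fun t => himp_intro fun q _ hq => ?_
      simp only [ev, genA, nd_cd, sg_false, bv]
      by_cases ht : t = r
      · subst ht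
        refine iSup_elim (hq.trans inf_le_left) fun hlen => ?_
        omega
      · rw [if_neg ht, compl_bot]
        exact le_top
  | one =>
    refine iSup_intro 0 (iSup_intro true ?_)
    exact le_iInf fun t => himp_intro fun q _ _ => le_top
  | compl σ ih =>
    refine iSup_elim ih fun k q _ hk => iSup_elim hk fun v r _ hr =>
      iSup_intro k (iSup_intro (!v) ?_)
    refine le_iInf fun t => himp_intro fun q hq hq1 => ?_
    simp only [ev]
    rw [sg_compl, Bool.not_not]
    exact brG_mp (hq.trans hr) (hq1.trans inf_le_left) (hq1.trans inf_le_right)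
  | inter σ τ ih1 ih2 =>
    refine iSup_elim ih1 fun k q _ hk => iSup_elim hk fun v r _ hr => ?_
    refine iSup_elim (le_top.trans ih2) fun k' q' hq' hk' => iSup_elim hk' fun v' r' hr' hr'' => ?_
    have h1 := ((hr'.trans hq').trans hr).trans (brG_mono H w b v (le_max_left k k')
      (fun t => ev (genA u) σ (cd t)))
    have h2 := hr''.trans (brG_mono H w b v' (le_max_right k k')
      (fun t => ev (genA u) τ (cd t)))
    refine iSup_intro (max k k') (iSup_intro (v && v') ?_)
    refine le_iInf fun t => himp_intro fun q hq hq1 => ?_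
    have h3 := brG_mp (hq.trans h1) (hq1.trans inf_le_left) (hq1.trans inf_le_right)
    have h4 := brG_mp (hq.trans h2) (hq1.trans inf_le_left) (hq1.trans inf_le_right)
    simp only [ev]
    cases v
    · simp only [Bool.false_and, sg_false] at h3 ⊢
      exact h3.trans (compl_le_compl inf_le_left)
    · cases v'
      · simp only [Bool.and_false, sg_false] at h4 ⊢
        exact h4.trans (compl_le_compl inf_le_right)
      · exact le_inf h3 h4

/-! ### Elements of the field -/

theorem iffB_el {q : B} {a b : BName B} (h : q ≤ eqB a b) (t : List Bool) :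
    q ≤ iffB (el a t) (el b t) :=
  iffB_intro (fun r hr ha => el_congr (hr.trans h) ha)
    (fun r hr hb => el_congr (eqB.symm (hr.trans h)) hb)

theorem el_setN' (g : G → ℕ → B) (σ : Tm G) :
    el (setN (ev g σ)) = fun t => ev g σ (cd t) := funext fun t => el_setN _ t

theorem nodeG_congr {q : B} {s : List Bool} {k : ℕ} {v : Bool} {f g : List Bool → B}
    (h : ∀ t, q ≤ iffB (f t) (g t)) (hq : q ≤ nodeG s k v f) : q ≤ nodeG s k v g :=
  le_iInf fun t => le_iInf fun ht => sg_congr (h t) v (nodeG_mp hq ht)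

theorem brG_congr {q : B} {w : W} {b v : Bool} {m : ℕ} {f g : List Bool → B}
    (h : ∀ t, q ≤ iffB (f t) (g t)) (hq : q ≤ brG u π w b v m f) : q ≤ brG u π w b v m g :=
  le_iInf fun t => himp_intro fun r hr hr1 => sg_congr (hr.trans (h t)) v
    (brG_mp (hr.trans hq) (hr1.trans inf_le_left) (hr1.trans inf_le_right))

theorem mem_node_germ (H : Facts2 B W u π) (s : List Bool) {a : BName B} {q : B}
    (ha : q ≤ memB a (fldN (genA u))) : q ≤ ⨆ k : ℕ, ⨆ v : Bool, nodeG s k v (el a) := by
  rw [memB_fldN] at ha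
  refine iSup_elim ha fun σ r hr hσ => ?_
  have h1 : r ≤ ⨆ k : ℕ, ⨆ v : Bool, nodeG s k v (el (setN (ev (genA u) σ))) := by
    rw [el_setN', node_germ H s σ]
    exact le_top
  refine iSup_elim h1 fun k r1 hr1 h2 => iSup_elim h2 fun v r2 hr2 h3 => ?_
  exact iSup_intro k (iSup_intro v (nodeG_congr
    (fun t => iffB_el (eqB.symm ((hr2.trans hr1).trans hσ)) t) h3))

theorem mem_branch_germ (H : Facts2 B W u π) (w : W) (b : Bool) {a : BName B} {q : B}
    (ha : q ≤ memB a (fldN (genA u))) : q ≤ ⨆ m : ℕ, ⨆ v : Bool, brG u π w b v m (el a) := by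
  rw [memB_fldN] at ha
  refine iSup_elim ha fun σ r hr hσ => ?_
  have h1 : r ≤ ⨆ m : ℕ, ⨆ v : Bool, brG u π w b v m (el (setN (ev (genA u) σ))) := by
    rw [el_setN', branch_germ H w b σ]
    exact le_top
  refine iSup_elim h1 fun k r1 hr1 h2 => iSup_elim h2 fun v r2 hr2 h3 => ?_
  exact iSup_intro k (iSup_intro v (brG_congr
    (fun t => iffB_el (eqB.symm ((hr2.trans hr1).trans hσ)) t) h3))

/-! ### The germs of a generating chain differ at every branch -/

/-- The left and right germs at `x_w` are the same. -/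
noncomputable def same (u π : W → List Bool → B) (w : W) (a : BName B) : B :=
  ⨆ m : ℕ, ⨆ v : Bool, brG u π w true v m (el a) ⊓ brG u π w false v m (el a)

theorem ext_same (w : W) : Ext (same u π w) := by
  intro q a b hab h
  refine iSup_elim h fun m r hr h1 => iSup_elim h1 fun v r1 hr1 h2 => ?_
  have h3 := fun t => iffB_el ((hr1.trans hr).trans hab) t
  exact iSup_intro m (iSup_intro v (le_inf (brG_congr h3 (h2.trans inf_le_left))
    (brG_congr h3 (h2.trans inf_le_right))))

theorem exists_side (H : Facts2 B W u π) (w : W) (r : List Bool) (b : Bool) :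
    π w r ≤ ⨆ t : List Bool, ⨆ (_ : r <+: t), sg b (u w t) := by
  cases b
  · exact H.exR w r
  · exact H.exL w r

/-- If `t` extends `r`, an initial segment of `x_w` of length at least `m`, then `t` is near. -/
theorem le_chi (H : Facts2 B W u π) {w : W} {r t : List Bool} {m : ℕ} (hm : m ≤ r.length)
    (h : r <+: t) : π w r ≤ chi π w m t := by
  obtain ⟨z, rfl⟩ := h
  refine iSup_intro (by rw [List.length_append]; omega) ?_
  rw [List.take_append_of_le_length hm]
  have h1 := H.mono w (r.take m) (r.drop m)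
  rwa [List.take_append_drop] at h1

theorem same_cut (H : Facts2 B W u π) (w : W) {q : B} {a : BName B}
    (ha : ∀ t, q ≤ iffB (el a t) (u w t)) (hq : q ≤ same u π w a) : q = ⊥ := by
  rw [eq_bot_iff]
  refine iSup_elim hq fun m r hr h1 => iSup_elim h1 fun v r1 hr1 h2 => ?_
  have h3 : r1 ≤ ⨆ x : List Bool, ⨆ (_ : x.length = m), π w x := by
    rw [H.total]; exact le_top
  refine iSup_elim h3 fun x r2 hr2 h4 => iSup_elim h4 fun hx r3 hr3 h5 => ?_
  refine iSup_elim (h5.trans (exists_side H w x (!v))) fun t r4 hr4 h6 =>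
    iSup_elim h6 fun ht r5 hr5 h7 => ?_
  have hchi : r5 ≤ chi π w m t := (hr5.trans (hr4.trans h5)).trans (le_chi H hx.ge ht)
  have h5r1 : r5 ≤ r1 := hr5.trans (hr4.trans (hr3.trans hr2))
  have h8 : r5 ≤ sg v (el a t) := by
    cases v
    · exact brG_mp ((h5r1.trans h2).trans inf_le_left) hchi h7
    · exact brG_mp ((h5r1.trans h2).trans inf_le_right) hchi h7
  have h9 : r5 ≤ sg v (u w t) := sg_congr (((h5r1.trans hr1).trans hr).trans (ha t)) v h8
  rw [sg_not] at h7
  exact compl_mp h7 h9

theorem exists_differ (H : Facts2 B W u π) (w : W) {C : BName B} {p : B}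
    (hF : p ≤ isFieldB (fldN (genA u)) omegaN) (hG : p ≤ isGenB (fldN (genA u)) C omegaN) :
    p ≤ ⨆ c : BName B, memB c C ⊓ (same u π w c)ᶜ := by
  rw [← compl_compl (⨆ c : BName B, memB c C ⊓ (same u π w c)ᶜ)]
  refine compl_intro fun q hq hq1 => ?_
  rw [compl_iSup] at hq1
  have hC : ∀ c r, r ≤ q → r ≤ memB c C → r ≤ same u π w c := by
    intro c r hr h
    have h1 := iInf_mp (hr.trans hq1) c
    rw [compl_inf, compl_compl] at h1
    exact sup_elim h1 (fun r1 hr1 h2 => compl_mp h2 (hr1.trans h)) (fun r1 _ h2 => h2)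
  have h2 := gen_induct (hq.trans hF) (hq.trans hG) (ext_same (u := u) (π := π) w) ?_ ?_ ?_ hC
    (setN (ev (genA u) (Tm.var (Sum.inl w)))) q le_rfl ?_
  · refine same_cut H w (fun t => ?_) h2
    rw [el_setN]
    simp only [ev, genA, nd_cd]
    rw [iffB_eq_top rfl]
    exact le_top
  · intro r _
    refine iSup_intro 0 (iSup_intro true (le_inf ?_ ?_)) <;>
    · refine le_iInf fun t => himp_intro fun r1 _ _ => ?_
      rw [el_omegaN]
      exact le_top
  · intro a b r hr hd ha
    refine iSup_elim ha fun m r1 hr1 h1 => iSup_elim h1 fun v r2 hr2 h2 => ?_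
    have h3 : ∀ t, r2 ≤ iffB (el b t) (el a t)ᶜ := fun t => (hr2.trans hr1).trans (el_diff hd t)
    have h4 : ∀ c : Bool, r2 ≤ brG u π w c v m (el a) → r2 ≤ brG u π w c (!v) m (el b) := by
      intro c hc
      refine brG_congr (fun t => iffB_symm' (h3 t)) ?_
      refine le_iInf fun t => himp_intro fun q hq hq1 => ?_
      rw [sg_compl, Bool.not_not]
      exact brG_mp (hq.trans hc) (hq1.trans inf_le_left) (hq1.trans inf_le_right)
    exact iSup_intro m (iSup_intro (!v) (le_inf (h4 true (h2.trans inf_le_left))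
      (h4 false (h2.trans inf_le_right))))
  · intro a b c r hr hd ha hb
    refine iSup_elim ha fun m r1 hr1 h1 => iSup_elim h1 fun v r2 hr2 h2 => ?_
    refine iSup_elim ((hr2.trans hr1).trans hb) fun m' r1' hr1' h1' =>
      iSup_elim h1' fun v' r2' hr2' h2' => ?_
    have hle : r2' ≤ r2 := hr2'.trans hr1'
    have h3 : ∀ t, r2' ≤ iffB (el c t) (el a t ⊓ el b t) := fun t =>
      (hle.trans (hr2.trans hr1)).trans (el_inter hd t)
    have h4 : ∀ d : Bool, r2' ≤ brG u π w d v m (el a) → r2' ≤ brG u π w d v' m' (el b) →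
        r2' ≤ brG u π w d (v && v') (max m m') (el c) := by
      intro d hd1 hd2
      refine brG_congr (fun t => iffB_symm' (h3 t)) ?_
      have h5 := hd1.trans (brG_mono H w d v (le_max_left m m') (el a))
      have h6 := hd2.trans (brG_mono H w d v' (le_max_right m m') (el b))
      refine le_iInf fun t => himp_intro fun q hq hq1 => ?_
      have h7 := brG_mp (hq.trans h5) (hq1.trans inf_le_left) (hq1.trans inf_le_right)
      have h8 := brG_mp (hq.trans h6) (hq1.trans inf_le_left) (hq1.trans inf_le_right)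
      cases v
      · simp only [Bool.false_and, sg_false] at h7 ⊢
        exact h7.trans (compl_le_compl inf_le_left)
      · cases v'
        · simp only [Bool.and_false, sg_false] at h8 ⊢
          exact h8.trans (compl_le_compl inf_le_right)
        · exact le_inf h7 h8
    exact iSup_intro (max m m') (iSup_intro (v && v') (le_inf
      (h4 true ((hle.trans h2).trans inf_le_left) (h2'.trans inf_le_left))
      (h4 false ((hle.trans h2).trans inf_le_right) (h2'.trans inf_le_right))))
  · rw [memB_fldN]
    exact iSup_intro _ (le_eqB_refl _ _)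

/-! ### Atoms are differences of consecutive elements of the chain -/

/-- `c` is in the chain `C` or empty or everything. -/
noncomputable def inC (C c : BName B) : B := memB c C ⊔ eqB c emptyN ⊔ eqB c omegaN

theorem ext_inC (C : BName B) : Ext (inC C) :=
  ext_sup (ext_sup (ext_memB_left C) (ext_eqB_left emptyN)) (ext_eqB_left omegaN)

theorem sub_of_empty {q : B} {c e : BName B} (h : q ≤ eqB c emptyN) : q ≤ sub c e :=
  le_iInf fun t => himp_intro fun r hr h1 => by
    have h2 := el_congr (hr.trans h) h1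
    rw [el_emptyN] at h2
    exact h2.trans bot_le

theorem sub_of_omega {q : B} {c e : BName B} (h : q ≤ eqB e omegaN) : q ≤ sub c e :=
  le_iInf fun t => himp_intro fun r hr _ =>
    el_congr (eqB.symm (hr.trans h)) (by rw [el_omegaN]; exact le_top)

theorem chain_star {C : BName B} {q : B} (hC : q ≤ isChainB C) {c e : BName B}
    (hc : q ≤ inC C c) (he : q ≤ inC C e) : q ≤ sub c e ⊔ sub e c := by
  refine sup_elim hc (fun q1 hq1 h1 => sup_elim h1 (fun q2 hq2 h2 => ?_) fun q2 hq2 h2 => ?_)
    fun q1 hq1 h1 => ?_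
  · refine sup_elim ((hq2.trans hq1).trans he) (fun q3 hq3 h3 =>
      sup_elim h3 (fun q4 hq4 h4 => ?_) fun q4 hq4 h4 => ?_) fun q3 hq3 h3 => ?_
    · have h5 := himp_mp (iInf_mp (iInf_mp ((hq4.trans (hq3.trans (hq2.trans hq1))).trans hC) c) e)
        (le_inf ((hq4.trans hq3).trans h2) h4)
      exact h5.trans (sup_le_sup (subB_le_sub _ _) (subB_le_sub _ _))
    · exact (sub_of_empty h4).trans le_sup_right
    · exact (sub_of_omega h3).trans le_sup_left
  · exact (sub_of_empty h2).trans le_sup_left
  · exact (sub_of_omega h1).trans le_sup_right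

/-- `c0` and `c` are in the chain, `s ∈ c ∖ c0`, and `c ∖ c0` is contained in `a` or disjoint from
it. -/
noncomputable def wit (C : BName B) (s : List Bool) (a c0 c : BName B) : B :=
  inC C c0 ⊓ inC C c ⊓ (el c s ⊓ (el c0 s)ᶜ) ⊓
    ⨆ v : Bool, ⨅ t : List Bool, el c t ⊓ (el c0 t)ᶜ ⇨ sg v (el a t)

theorem ext_sg {φ : BName B → B} (h : Ext φ) (v : Bool) : Ext (fun a => sg v (φ a)) := by
  cases v
  · exact ext_compl h
  · exact h

theorem ext_wit_a (C : BName B) (s : List Bool) (c0 c : BName B) :
    Ext (fun a => wit C s a c0 c) :=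
  ext_inf (ext_const _) (ext_iSup fun v => ext_iInf fun t => ext_himp (ext_const _)
    (ext_sg (ext_el t) v))

theorem ext_wit_c0 (C : BName B) (s : List Bool) (a c : BName B) :
    Ext (fun c0 => wit C s a c0 c) :=
  ext_inf (ext_inf (ext_inf (ext_inC C) (ext_const _)) (ext_inf (ext_const _)
    (ext_compl (ext_el s)))) (ext_iSup fun v => ext_iInf fun t => ext_himp
      (ext_inf (ext_const _) (ext_compl (ext_el t))) (ext_const _))

theorem ext_wit_c (C : BName B) (s : List Bool) (a c0 : BName B) :
    Ext (fun c => wit C s a c0 c) :=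
  ext_inf (ext_inf (ext_inf (ext_const _) (ext_inC C)) (ext_inf (ext_el s) (ext_const _)))
    (ext_iSup fun v => ext_iInf fun t => ext_himp (ext_inf (ext_el t) (ext_const _))
      (ext_const _))

theorem le_wit {q : B} {C : BName B} {s : List Bool} {a c0 c : BName B} (h1 : q ≤ inC C c0)
    (h2 : q ≤ inC C c) (h3 : q ≤ el c s) (h4 : q ≤ (el c0 s)ᶜ) (v : Bool)
    (h5 : ∀ t r, r ≤ q → r ≤ el c t → r ≤ (el c0 t)ᶜ → r ≤ sg v (el a t)) :
    q ≤ wit C s a c0 c :=
  le_inf (le_inf (le_inf h1 h2) (le_inf h3 h4)) (iSup_intro v (le_iInf fun t =>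
    himp_intro fun r hr h => h5 t r hr (h.trans inf_le_left) (h.trans inf_le_right)))

theorem atoms {C : BName B} {p : B} (hch : p ≤ isChainB C)
    (hF : p ≤ isFieldB (fldN (genA u)) omegaN) (hG : p ≤ isGenB (fldN (genA u)) C omegaN)
    (s : List Bool) :
    ∀ a q, q ≤ p → q ≤ memB a (fldN (genA u)) →
      q ≤ ⨆ c0 : BName B, ⨆ c : BName B, wit C s a c0 c := by
  have hemp : ∀ q : B, q ≤ inC C emptyN := fun q =>
    (le_eqB_refl q emptyN).trans (le_sup_right.trans le_sup_left)
  have hom : ∀ q : B, q ≤ inC C omegaN := fun q => (le_eqB_refl q omegaN).trans le_sup_right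
  refine gen_induct hF hG (ext_iSup fun c0 => ext_iSup fun c => ext_wit_a C s c0 c) ?_ ?_ ?_ ?_
  · intro q hq
    refine iSup_intro emptyN (iSup_intro omegaN (le_wit (hemp q) (hom q) ?_ ?_ true ?_))
    · rw [el_omegaN]; exact le_top
    · rw [el_emptyN, compl_bot]; exact le_top
    · intro t r _ _ _
      rw [sg_true, el_omegaN]; exact le_top
  · intro a b q hq hd ha
    refine iSup_elim ha fun c0 q1 hq1 h1 => iSup_elim h1 fun c q2 hq2 h2 =>
      iSup_elim (h2.trans inf_le_right) fun v q3 hq3 h3 => ?_
    refine iSup_intro c0 (iSup_intro c (le_inf ((hq3.trans h2).trans inf_le_left)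
      (iSup_intro (!v) (le_iInf fun t => himp_intro fun r hr hr1 => ?_))))
    have h4 : r ≤ sg v (el a t) := himp_mp (iInf_mp (hr.trans h3) t) hr1
    have h5 : r ≤ iffB (el a t)ᶜ (el b t) :=
      iffB_symm' ((hr.trans (hq3.trans (hq2.trans hq1))).trans (el_diff hd t))
    refine sg_congr h5 (!v) ?_
    rw [sg_compl, Bool.not_not]
    exact h4
  · intro a b d q hq hd ha hb
    refine iSup_elim ha fun c0 q1 hq1 h1 => iSup_elim h1 fun c q2 hq2 h2 =>
      iSup_elim (h2.trans inf_le_right) fun v q3 hq3 h3 => ?_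
    refine iSup_elim ((hq3.trans (hq2.trans hq1)).trans hb) fun e0 q4 hq4 h4 =>
      iSup_elim h4 fun e q5 hq5 h5 => iSup_elim (h5.trans inf_le_right) fun v' q6 hq6 h6 => ?_
    have h63 : q6 ≤ q3 := hq6.trans (hq5.trans hq4)
    have hq6q : q6 ≤ q := h63.trans (hq3.trans (hq2.trans hq1))
    have h2' : q6 ≤ wit C s a c0 c := (h63.trans hq3).trans h2
    have h5' : q6 ≤ wit C s b e0 e := hq6.trans h5
    have hc0 : q6 ≤ inC C c0 :=
      h2'.trans (inf_le_left.trans (inf_le_left.trans inf_le_left))
    have hc : q6 ≤ inC C c := h2'.trans (inf_le_left.trans (inf_le_left.trans inf_le_right))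
    have hcs : q6 ≤ el c s := h2'.trans (inf_le_left.trans (inf_le_right.trans inf_le_left))
    have hc0s : q6 ≤ (el c0 s)ᶜ := h2'.trans (inf_le_left.trans (inf_le_right.trans inf_le_right))
    have he0 : q6 ≤ inC C e0 :=
      h5'.trans (inf_le_left.trans (inf_le_left.trans inf_le_left))
    have he : q6 ≤ inC C e := h5'.trans (inf_le_left.trans (inf_le_left.trans inf_le_right))
    have hes : q6 ≤ el e s := h5'.trans (inf_le_left.trans (inf_le_right.trans inf_le_left))
    have he0s : q6 ≤ (el e0 s)ᶜ := h5'.trans (inf_le_left.trans (inf_le_right.trans inf_le_right))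
    -- the smaller of `c`, `e`, the larger of `c0`, `e0`
    have key : ∀ (r : B) (f0 f : BName B), r ≤ q6 → r ≤ inC C f0 → r ≤ inC C f → r ≤ el f s →
        r ≤ (el f0 s)ᶜ → r ≤ sub c0 f0 → r ≤ sub e0 f0 → r ≤ sub f c → r ≤ sub f e →
        r ≤ ⨆ c0 : BName B, ⨆ c : BName B, wit C s d c0 c := by
      intro r f0 f hr hf0 hf hfs hf0s h7 h8 h9 h10
      refine iSup_intro f0 (iSup_intro f (le_wit hf0 hf hfs hf0s (v && v') ?_))
      intro t r1 hr1 hft hf0t
      have hnc0 : r1 ≤ (el c0 t)ᶜ := compl_intro fun r2 hr2 h =>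
        le_bot_iff.1 (compl_mp (hr2.trans hf0t) (sub_mp ((hr2.trans hr1).trans h7) h))
      have hne0 : r1 ≤ (el e0 t)ᶜ := compl_intro fun r2 hr2 h =>
        le_bot_iff.1 (compl_mp (hr2.trans hf0t) (sub_mp ((hr2.trans hr1).trans h8) h))
      have hct : r1 ≤ el c t := sub_mp (hr1.trans h9) hft
      have het : r1 ≤ el e t := sub_mp (hr1.trans h10) hft
      have ha1 : r1 ≤ sg v (el a t) :=
        himp_mp (iInf_mp ((hr1.trans hr).trans (h63.trans h3)) t) (le_inf hct hnc0)
      have hb1 : r1 ≤ sg v' (el b t) :=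
        himp_mp (iInf_mp ((hr1.trans hr).trans h6) t) (le_inf het hne0)
      have h11 : r1 ≤ iffB (el d t) (el a t ⊓ el b t) :=
        ((hr1.trans hr).trans hq6q).trans (el_inter hd t)
      refine sg_congr (iffB_symm' h11) _ ?_
      cases v
      · simp only [Bool.false_and, sg_false] at ha1 ⊢
        exact ha1.trans (compl_le_compl inf_le_left)
      · cases v'
        · simp only [Bool.and_false, sg_false] at hb1 ⊢
          exact hb1.trans (compl_le_compl inf_le_right)
        · exact le_inf ha1 hb1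
    have hrefl : ∀ (r : B) (x : BName B), r ≤ sub x x := fun r x =>
      le_iInf fun t => himp_intro fun _ _ h => h
    have hch6 : q6 ≤ isChainB C := (hq6q.trans hq).trans hch
    refine sup_elim (chain_star hch6 hc0 he0) (fun r1 hr1 k1 => ?_) (fun r1 hr1 k1 => ?_)
    · refine sup_elim (hr1.trans (chain_star hch6 hc he)) (fun r2 hr2 k2 => ?_)
        (fun r2 hr2 k2 => ?_)
      · have hr : r2 ≤ q6 := hr2.trans hr1
        exact key r2 e0 c hr (hr.trans he0) (hr.trans hc) (hr.trans hcs) (hr.trans he0s)
          (hr2.trans k1) (hrefl _ _) (hrefl _ _) k2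
      · have hr : r2 ≤ q6 := hr2.trans hr1
        exact key r2 e0 e hr (hr.trans he0) (hr.trans he) (hr.trans hes) (hr.trans he0s)
          (hr2.trans k1) (hrefl _ _) k2 (hrefl _ _)
    · refine sup_elim (hr1.trans (chain_star hch6 hc he)) (fun r2 hr2 k2 => ?_)
        (fun r2 hr2 k2 => ?_)
      · have hr : r2 ≤ q6 := hr2.trans hr1
        exact key r2 c0 c hr (hr.trans hc0) (hr.trans hc) (hr.trans hcs) (hr.trans hc0s)
          (hrefl _ _) (hr2.trans k1) (hrefl _ _) k2
      · have hr : r2 ≤ q6 := hr2.trans hr1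
        exact key r2 c0 e hr (hr.trans hc0) (hr.trans he) (hr.trans hes) (hr.trans hc0s)
          (hrefl _ _) (hr2.trans k1) k2 (hrefl _ _)
  · intro c q hq hc
    refine sg_sup (el c s) fun b r hr hb => ?_
    have hcC : r ≤ inC C c := (hr.trans hc).trans (le_sup_left.trans le_sup_left)
    cases b
    · refine iSup_intro c (iSup_intro omegaN (le_wit hcC (hom r) ?_ hb false ?_))
      · rw [el_omegaN]; exact le_top
      · intro t r1 _ _ h
        exact h
    · refine iSup_intro emptyN (iSup_intro c (le_wit (hemp r) hcC hb ?_ true ?_))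
      · rw [el_emptyN, compl_bot]; exact le_top
      · intro t r1 _ h _
        exact h

/-- The name of the singleton of a node. -/
noncomputable def sgl (u : W → List Bool → B) (s : List Bool) : BName B :=
  setN (ev (genA u) (Tm.var (Sum.inr s)))

theorem el_sgl_self (s : List Bool) : el (sgl u s) s = ⊤ := by
  rw [sgl, el_setN]
  simp only [ev, genA, nd_cd, bv]
  rw [if_pos trivial]

theorem el_sgl_ne {s t : List Bool} (h : t ≠ s) : el (sgl u s) t = ⊥ := by
  rw [sgl, el_setN]
  simp only [ev, genA, nd_cd, bv]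
  rw [if_neg h]

theorem exists_atoms {C : BName B} {p : B} (hch : p ≤ isChainB C)
    (hF : p ≤ isFieldB (fldN (genA u)) omegaN) (hG : p ≤ isGenB (fldN (genA u)) C omegaN)
    (s : List Bool) : ∃ c0 c : BName B, p ≤ inC C c0 ∧ p ≤ inC C c ∧ p ≤ el c s ∧
      p ≤ (el c0 s)ᶜ ∧ ∀ t, t ≠ s → p ≤ el c t ⇨ el c0 t := by
  have h1 := atoms (u := u) hch hF hG s (sgl u s) p le_rfl (by
    rw [memB_fldN]
    exact iSup_intro _ (le_eqB_refl _ _))
  obtain ⟨c0, hc0⟩ := exists_max (ext_iSup fun c => ext_wit_c0 C s (sgl u s) c)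
  obtain ⟨c, hc⟩ := exists_max (ext_wit_c C s (sgl u s) c0)
  have h2 := (h1.trans hc0).trans hc
  have h3 : p ≤ inC C c0 := h2.trans (inf_le_left.trans (inf_le_left.trans inf_le_left))
  have h4 : p ≤ inC C c := h2.trans (inf_le_left.trans (inf_le_left.trans inf_le_right))
  have h5 : p ≤ el c s := h2.trans (inf_le_left.trans (inf_le_right.trans inf_le_left))
  have h6 : p ≤ (el c0 s)ᶜ := h2.trans (inf_le_left.trans (inf_le_right.trans inf_le_right))
  refine ⟨c0, c, h3, h4, h5, h6, fun t ht => himp_intro fun q hq hq1 => ?_⟩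
  refine sg_sup (el c0 t) fun b r hr hb => ?_
  cases b
  · refine iSup_elim ((hr.trans hq).trans (h2.trans inf_le_right)) fun v r1 hr1 h7 => ?_
    cases v
    · have h8 := himp_mp (iInf_mp h7 s) (le_inf (((hr1.trans hr).trans hq).trans h5)
        (((hr1.trans hr).trans hq).trans h6))
      rw [sg_false, el_sgl_self, compl_top] at h8
      exact h8.trans bot_le
    · have h8 := himp_mp (iInf_mp h7 t) (le_inf ((hr1.trans hr).trans hq1) (hr1.trans hb))
      rw [sg_true, el_sgl_ne ht] at h8
      exact h8.trans bot_le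
  · exact hb

/-! ### The contradiction -/

theorem beq_false' {a b : Bool} (h : a ≠ b) : (a == b) = false := by
  cases a <;> cases b <;> simp_all

theorem false_beq' {a b : Bool} (h : b ≠ a) : (false == a) = b := by
  cases a <;> cases b <;> simp_all

theorem true_beq' (a : Bool) : (true == a) = a := by cases a <;> rfl

theorem beq_self' (a : Bool) : (a == a) = true := by cases a <;> rfl

theorem not_beq_self' (a : Bool) : ((!a) == a) = false := by cases a <;> rfl

theorem mem_of_inC {C c : BName B} {p : B} (hF : p ≤ isFieldB (fldN (genA u)) omegaN)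
    (hG : p ≤ isGenB (fldN (genA u)) C omegaN) (h : p ≤ inC C c) :
    p ≤ memB c (fldN (genA u)) := by
  have hom : p ≤ memB omegaN (fldN (genA u)) :=
    hF.trans (inf_le_left.trans (inf_le_left.trans inf_le_right))
  refine sup_elim h (fun q hq h1 => sup_elim h1 (fun r hr h2 => ?_) fun r hr h2 => ?_)
    fun q hq h1 => ?_
  · exact himp_mp (iInf_mp (((hr.trans hq).trans hG).trans inf_le_left) c) h2
  · refine himp_mp (iInf_mp (iInf_mp (((hr.trans hq).trans hF).trans
      (inf_le_left.trans inf_le_right)) omegaN) c) (le_inf ((hr.trans hq).trans hom) ?_)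
    refine le_iInf fun t => iffB_intro (fun x hx h3 => ?_) (fun x hx h3 => ?_)
    · have h4 := memB_congr_right (hx.trans h2) h3
      rw [memB_emptyN] at h4
      exact h4.trans bot_le
    · exact compl_mp (h3.trans inf_le_right) (h3.trans inf_le_left)
  · exact memB_congr_left (eqB.symm h1) (hq.trans hom)

theorem contra (H : Facts2 B W u π) {w : W} {r : B} {s : List Bool} {k m : ℕ} (d a1 : Bool)
    {c0 c1 c : BName B} (hπ : r ≤ π w (turn s d k)) (hm : m ≤ s.length)
    (hg : ∀ b : Bool, r ≤ brG u π w b (b == a1) m (el c))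
    (hn : r ≤ nodeG s k (d == a1) (el c0))
    (hc1s : r ≤ el c1 s) (hc0s : r ≤ (el c0 s)ᶜ) (hne : ∀ t, t ≠ s → r ≤ el c1 t ⇨ el c0 t)
    (h0 : r ≤ sub c0 c ⊔ sub c c0) (h1 : r ≤ sub c1 c ⊔ sub c c1) : r = ⊥ := by
  rw [eq_bot_iff]
  -- the position of `s`
  have hs : r ≤ sg d (u w s) := by
    have h2 : turn s d k = (s ++ [d]) ++ List.replicate k (!d) := by
      rw [turn, List.append_assoc, List.singleton_append]
    have h3 : r ≤ π w (s ++ [d]) := by
      rw [h2] at hπ
      exact hπ.trans (H.mono w _ _)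
    cases d
    · exact h3.trans (H.left w s)
    · exact h3.trans (H.right w s)
  have hchi : r ≤ chi π w m s := by
    have h2 : turn s d k = s ++ (d :: List.replicate k (!d)) := rfl
    rw [h2] at hπ
    exact (hπ.trans (H.mono w _ _)).trans (le_chi H hm (List.prefix_refl s))
  have hcs : r ≤ sg (d == a1) (el c s) := brG_mp (hg d) hchi hs
  -- a node on the given side
  have hside : ∀ b : Bool, (∀ t x, x ≤ r → t ∈ cone s k → t ≠ s → x ≤ sg (b == a1) (el c t) →
      x ≤ ⊥) → r ≤ ⊥ := by
    intro b hb
    refine iSup_elim (hπ.trans (exists_side H w _ b)) fun t x hx h2 =>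
      iSup_elim h2 fun ht y hy h3 => ?_
    have htc : t ∈ cone s k := by
      cases d
      · exact Or.inr ht
      · exact Or.inl ht
    have hts : t ≠ s := by
      rintro rfl
      have := length_cone htc
      omega
    have hlen : m ≤ (turn s d k).length := by
      simp only [turn, List.length_append]
      omega
    have hchi' : y ≤ chi π w m t := ((hy.trans hx).trans hπ).trans (le_chi H hlen ht)
    exact hb t y (hy.trans hx) htc hts (brG_mp ((hy.trans hx).trans (hg b)) hchi' h3)
  by_cases hda : d = a1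
  · subst hda
    rw [beq_self'] at hcs hn
    rw [sg_true] at hcs
    -- `c0 ⊆ c`
    have h3 : r ≤ sub c0 c := by
      refine sup_elim h0 (fun x _ hx => hx) fun x hx hx1 => ?_
      exact compl_mp (hx.trans hc0s) (sub_mp hx1 (hx.trans hcs))
    refine hside (!d) fun t x hx ht _ hx1 => ?_
    rw [not_beq_self', sg_false] at hx1
    exact compl_mp hx1 (sub_mp (hx.trans h3) (nodeG_mp (hx.trans hn) ht))
  · rw [beq_false' hda] at hcs hn
    rw [sg_false] at hcs
    -- `c ⊆ c1`
    have h3 : r ≤ sub c c1 := by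
      refine sup_elim h1 (fun x hx hx1 => ?_) fun x _ hx => hx
      exact compl_mp (hx.trans hcs) (sub_mp hx1 (hx.trans hc1s))
    refine hside a1 fun t x hx ht hts hx1 => ?_
    rw [beq_self', sg_true] at hx1
    have h5 : x ≤ el c0 t := himp_mp (hx.trans (hne t hts)) (sub_mp (hx.trans h3) hx1)
    have h6 := nodeG_mp (hx.trans hn) ht
    rw [sg_false] at h6
    exact compl_mp h6 h5

end

end NotInt

open NotInt

theorem notIntStmt : NotIntStmt := by
  intro B W _ u π H
  classical
  rw [eq_bot_iff, isIntAlgB, inf_iSup_eq]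
  refine iSup_le fun C => ?_
  set p : B := isFieldB (fldN (genA u)) omegaN ⊓ (isChainB C ⊓ isGenB (fldN (genA u)) C omegaN)
    with hp
  have hF : p ≤ isFieldB (fldN (genA u)) omegaN := inf_le_left
  have hch : p ≤ isChainB C := inf_le_right.trans inf_le_left
  have hG : p ≤ isGenB (fldN (genA u)) C omegaN := inf_le_right.trans inf_le_right
  choose c0 c1 hc0 hc1 hc1s hc0s hne using fun s => exists_atoms (u := u) hch hF hG s
  -- the parameters of the one-sided neighbourhoods
  let v : List Bool → B := fun s => ⨆ k : ℕ, nodeG s k true (el (c0 s))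
  let δ : List Bool → ℕ → B := fun s k =>
    (nodeG s k true (el (c0 s)) ⊔ nodeG s k false (el (c0 s))) ⊔ pᶜ
  have hδ : ∀ s, ⨆ k, δ s k = ⊤ := by
    intro s
    rw [eq_top_iff]
    have h1 : (⊤ : B) ≤ p ⊔ pᶜ := by rw [sup_compl_eq_top]
    refine h1.trans (sup_le ?_ (le_iSup_of_le 0 le_sup_right))
    refine iSup_elim (mem_node_germ H s (mem_of_inC hF hG (hc0 s))) fun k q _ hk =>
      iSup_elim hk fun b r _ hr => iSup_intro k ?_
    cases b
    · exact hr.trans (le_sup_right.trans le_sup_left)
    · exact hr.trans (le_sup_left.trans le_sup_left)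
  obtain ⟨w, hw⟩ := H.hit v δ hδ
  -- on `p`, `δ s k` and `v s` decide the germ of `c0 s`
  have hdec : ∀ s k (b : Bool) q, q ≤ p → q ≤ δ s k → q ≤ sg b (v s) →
      q ≤ nodeG s k b (el (c0 s)) := by
    intro s k b q hq hd hv
    refine sup_elim hd (fun r hr h1 => sup_elim h1 (fun r1 hr1 h2 => ?_) fun r1 hr1 h2 => ?_)
      fun r hr h1 => compl_mp h1 (hr.trans hq)
    · cases b
      · exact compl_mp ((hr1.trans hr).trans hv) (h2.trans (le_iSup (fun k =>
          nodeG s k true (el (c0 s))) k))
      · exact h2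
    · cases b
      · exact h2
      · refine iSup_elim ((hr1.trans hr).trans hv) fun k' r2 hr2 h3 => ?_
        have h4 := nodeG_mp (h3.trans (nodeG_mono (le_max_right k k') _ _))
          (turn_mem_cone s true (max k k'))
        have h5 := nodeG_mp ((hr2.trans h2).trans (nodeG_mono (le_max_left k k') _ _))
          (turn_mem_cone s true (max k k'))
        rw [sg_true] at h4
        rw [sg_false] at h5
        exact compl_mp h5 h4
  refine iSup_elim (exists_differ H w hF hG) fun c q hq h1 => ?_
  have hcC : q ≤ memB c C := h1.trans inf_le_left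
  have hdiff : q ≤ (same u π w c)ᶜ := h1.trans inf_le_right
  have hcA : q ≤ memB c (fldN (genA u)) := himp_mp (iInf_mp ((hq.trans hG).trans inf_le_left) c) hcC
  have hcI : q ≤ inC C c := hcC.trans (le_sup_left.trans le_sup_left)
  refine iSup_elim (mem_branch_germ H w true hcA) fun m1 q1 hq1 h2 => iSup_elim h2
    fun a1 q2 hq2 h3 => ?_
  refine iSup_elim ((hq2.trans hq1).trans (mem_branch_germ H w false hcA)) fun m2 q3 hq3 h4 =>
    iSup_elim h4 fun a2 q4 hq4 h5 => ?_
  have h42 : q4 ≤ q2 := hq4.trans hq3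
  have h4q : q4 ≤ q := h42.trans (hq2.trans hq1)
  have hL := (h42.trans h3).trans (brG_mono H w true a1 (le_max_left m1 m2) (el c))
  have hR := h5.trans (brG_mono H w false a2 (le_max_right m1 m2) (el c))
  by_cases ha : a2 = a1
  · subst ha
    exact compl_mp (h4q.trans hdiff) (iSup_intro (max m1 m2) (iSup_intro a2 (le_inf hL hR)))
  have hg : ∀ b : Bool, q4 ≤ brG u π w b (b == a1) (max m1 m2) (el c) := by
    intro b
    cases b
    · rw [false_beq' ha]
      exact hR
    · rw [true_beq']
      exact hL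
  have final : ∀ s k (d : Bool) r, r ≤ q4 → max m1 m2 ≤ s.length → r ≤ δ s k →
      r ≤ sg (d == a1) (v s) → r ≤ π w (turn s d k) → r ≤ ⊥ := by
    intro s k d r hr hm hd hv hπ
    have hrp : r ≤ p := hr.trans (h4q.trans hq)
    have hrI : r ≤ inC C c := (hr.trans h4q).trans hcI
    exact (contra H d a1 hπ hm (fun b => hr.trans (hg b)) (hdec s k _ r hrp hd hv)
      (hrp.trans (hc1s s)) (hrp.trans (hc0s s)) (fun t ht => hrp.trans (hne s t ht))
      (chain_star (hrp.trans hch) (hrp.trans (hc0 s)) hrI)
      (chain_star (hrp.trans hch) (hrp.trans (hc1 s)) hrI)).le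
  cases a1
  · refine iSup_elim (le_top.trans_eq (hw (max m1 m2)).2.symm : q4 ≤ _) fun s r1 hr1 k1 =>
      iSup_elim k1 fun hm r2 hr2 k2 => iSup_elim k2 fun k r3 hr3 k3 => ?_
    refine sup_elim (k3.trans inf_le_right) (fun r4 hr4 k4 => ?_) (fun r4 hr4 k4 => ?_)
    · exact final s k true r4 (hr4.trans (hr3.trans (hr2.trans hr1))) hm
        ((hr4.trans k3).trans inf_le_left) (k4.trans inf_le_left) (k4.trans inf_le_right)
    · exact final s k false r4 (hr4.trans (hr3.trans (hr2.trans hr1))) hm
        ((hr4.trans k3).trans inf_le_left) (k4.trans inf_le_left) (k4.trans inf_le_right)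
  · refine iSup_elim (le_top.trans_eq (hw (max m1 m2)).1.symm : q4 ≤ _) fun s r1 hr1 k1 =>
      iSup_elim k1 fun hm r2 hr2 k2 => iSup_elim k2 fun k r3 hr3 k3 => ?_
    refine sup_elim (k3.trans inf_le_right) (fun r4 hr4 k4 => ?_) (fun r4 hr4 k4 => ?_)
    · exact final s k true r4 (hr4.trans (hr3.trans (hr2.trans hr1))) hm
        ((hr4.trans k3).trans inf_le_left) (k4.trans inf_le_left) (k4.trans inf_le_right)
    · exact final s k false r4 (hr4.trans (hr3.trans (hr2.trans hr1))) hm
        ((hr4.trans k3).trans inf_le_left) (k4.trans inf_le_left) (k4.trans inf_le_right)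


end Pool.Agent.Hia
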