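import Pool.Agent.Lib.MP_062a1c_lc.Stmts

/-!
# MP_062a1c_lc, module TREE: combinatorics of the binary tree
-/

set_option autoImplicit false

namespace Pool.Agent.Hia

namespace Tree

theorem isPre_nil (x : ℕ → Bool) : IsPre [] x := by
  intro i h
  exact absurd h (Nat.not_lt_zero _)

theorem isPre_cons {b : Bool} {r : List Bool} {x : ℕ → Bool} :
    IsPre (b :: r) x ↔ x 0 = b ∧ IsPre r (fun n => x (n + 1)) := by
  constructor
  · intro h
    refine ⟨(h 0 (by simp)).symm, fun i hi => ?_⟩
    have := h (i + 1) (by simpa using hi)
    simpa using this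
  · rintro ⟨h0, h⟩ i hi
    cases i with
    | zero => simpa using h0.symm
    | succ i =>
      have := h i (by simpa using hi)
      simpa using this

theorem below_cons_eq {b : Bool} {s : List Bool} {x : ℕ → Bool} (h : x 0 = b) :
    below (b :: s) x = below s (fun n => x (n + 1)) := by
  simp [below, h]

theorem below_cons_ne {b : Bool} {s : List Bool} {x : ℕ → Bool} (h : x 0 ≠ b) :
    below (b :: s) x = x 0 := by
  simp [below, h]

theorem first_diff {x y : ℕ → Bool} (h : x ≠ y) : ∃ i, (∀ j < i, x j = y j) ∧ x i ≠ y i := by
  classical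
  have hex : ∃ i, x i ≠ y i := Function.ne_iff.1 h
  refine ⟨Nat.find hex, fun j hj => ?_, Nat.find_spec hex⟩
  by_contra hne
  exact Nat.find_min hex hj hne

theorem mono_of_lt : ∀ (i : ℕ) (x y : ℕ → Bool), (∀ j < i, x j = y j) → x i = false →
    y i = true → ∀ t, below t x = true → below t y = true := by
  intro i
  induction i with
  | zero =>
    intro x y _ hx hy t ht
    cases t with
    | nil => simpa [below] using hy
    | cons b s =>
      cases b with
      | true =>
        rw [below_cons_ne (by simp [hx])] at ht
        rw [hx] at ht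
        exact absurd ht (by simp)
      | false =>
        rw [below_cons_ne (by simp [hy])]
        exact hy
  | succ i ih =>
    intro x y hxy hx hy t ht
    have h0 : x 0 = y 0 := hxy 0 (Nat.succ_pos _)
    cases t with
    | nil =>
      simp only [below] at ht ⊢
      rw [← h0]
      exact ht
    | cons b s =>
      by_cases hb : x 0 = b
      · rw [below_cons_eq hb] at ht
        rw [below_cons_eq (h0 ▸ hb)]
        exact ih _ _ (fun j hj => hxy (j + 1) (Nat.succ_lt_succ hj)) hx hy s ht
      · rw [below_cons_ne hb] at ht
        rw [below_cons_ne (h0 ▸ hb), ← h0]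
        exact ht

theorem chain' (x y : ℕ → Bool) : (∀ t, below t x = true → below t y = true) ∨
    ∀ t, below t y = true → below t x = true := by
  by_cases h : x = y
  · subst h
    exact Or.inl fun t ht => ht
  · obtain ⟨i, hi, hne⟩ := first_diff h
    cases hx : x i with
    | false =>
      have hy : y i = true := by
        rw [hx] at hne
        simpa using hne.symm
      exact Or.inl (mono_of_lt i x y hi hx hy)
    | true =>
      have hy : y i = false := by
        rw [hx] at hne
        simpa using hne.symm
      exact Or.inr (mono_of_lt i y x (fun j hj => (hi j hj).symm) hy hx)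

theorem below_of_isPre_snoc : ∀ (s : List Bool) (b : Bool) (x : ℕ → Bool),
    IsPre (s ++ [b]) x → below s x = b := by
  intro s
  induction s with
  | nil =>
    intro b x h
    simpa [below] using (isPre_cons.1 h).1
  | cons a s ih =>
    intro b x h
    rw [List.cons_append, isPre_cons] at h
    rw [below_cons_eq h.1]
    exact ih b _ h.2

/-- The initial segment of `x` of length `n`. -/
def ini (x : ℕ → Bool) (n : ℕ) : List Bool := List.ofFn fun i : Fin n => x i

theorem isPre_ini (x : ℕ → Bool) (n : ℕ) : IsPre (ini x n) x := by
  intro i h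
  simp [ini]

theorem ini_length (x : ℕ → Bool) (n : ℕ) : (ini x n).length = n := by simp [ini]

theorem ini_get (x : ℕ → Bool) (n i : ℕ) (h : i < (ini x n).length) : (ini x n)[i] = x i :=
  isPre_ini x n i h

theorem prefix_ini {r : List Bool} {x : ℕ → Bool} (h : IsPre r x) {n : ℕ} (hn : r.length ≤ n) :
    r <+: ini x n := by
  rw [List.prefix_iff_getElem]
  refine ⟨by rw [ini_length]; exact hn, fun i hi => ?_⟩
  rw [ini_get]
  exact h i hi

theorem isPre_ini_snoc (x : ℕ → Bool) (n : ℕ) : IsPre (ini x n ++ [x n]) x := by
  intro i h
  rw [List.length_append, ini_length] at h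
  simp only [List.length_cons, List.length_nil, zero_add] at h
  rcases Nat.lt_succ_iff_lt_or_eq.1 h with h | rfl
  · rw [List.getElem_append_left (by rw [ini_length]; exact h)]
    exact ini_get x n i _
  · rw [List.getElem_append_right (by rw [ini_length])]
    simp [ini_length]

theorem ex_of {r : List Bool} {x : ℕ → Bool} {b : Bool} (hr : IsPre r x)
    (h : ∀ m, ∃ n, m ≤ n ∧ x n = b) : ∃ t, r <+: t ∧ below t x = b := by
  obtain ⟨n, hn, hx⟩ := h r.length
  refine ⟨ini x n, prefix_ini hr hn, ?_⟩
  have := below_of_isPre_snoc _ _ _ (isPre_ini_snoc x n)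
  rw [this, hx]

theorem germ_aux : ∀ (i : ℕ) (x y : ℕ → Bool), (∀ j < i, x j = y j) → x i ≠ y i →
    ∀ t : List Bool, i + 1 ≤ t.length → IsPre (t.take (i + 1)) x → below t y = y i := by
  intro i
  induction i with
  | zero =>
    intro x y _ hne t ht hp
    cases t with
    | nil => simp at ht
    | cons b s =>
      rw [List.take_succ_cons, isPre_cons] at hp
      refine below_cons_ne fun h => hne ?_
      rw [hp.1, h]
  | succ i ih =>
    intro x y hxy hne t ht hp
    cases t with
    | nil => simp at ht
    | cons b s =>
      rw [List.take_succ_cons, isPre_cons] at hp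
      have h0 : y 0 = b := by rw [← hxy 0 (Nat.succ_pos _)]; exact hp.1
      rw [below_cons_eq h0]
      exact ih (fun n => x (n + 1)) (fun n => y (n + 1))
        (fun j hj => hxy (j + 1) (Nat.succ_lt_succ hj)) hne s (by simpa using ht) hp.2

theorem below_replicate : ∀ (k : ℕ) (c : Bool) (x : ℕ → Bool) (t : List Bool),
    List.replicate k c <+: t → (∃ n < k, x n = !c) → below t x = !c := by
  intro k
  induction k with
  | zero =>
    rintro c x t _ ⟨n, hn, _⟩
    exact absurd hn (Nat.not_lt_zero _)
  | succ k ih =>
    rintro c x t ht ⟨n, hn, hx⟩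
    obtain ⟨r, rfl⟩ := ht
    rw [List.replicate_succ, List.cons_append]
    by_cases h0 : x 0 = c
    · rw [below_cons_eq h0]
      cases n with
      | zero =>
        rw [h0] at hx
        cases c <;> simp at hx
      | succ n => exact ih c _ _ ⟨r, rfl⟩ ⟨n, Nat.lt_of_succ_lt_succ hn, hx⟩
    · rw [below_cons_ne h0]
      cases c <;> cases h : x 0 <;> simp_all

theorem node_aux : ∀ (s : List Bool) (x : ℕ → Bool), (∀ m, ∃ n, m ≤ n ∧ x n = true) →
    (∀ m, ∃ n, m ≤ n ∧ x n = false) →
    ∃ k, (∀ t ∈ cone s k, below t x = true) ∨ ∀ t ∈ cone s k, below t x = false := by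
  intro s
  induction s with
  | nil =>
    intro x h1 h2
    have key : ∃ k, ∀ t ∈ cone [] k, below t x = x 0 := by
      obtain ⟨n, hn, hx⟩ : ∃ n, 1 ≤ n ∧ x n = x 0 := by
        cases h : x 0 with
        | true => exact h1 1
        | false => exact h2 1
      refine ⟨n, fun t ht => ?_⟩
      have main : ∀ b : Bool, turn [] b n <+: t → below t x = x 0 := by
        rintro b ⟨r, rfl⟩
        rw [turn, List.nil_append, List.cons_append]
        by_cases h0 : x 0 = b
        · rw [below_cons_eq h0, h0]
          have := below_replicate n (!b) (fun n => x (n + 1)) _ ⟨r, rfl⟩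
            ⟨n - 1, by omega, by simp only [Bool.not_not]; rw [Nat.sub_add_cancel hn, hx, h0]⟩
          simpa using this
        · rw [below_cons_ne h0]
      rcases ht with ht | ht
      · exact main _ ht
      · exact main _ ht
    obtain ⟨k, hk⟩ := key
    refine ⟨k, ?_⟩
    cases h : x 0 with
    | true => exact Or.inl fun t ht => by rw [hk t ht, h]
    | false => exact Or.inr fun t ht => by rw [hk t ht, h]
  | cons b s ih =>
    intro x h1 h2
    have hc : ∀ k t, t ∈ cone (b :: s) k → ∃ t', t = b :: t' ∧ t' ∈ cone s k := by
      rintro k t (⟨r, rfl⟩ | ⟨r, rfl⟩)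
      · exact ⟨turn s true k ++ r, by simp [turn], Or.inl ⟨r, rfl⟩⟩
      · exact ⟨turn s false k ++ r, by simp [turn], Or.inr ⟨r, rfl⟩⟩
    by_cases h0 : x 0 = b
    · obtain ⟨k, hk⟩ := ih (fun n => x (n + 1))
        (fun m => by
          obtain ⟨n, hn, hx⟩ := h1 (m + 1)
          exact ⟨n - 1, by omega, by simp only [Nat.sub_add_cancel (by omega : 1 ≤ n), hx]⟩)
        (fun m => by
          obtain ⟨n, hn, hx⟩ := h2 (m + 1)
          exact ⟨n - 1, by omega, by simp only [Nat.sub_add_cancel (by omega : 1 ≤ n), hx]⟩)
      refine ⟨k, hk.imp (fun h t ht => ?_) fun h t ht => ?_⟩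
      · obtain ⟨t', rfl, ht'⟩ := hc k t ht
        rw [below_cons_eq h0]
        exact h t' ht'
      · obtain ⟨t', rfl, ht'⟩ := hc k t ht
        rw [below_cons_eq h0]
        exact h t' ht'
    · refine ⟨0, ?_⟩
      have key : ∀ t ∈ cone (b :: s) 0, below t x = x 0 := by
        intro t ht
        obtain ⟨t', rfl, ht'⟩ := hc 0 t ht
        exact below_cons_ne h0
      cases h : x 0 with
      | true => exact Or.inl fun t ht => by rw [key t ht, h]
      | false => exact Or.inr fun t ht => by rw [key t ht, h]

theorem below_const : ∀ (t : List Bool) (b : Bool), below t (fun _ => b) = b := by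
  intro t
  induction t with
  | nil => intro b; rfl
  | cons a t ih =>
    intro b
    by_cases h : b = a
    · rw [below_cons_eq (x := fun _ => b) h]
      exact ih b
    · rw [below_cons_ne (x := fun _ => b) h]

theorem pt_cons_zero (b a : Bool) (s : List Bool) : pt b (a :: s) 0 = a := by
  simp [pt]

theorem pt_cons_succ (b a : Bool) (s : List Bool) :
    (fun n => pt b (a :: s) (n + 1)) = pt b s := by
  funext n
  simp [pt]

theorem pt_nil_zero (b : Bool) : pt b [] 0 = b := by simp [pt]

theorem pt_nil_succ (b : Bool) : (fun n => pt b [] (n + 1)) = fun _ => !b := by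
  funext n
  simp [pt]

theorem single' : ∀ s t : List Bool,
    (below t (pt true s) = true ∧ ¬ below t (pt false s) = true) ↔ t = s := by
  intro s
  induction s with
  | nil =>
    intro t
    cases t with
    | nil => simp [below, pt]
    | cons c t =>
      cases c with
      | true =>
        rw [below_cons_eq (by rw [pt_nil_zero]), pt_nil_succ, below_const]
        simp
      | false =>
        have h2 : below (false :: t) (pt false []) = true := by
          rw [below_cons_eq (by rw [pt_nil_zero]), pt_nil_succ, below_const]
          rfl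
        simp [h2]
  | cons a s ih =>
    intro t
    cases t with
    | nil =>
      simp only [below, pt_cons_zero]
      simp
    | cons c t =>
      by_cases h : a = c
      · subst h
        rw [below_cons_eq (pt_cons_zero _ _ _), below_cons_eq (pt_cons_zero _ _ _),
          pt_cons_succ, pt_cons_succ, ih t]
        simp
      · rw [below_cons_ne (by rw [pt_cons_zero]; exact h),
          below_cons_ne (by rw [pt_cons_zero]; exact h), pt_cons_zero, pt_cons_zero]
        constructor
        · rintro ⟨h1, h2⟩
          exact absurd h1 h2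
        · intro he
          exact absurd (List.cons.inj he).1.symm h

end Tree

theorem treeStmt : TreeStmt where
  chain := Tree.chain'
  right := fun s x h => Tree.below_of_isPre_snoc s true x h
  left := fun s x h => Tree.below_of_isPre_snoc s false x h
  exL := fun _ _ hr h => Tree.ex_of hr h
  exR := fun _ _ hr h => Tree.ex_of hr h
  germ := by
    intro x y hne
    obtain ⟨i, hi, hd⟩ := Tree.first_diff hne
    refine ⟨i + 1, ?_⟩
    cases h : y i with
    | true => exact Or.inl fun t ht hp => by rw [Tree.germ_aux i x y hi hd t ht hp, h]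
    | false => exact Or.inr fun t ht hp => by rw [Tree.germ_aux i x y hi hd t ht hp, h]
  node := fun x h1 h2 s => Tree.node_aux s x h1 h2
  single := Tree.single'

end Pool.Agent.Hia
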