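import Pool.Agent.Lib.MP_062a1c_lc.Formula
import Pool.Agent.Lib.MP_062a1c_lc.Tree
import Pool.Agent.Lib.MP_062a1c_lc.Field
import Pool.Agent.Lib.MP_062a1c_lc.NotInt
import Pool.Agent.Lib.MP_062a1c_lc.NotDom
import Pool.Agent.Lib.MP_062a1c_lc.Meager
import Pool.Agent.Lib.MP_062a1c_lc.Facts
import Pool.Agent.Lib.MP_062a1c_lc.Evd
import Pool.Agent.Lib.MP_a1c723_lc.Converse
import Pool.Agent.Lib.MP_a1c723_lc.BV.Alg
import Pool.Agent.Lib.MP_a1c723_lc.BV.CCC
import Pool.Agent.Lib.MP_a1c723_lc.BV.Dom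
import Pool.Agent.Lib.MP_a1c723_lc.BV.Model

/-!
# MP_062a1c_lc: assembly of the modules
-/

set_option autoImplicit false

namespace Pool.Agent.Hia

open Pool.Agent.MPa4e7db Pool.Agent.MP_5db68c_lc Pool.Agent.StarRoth Pool.Agent.StarRoth.BV

section

variable {B W : Type} [CompleteBooleanAlgebra B] {u π : W → List Bool → B}

theorem subB_setN {x y : ℕ → B} {p : B} (h : p ≤ ⨅ n, x n ⇨ y n) : p ≤ subB (setN x) (setN y) := by
  refine le_iInf fun z => himp_intro fun q hq hz => ?_
  rw [memB_setN] at hz ⊢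
  refine iSup_elim hz fun n r hr hn => iSup_intro n (le_inf ?_ (hn.trans inf_le_right))
  exact himp_mp (iInf_mp ((hr.trans hq).trans h) n) (hn.trans inf_le_left)

theorem subB_congr {p : B} {a a' b b' : BName B} (ha : p ≤ eqB a a') (hb : p ≤ eqB b b')
    (h : p ≤ subB a' b') : p ≤ subB a b := by
  refine le_iInf fun z => himp_intro fun q hq hz => ?_
  exact memB_congr_right (eqB.symm (hq.trans hb))
    (himp_mp (iInf_mp (hq.trans h) z) (memB_congr_right (hq.trans ha) hz))

theorem isChainB_famB (F : Facts2 B W u π) : isChainB (famB (genS u)) = ⊤ := by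
  rw [eq_top_iff]
  refine le_iInf fun a => le_iInf fun b => himp_intro fun q _ h => ?_
  have ha := h.trans inf_le_left
  have hb := h.trans inf_le_right
  rw [Fld.memB_famB] at ha hb
  refine iSup_elim ha fun i r hr hi => iSup_elim (hr.trans hb) fun j s hs hj => ?_
  refine sup_elim ((le_top (a := s)).trans (F.chain i j).ge) (fun t ht h1 => ?_)
    (fun t ht h1 => ?_)
  · exact (subB_congr (ht.trans (hs.trans hi)) (ht.trans hj) (subB_setN h1)).trans le_sup_left
  · exact (subB_congr (ht.trans hj) (ht.trans (hs.trans hi)) (subB_setN h1)).trans le_sup_right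

theorem genA_eq (u : W → List Bool → B) (i : W ⊕ List Bool) :
    ∃ σ, genA u i = ev (genS u) σ := by
  classical
  cases i with
  | inl w => exact ⟨Tm.var (Sum.inl w), rfl⟩
  | inr s =>
    refine ⟨Tm.inter (Tm.var (Sum.inr (true, s))) (Tm.compl (Tm.var (Sum.inr (false, s)))), ?_⟩
    funext n
    simp only [ev, genA, genS, bv]
    have h := treeStmt.single s (nd n)
    by_cases h1 : nd n = s
    · obtain ⟨h2, h3⟩ := h.2 h1
      rw [if_pos h1, if_pos h2, if_neg h3]
      simp
    · rw [if_neg h1]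
      by_cases h2 : below (nd n) (pt true s) = true
      · by_cases h3 : below (nd n) (pt false s) = true
        · rw [if_pos h3]
          simp
        · exact absurd (h.1 ⟨h2, h3⟩) h1
      · rw [if_neg h2]
        simp

/-- `hia < min(d, non(M))` has Boolean value `⊤` as soon as the Boolean facts hold. -/
theorem hiaB_eq_top (F : Facts2 B W u π) : hiaB B = ⊤ := by
  obtain ⟨h1, h2, h3⟩ := fieldStmt (genS u)
  obtain ⟨h4, -, -⟩ := fieldStmt (genA u)
  rw [eq_top_iff, hiaB]
  refine iSup_intro omegaN (iSup_intro (fldN (genS u)) (iSup_intro (fldN (genA u)) ?_))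
  refine le_inf (le_inf (le_inf (le_inf (le_inf (le_inf ?_ ?_) ?_) ?_) ?_) ?_) ?_
  · rw [isOmegaB_eq]
    exact le_eqB_refl _ _
  · refine le_inf h1.ge (iSup_intro (famB (genS u)) (le_inf ?_ h2.ge))
    rw [isChainB_famB F]
  · exact h4.ge
  · exact (h3 (genA u) (genA_eq u)).ge
  · rw [notIntStmt F, compl_bot]
  · exact (notDomStmt F).ge
  · exact (meagerStmt F).ge

end

/-- It is consistent with `ZFC` that `hia < min(d, non(M))`. -/
theorem consistency (hHit : HitStmt) :
    ∃ (M : Type) (_ : Membership M M), ModelZFC M ∧ ∃ w S A : M,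
      IsOmegaIn w ∧ IsIntAlgIn S w ∧ IsFieldIn A w ∧ SubIn A S ∧ ¬ IsIntAlgIn A w ∧
      (∀ F : M, IsRealsIn F w ∧ CardLeIn F S → ¬ IsDomIn F w) ∧
      ∀ F : M, IsRealsIn F w ∧ CardLeIn F S → IsMeagerIn F w := by
  obtain ⟨B, _, u, π, F⟩ := facts2Stmt algStmt cccStmt domStmt evdStmt hHit treeStmt W1
  obtain ⟨M, _, hM, hval⟩ := modelStmt B F.nontriv
  refine ⟨M, _, hM, ?_⟩
  have h1 := hval fHia fun v => by rw [val_fHia, hiaB_eq_top F]
  obtain ⟨e, -⟩ := hM.infinity
  exact (sat_fHia fun _ => e).1 (h1 _)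

end Pool.Agent.Hia
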