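import Pool.Agent.Lib.MP_a1c723_lc.BV.Defs
import Pool.Agent.Lib.MP_a4e7db_lc.Omega

/-!
# MP_062a1c_lc: Boolean values of the notions of the question, names of fields of sets

Names, `eqB`, `memB` and the Boolean values of basic notions are those of
`Pool.Agent.Lib.MP_a4e7db_lc.Names` and `Pool.Agent.Lib.MP_a1c723_lc.BV.Defs`.
-/

set_option autoImplicit false

namespace Pool.Agent.Hia

open Pool.Agent.MPa4e7db Pool.Agent.StarRoth.BV

universe u

/-! ## Boolean values of the notions in the question -/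

section

variable {B : Type u} [CompleteBooleanAlgebra B]

/-- `S` is a field of subsets of `w`: a set of subsets of `w` that contains `w` and is closed
under complements and intersections. -/
def isFieldB (S w : BName B) : B :=
  (⨅ a : BName B, memB a S ⇨ subB a w) ⊓ memB w S ⊓
    (⨅ a : BName B, ⨅ b : BName B, memB a S ⊓ isDiffB b w a ⇨ memB b S) ⊓
    ⨅ a : BName B, ⨅ b : BName B, ⨅ c : BName B,
      memB a S ⊓ memB b S ⊓ isInterB c a b ⇨ memB c S

/-- `C` is a chain of sets. -/
def isChainB (C : BName B) : B :=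
  ⨅ a : BName B, ⨅ b : BName B, memB a C ⊓ memB b C ⇨ subB a b ⊔ subB b a

/-- `A` is the field of subsets of `w` generated by `C ⊆ A`. -/
def isGenB (A C w : BName B) : B :=
  subB C A ⊓ ⨅ S : BName B, isFieldB S w ⊓ subB C S ⇨ subB A S

/-- The field `A` of subsets of `w` is an interval algebra: it is generated by a chain. -/
def isIntAlgB (A w : BName B) : B :=
  isFieldB A w ⊓ ⨆ C : BName B, isChainB C ⊓ isGenB A C w

/-- `F` is a set of functions from `w = ω` to `ω`. -/
def isRealsB (F w : BName B) : B := ⨅ f : BName B, memB f F ⇨ isFunIntoB f w w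

/-- `g ≤* f`: `g(m) ≤ f(m)` for all `m ∈ ω` outside some `n ∈ ω`. -/
def leStarB (g f w : BName B) : B :=
  ⨆ n : BName B, memB n w ⊓ ⨅ m : BName B, ⨅ k : BName B, ⨅ l : BName B,
    memB m w ⊓ (memB m n)ᶜ ⊓ relB g m k ⊓ relB f m l ⇨ memB k l ⊔ eqB k l

/-- `F` is a dominating family. -/
def isDomB (F w : BName B) : B :=
  ⨅ g : BName B, isFunIntoB g w w ⇨ ⨆ f : BName B, memB f F ⊓ leStarB g f w

/-- `s` is a finite sequence of natural numbers: a function from some `n ∈ ω` to `ω`. -/
def isFinSeqB (s w : BName B) : B := ⨆ n : BName B, memB n w ⊓ isFunIntoB s n w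

/-- `N` is nowhere dense in `ω^ω`: every finite sequence has an extension that is an initial
segment of no element of `N`. -/
def isNwdB (N w : BName B) : B :=
  ⨅ s : BName B, isFinSeqB s w ⇨ ⨆ t : BName B, isFinSeqB t w ⊓ subB s t ⊓
    ⨅ f : BName B, memB f N ⇨ (subB t f)ᶜ

/-- `F` is meager in `ω^ω`: it is covered by a sequence `P` of nowhere dense sets. -/
def isMeagerB (F w : BName B) : B :=
  ⨆ P : BName B, isFunOnB P w ⊓ (⨅ n : BName B, ⨅ N : BName B, relB P n N ⇨ isNwdB N w) ⊓
    ⨅ f : BName B, memB f F ⇨ ⨆ n : BName B, ⨆ N : BName B, relB P n N ⊓ memB f N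

end

/-- The Boolean value of `hia < min(d, non(M))`: there are an interval algebra `S` of subsets of
`ω` and a subalgebra `A` of `S` that is not an interval algebra, and no set of reals of
cardinality at most `|S|` is dominating or non-meager. -/
def hiaB (B : Type u) [CompleteBooleanAlgebra B] : B :=
  ⨆ w : BName B, ⨆ S : BName B, ⨆ A : BName B,
    isOmegaB w ⊓ isIntAlgB S w ⊓ isFieldB A w ⊓ subB A S ⊓ (isIntAlgB A w)ᶜ ⊓
      (⨅ F : BName B, isRealsB F w ⊓ cardLeB F S ⇨ (isDomB F w)ᶜ) ⊓
      ⨅ F : BName B, isRealsB F w ⊓ cardLeB F S ⇨ isMeagerB F w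

/-! ## Names of fields of sets -/

/-- Boolean terms over `G`. -/
inductive Tm (G : Type) : Type
  | var (i : G) : Tm G
  | one : Tm G
  | compl (σ : Tm G) : Tm G
  | inter (σ τ : Tm G) : Tm G

section

variable {B : Type} [CompleteBooleanAlgebra B] {G : Type}

/-- The value of a term, for given values of the generators (`B`-valued subsets of `ℕ`). -/
def ev (g : G → ℕ → B) : Tm G → ℕ → B
  | .var i, n => g i n
  | .one, _ => ⊤
  | .compl σ, n => (ev g σ n)ᶜ
  | .inter σ τ, n => ev g σ n ⊓ ev g τ n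

/-- The name of the set of the sets `g i`. -/
def famB (g : G → ℕ → B) : BName B := BName.mk G (fun i => setN (g i)) (fun _ => ⊤)

/-- The name of the field of subsets of `ω` generated by the sets `g i`. -/
def fldN (g : G → ℕ → B) : BName B := BName.mk (Tm G) (fun σ => setN (ev g σ)) (fun _ => ⊤)

open Classical in
/-- `P` as an element of `B`. -/
noncomputable def bv (B : Type) [CompleteBooleanAlgebra B] (P : Prop) : B := if P then ⊤ else ⊥

end

/-! ## The order of the nodes of the binary tree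

The nodes `s ∈ 2^{<ω}` are ordered in-order: `s` is above everything that extends `s0` and below
everything that extends `s1`. -/

/-- The node `s` is to the left of the branch `x`. -/
def below : List Bool → (ℕ → Bool) → Bool
  | [], x => x 0
  | b :: s, x => if x 0 = b then below s (fun n => x (n + 1)) else x 0

/-- The node `r` is an initial segment of the branch `x`. -/
def IsPre (r : List Bool) (x : ℕ → Bool) : Prop := ∀ i (h : i < r.length), r[i] = x i

/-- `s⌢b⌢(¬b)^k`. -/
def turn (s : List Bool) (b : Bool) (k : ℕ) : List Bool := s ++ b :: List.replicate k (!b)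

/-- The branch `s⌢b⌢(¬b)^∞`. -/
def pt (b : Bool) (s : List Bool) (n : ℕ) : Bool :=
  if h : n < s.length then s[n] else if n = s.length then b else !b

/-- The nodes extending `turn s false k` or `turn s true k`: a neighbourhood of the node `s`. -/
def cone (s : List Bool) (k : ℕ) : Set (List Bool) :=
  {t | turn s true k <+: t ∨ turn s false k <+: t}

/-- A bijection between the natural numbers and the nodes. -/
noncomputable def ndE : ℕ ≃ List Bool :=
  (@Denumerable.eqv (List Bool) (Denumerable.ofEncodableOfInfinite (List Bool))).symm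

/-- The node coded by the natural number `n`. -/
noncomputable def nd (n : ℕ) : List Bool := ndE n

section

variable {B : Type} [CompleteBooleanAlgebra B] {W : Type}

/-- The value of: `t` extends the initial segment of length `m` of the branch `w`, where
`π w r` is the value of: `r` is an initial segment of the branch `w`. -/
def chi (π : W → List Bool → B) (w : W) (m : ℕ) (t : List Bool) : B :=
  ⨆ (_ : m ≤ t.length), π w (t.take m)

/-- The generators of the subalgebra `A`: the cuts given by the branches `w : W` and the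
singletons. -/
noncomputable def genA (u : W → List Bool → B) : W ⊕ List Bool → ℕ → B
  | .inl w, n => u w (nd n)
  | .inr s, n => bv B (nd n = s)

/-- The generators of the interval algebra `S`: the cuts given by the branches `w : W` and by
`pt b s`. -/
noncomputable def genS (u : W → List Bool → B) : W ⊕ (Bool × List Bool) → ℕ → B
  | .inl w, n => u w (nd n)
  | .inr i, n => bv B (below (nd n) (pt i.1 i.2) = true)

/-- The index type of the name of the interval algebra `S`. -/
abbrev TmS (W : Type) : Type := Tm (W ⊕ (Bool × List Bool))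

end

/-! ## What is needed of the complete Boolean algebra -/

/-- `u w s` is the value of: the node `s` is to the left of the branch `x_w`, and `π w r` is the
value of: `r` is an initial segment of `x_w`. -/
structure Facts2 (B W : Type) [CompleteBooleanAlgebra B] (u π : W → List Bool → B) : Prop where
  nontriv : (⊥ : B) ≠ ⊤
  /-- the cuts form a chain -/
  chain : ∀ i j, (⨅ n, genS u i n ⇨ genS u j n) ⊔ (⨅ n, genS u j n ⇨ genS u i n) = ⊤
  mono : ∀ w s r, π w (s ++ r) ≤ π w s
  right : ∀ w s, π w (s ++ [true]) ≤ u w s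
  left : ∀ w s, π w (s ++ [false]) ≤ (u w s)ᶜ
  exL : ∀ w r, π w r ≤ ⨆ t : List Bool, ⨆ (_ : r <+: t), u w t
  exR : ∀ w r, π w r ≤ ⨆ t : List Bool, ⨆ (_ : r <+: t), (u w t)ᶜ
  total : ∀ w m, ⨆ r : List Bool, ⨆ (_ : r.length = m), π w r = ⊤
  /-- the cut of another branch does not separate the points near `x_w` -/
  germ : ∀ v w, v ≠ w → ⨆ m : ℕ, ((⨅ t, chi π w m t ⇨ u v t) ⊔ ⨅ t, chi π w m t ⇨ (u v t)ᶜ) = ⊤
  /-- the cut of a branch does not separate the points near a node -/
  node : ∀ w s, ⨆ k : ℕ, ((⨅ t : List Bool, ⨅ (_ : t ∈ cone s k), u w t) ⊔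
    ⨅ t : List Bool, ⨅ (_ : t ∈ cone s k), (u w t)ᶜ) = ⊤
  /-- some branch is generic for given one-sided neighbourhoods of the nodes -/
  hit : ∀ (v : List Bool → B) (δ : List Bool → ℕ → B), (∀ s, ⨆ k, δ s k = ⊤) →
    ∃ w, ∀ m : ℕ,
      (⨆ s : List Bool, ⨆ (_ : m ≤ s.length), ⨆ k : ℕ,
        δ s k ⊓ ((v s ⊓ π w (turn s true k)) ⊔ ((v s)ᶜ ⊓ π w (turn s false k)))) = ⊤ ∧
      (⨆ s : List Bool, ⨆ (_ : m ≤ s.length), ⨆ k : ℕ,
        δ s k ⊓ (((v s)ᶜ ⊓ π w (turn s true k)) ⊔ (v s ⊓ π w (turn s false k)))) = ⊤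
  /-- no family of functions indexed by `TmS W` is dominating -/
  dom : ∀ e : TmS W → ℕ → ℕ → B, (∀ t m, ⨆ k, e t m k = ⊤) →
    ∃ h : ℕ → ℕ → B, (∀ m k l, k ≠ l → h m k ⊓ h m l = ⊥) ∧ (∀ m, ⨆ k, h m k = ⊤) ∧
      ∀ t m₀, ⨆ m : ℕ, ⨆ (_ : m₀ ≤ m), ⨆ k : ℕ, ⨆ j : ℕ, ⨆ (_ : j ≤ k), h m k ⊓ e t m j = ⊤
  /-- for every family of functions indexed by `TmS W` there is a function eventually different
  from each of them -/
  evd : ∀ e : TmS W → ℕ → ℕ → B, (∀ t m k l, k ≠ l → e t m k ⊓ e t m l = ⊥) →
    ∃ h : ℕ → ℕ → B, (∀ m k l, k ≠ l → h m k ⊓ h m l = ⊥) ∧ (∀ m, ⨆ k, h m k = ⊤) ∧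
      ∀ t, ⨆ m₀ : ℕ, ⨅ m : ℕ, ⨅ (_ : m₀ ≤ m), ⨅ k : ℕ, (h m k ⊓ e t m k)ᶜ = ⊤

end Pool.Agent.Hia
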