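import Pool.Agent.Lib.MP_062a1c_lc.Stmts
import Pool.Agent.Lib.MP_a1c723_lc.BV.Base

/-!
# MP_062a1c_lc: enumeration of a set of functions that injects into a name with index type `T`
-/

set_option autoImplicit false

namespace Pool.Agent.Hia

open Pool.Agent.MPa4e7db Pool.Agent.StarRoth.BV

namespace En

variable {B : Type} [CompleteBooleanAlgebra B]

theorem enum {F g : BName B} {T : Type} {b : T → BName B} {p : B}
    (hg : p ≤ isInjIntoB g F (BName.mk T b fun _ => ⊤)) :
    ∃ f : T → BName B, ∀ x q, q ≤ p → q ≤ memB x F → q ≤ ⨆ t, memB (f t) F ⊓ eqB x (f t) := by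
  have hmax : ∀ t, ∃ x : BName B, (⨆ y : BName B, memB y F ⊓ relB g y (b t)) ≤
      memB x F ⊓ relB g x (b t) := fun t =>
    exists_max (ext_inf (ext_memB_left F) (ext_relB_left g (b t)))
  choose f hf using hmax
  refine ⟨f, fun x q hq hx => ?_⟩
  have h1 : q ≤ isFunOnB g F := (hq.trans hg).trans (inf_le_left.trans inf_le_left)
  refine iSup_elim (isFunOnB_total h1 hx) fun y r hr hy => ?_
  have h2 : r ≤ memB y (BName.mk T b fun _ => ⊤) :=
    himp_mp (iInf_mp (iInf_mp (((hr.trans hq).trans hg).trans (inf_le_left.trans inf_le_right))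
      x) y) hy
  rw [memB_mk] at h2
  refine iSup_elim h2 fun t s hs ht => iSup_intro t ?_
  have h3 : s ≤ relB g x (b t) :=
    relB_congr (le_eqB_refl _ _) (ht.trans inf_le_right) (hs.trans hy)
  have h4 : s ≤ memB (f t) F ⊓ relB g (f t) (b t) := by
    refine le_trans ?_ (hf t)
    exact iSup_intro x (le_inf ((hs.trans hr).trans hx) h3)
  refine le_inf (h4.trans inf_le_left) ?_
  exact himp_mp (iInf_mp (iInf_mp (iInf_mp ((((hs.trans hr).trans hq).trans hg).trans
    inf_le_right) x) (f t)) (b t)) (le_inf h3 (h4.trans inf_le_right))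

theorem memB_natN_ge {m k : ℕ} (h : k ≤ m) : memB (natN m : BName B) (natN k) = ⊥ := by
  rw [memB_natN, eq_bot_iff]
  refine iSup_le fun i => ?_
  rw [eqB_natN_ne]
  have := i.2
  omega

/-- A function from `ω` to `ω` has a value at every natural number. -/
theorem fun_total {p : B} {f : BName B} (h : p ≤ isFunIntoB f omegaN omegaN) (m : ℕ) :
    p ≤ ⨆ k : ℕ, relB f (natN m) (natN k) := by
  refine iSup_elim (isFunOnB_total (h.trans inf_le_left)
    ((le_top (a := p)).trans (natN_mem_omegaN m).ge)) fun y q hq hy => ?_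
  have h2 := himp_mp (iInf_mp (iInf_mp ((hq.trans h).trans inf_le_right) (natN m)) y) hy
  rw [memB_omegaN] at h2
  refine iSup_elim h2 fun k r hr hk => iSup_intro k ?_
  exact relB_congr (le_eqB_refl _ _) hk (hr.trans hy)

theorem fun_unique {p : B} {f d : BName B} (h : p ≤ isFunOnB f d) {x : BName B} {k l : ℕ}
    (h1 : p ≤ relB f x (natN k)) (h2 : p ≤ relB f x (natN l)) (hkl : k ≠ l) : p ≤ ⊥ := by
  rw [← eqB_natN_ne (B := B) hkl]
  exact isFunOnB_unique h h1 h2

/-- The name of a function from `d < ω` to `ω`. -/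
theorem isFunIntoB_funN_fin {p : B} {r : ℕ → ℕ → B} {d : ℕ}
    (hr : ∀ n k l, k ≠ l → p ⊓ (r n k ⊓ r n l) ≤ ⊥) (ht : ∀ n < d, p ≤ ⨆ k, r n k)
    (h0 : ∀ n k, d ≤ n → r n k = ⊥) : p ≤ isFunIntoB (funN r) (natN d) omegaN := by
  have hlt : ∀ (n k : ℕ) (q : B), q ≤ r n k → q ≤ memB (natN n) (natN d) := by
    intro n k q hq
    rcases lt_or_ge n d with h | h
    · rw [memB_natN_lt h]
      exact le_top
    · rw [h0 n k h] at hq
      exact hq.trans bot_le
  refine le_inf ?_ ?_
  · apply isFunOnB_intro
    · intro z q hq hz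
      rw [funN, memB_mk] at hz
      refine iSup_elim hz fun i s hs hi => ?_
      refine iSup_intro (natN i.1) (iSup_intro (natN i.2) (le_inf ?_ (hi.trans inf_le_right)))
      exact hlt _ _ _ (hi.trans inf_le_left)
    · intro x q hq hx
      rw [memB_natN] at hx
      refine iSup_elim hx fun i s hs hi => ?_
      refine iSup_elim ((hs.trans hq).trans (ht i i.2)) fun k u hu hk => ?_
      refine iSup_intro (natN k) ?_
      rw [relB_funN]
      exact iSup_intro (i : ℕ) (iSup_intro k (le_inf hk (le_inf (hu.trans hi)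
        (le_eqB_refl _ _))))
    · intro x y y' q hq h1 h2
      rw [relB_funN] at h1 h2
      refine iSup_elim h1 fun n s hs h3 => iSup_elim h3 fun k s1 hs1 h4 => ?_
      refine iSup_elim ((hs1.trans hs).trans h2) fun n' u hu h5 => iSup_elim h5 fun l v hv h6 => ?_
      have e1 : v ≤ eqB x (natN n) := ((hv.trans hu).trans h4).trans
        (inf_le_right.trans inf_le_left)
      have e2 : v ≤ eqB y (natN k) := ((hv.trans hu).trans h4).trans
        (inf_le_right.trans inf_le_right)
      have e3 : v ≤ eqB x (natN n') := h6.trans (inf_le_right.trans inf_le_left)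
      have e4 : v ≤ eqB y' (natN l) := h6.trans (inf_le_right.trans inf_le_right)
      by_cases hn : n = n'
      · subst hn
        by_cases hk : k = l
        · subst hk
          exact eqB.trans e2 (eqB.symm e4)
        · have h7 : v ≤ p ⊓ (r n k ⊓ r n l) :=
            le_inf ((((hv.trans hu).trans hs1).trans hs).trans hq)
              (le_inf (((hv.trans hu).trans h4).trans inf_le_left) (h6.trans inf_le_left))
          exact (h7.trans (hr n k l hk)).trans bot_le
      · have h7 : v ≤ eqB (natN n) (natN n') := eqB.trans (eqB.symm e1) e3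
        rw [eqB_natN_ne hn] at h7
        exact h7.trans bot_le
  · refine le_iInf fun x => le_iInf fun y => himp_intro fun q _ h => ?_
    rw [relB_funN] at h
    refine iSup_elim h fun n s _ h3 => iSup_elim h3 fun k s1 _ h4 => ?_
    rw [memB_omegaN]
    exact iSup_intro k (h4.trans (inf_le_right.trans inf_le_right))

theorem isFunIntoB_funN {r : ℕ → ℕ → B} (hr : ∀ n k l, k ≠ l → r n k ⊓ r n l = ⊥)
    (ht : ∀ n, ⨆ k, r n k = ⊤) (p : B) : p ≤ isFunIntoB (funN r) omegaN omegaN := by
  refine le_inf ?_ ?_
  · apply isFunOnB_intro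
    · intro z q _ hz
      rw [funN, memB_mk] at hz
      refine iSup_elim hz fun i s _ hi => ?_
      refine iSup_intro (natN i.1) (iSup_intro (natN i.2) (le_inf ?_ (hi.trans inf_le_right)))
      rw [natN_mem_omegaN]
      exact le_top
    · intro x q _ hx
      rw [memB_omegaN] at hx
      refine iSup_elim hx fun i s _ hi => ?_
      refine iSup_elim ((le_top (a := s)).trans (ht i).ge) fun k u hu hk => ?_
      refine iSup_intro (natN k) ?_
      rw [relB_funN]
      exact iSup_intro i (iSup_intro k (le_inf hk (le_inf (hu.trans hi) (le_eqB_refl _ _))))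
    · intro x y y' q _ h1 h2
      rw [relB_funN] at h1 h2
      refine iSup_elim h1 fun n s hs h3 => iSup_elim h3 fun k s1 hs1 h4 => ?_
      refine iSup_elim ((hs1.trans hs).trans h2) fun n' u hu h5 => iSup_elim h5 fun l v hv h6 => ?_
      have e1 : v ≤ eqB x (natN n) := ((hv.trans hu).trans h4).trans
        (inf_le_right.trans inf_le_left)
      have e2 : v ≤ eqB y (natN k) := ((hv.trans hu).trans h4).trans
        (inf_le_right.trans inf_le_right)
      have e3 : v ≤ eqB x (natN n') := h6.trans (inf_le_right.trans inf_le_left)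
      have e4 : v ≤ eqB y' (natN l) := h6.trans (inf_le_right.trans inf_le_right)
      by_cases hn : n = n'
      · subst hn
        by_cases hk : k = l
        · subst hk
          exact eqB.trans e2 (eqB.symm e4)
        · have h7 : v ≤ r n k ⊓ r n l :=
            le_inf (((hv.trans hu).trans h4).trans inf_le_left) (h6.trans inf_le_left)
          rw [hr n k l hk] at h7
          exact h7.trans bot_le
      · have h7 : v ≤ eqB (natN n) (natN n') := eqB.trans (eqB.symm e1) e3
        rw [eqB_natN_ne hn] at h7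
        exact h7.trans bot_le
  · refine le_iInf fun x => le_iInf fun y => himp_intro fun q _ h => ?_
    rw [relB_funN] at h
    refine iSup_elim h fun n s _ h3 => iSup_elim h3 fun k s1 _ h4 => ?_
    rw [memB_omegaN]
    exact iSup_intro k (h4.trans (inf_le_right.trans inf_le_right))

theorem le_relB_funN (r : ℕ → ℕ → B) (n k : ℕ) : r n k ≤ relB (funN r) (natN n) (natN k) := by
  rw [relB_funN]
  exact iSup_intro n (iSup_intro k (le_inf le_rfl (le_inf (le_eqB_refl _ _)
    (le_eqB_refl _ _))))

end En

end Pool.Agent.Hia
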