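import Pool.Agent.Lib.MP_062a1c_lc.Internal
import Pool.Agent.Lib.MP_062a1c_lc.Defs
import Pool.Agent.Lib.MP_a1c723_lc.BV.Formula

/-!
# MP_062a1c_lc: the configuration as a first-order sentence
-/

set_option autoImplicit false

namespace Pool.Agent.Hia

open Pool.Agent.MPa4e7db Pool.Agent.MP_5db68c_lc Pool.Agent.StarRoth.BV

def fDiff (z x y : ℕ) : Fml :=
  .all (fIff (.mem 0 (z + 1)) (.and (.mem 0 (x + 1)) (.neg (.mem 0 (y + 1)))))
def fInter (z x y : ℕ) : Fml :=
  .all (fIff (.mem 0 (z + 1)) (.and (.mem 0 (x + 1)) (.mem 0 (y + 1))))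
def fField (S w : ℕ) : Fml :=
  .and (.and (.and (.all (fImp (.mem 0 (S + 1)) (fSub 0 (w + 1)))) (.mem w S))
    (.all (.all (fImp (.and (.mem (0 + 1) (S + 1 + 1)) (fDiff 0 (w + 1 + 1) (0 + 1)))
      (.mem 0 (S + 1 + 1))))))
    (.all (.all (.all (fImp (.and (.and (.mem (0 + 1 + 1) (S + 1 + 1 + 1))
      (.mem (0 + 1) (S + 1 + 1 + 1))) (fInter 0 (0 + 1 + 1) (0 + 1))) (.mem 0 (S + 1 + 1 + 1))))))
def fChain (C : ℕ) : Fml :=
  .all (.all (fImp (.and (.mem (0 + 1) (C + 1 + 1)) (.mem 0 (C + 1 + 1)))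
    (fOr (fSub (0 + 1) 0) (fSub 0 (0 + 1)))))
def fGen (A C w : ℕ) : Fml :=
  .and (fSub C A) (.all (fImp (.and (fField 0 (w + 1)) (fSub (C + 1) 0)) (fSub (A + 1) 0)))
def fIntAlg (A w : ℕ) : Fml :=
  .and (fField A w) (fEx (.and (fChain 0) (fGen (A + 1) 0 (w + 1))))
def fReals (F w : ℕ) : Fml := .all (fImp (.mem 0 (F + 1)) (fFunInto 0 (w + 1) (w + 1)))
def fLeStar (g f w : ℕ) : Fml :=
  fEx (.and (.mem 0 (w + 1)) (.all (.all (.all (fImp
    (.and (.and (.and (.mem (0 + 1 + 1) (w + 1 + 1 + 1 + 1)) (.neg (.mem (0 + 1 + 1) (0 + 1 + 1 + 1))))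
      (fRel (g + 1 + 1 + 1 + 1) (0 + 1 + 1) (0 + 1))) (fRel (f + 1 + 1 + 1 + 1) (0 + 1 + 1) 0))
    (fOr (.mem (0 + 1) 0) (.eq (0 + 1) 0)))))))
def fDom (F w : ℕ) : Fml :=
  .all (fImp (fFunInto 0 (w + 1) (w + 1)) (fEx (.and (.mem 0 (F + 1 + 1))
    (fLeStar (0 + 1) 0 (w + 1 + 1)))))
def fFinSeq (s w : ℕ) : Fml := fEx (.and (.mem 0 (w + 1)) (fFunInto (s + 1) 0 (w + 1)))
def fNwd (N w : ℕ) : Fml :=
  .all (fImp (fFinSeq 0 (w + 1)) (fEx (.and (.and (fFinSeq 0 (w + 1 + 1)) (fSub (0 + 1) 0))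
    (.all (fImp (.mem 0 (N + 1 + 1 + 1)) (.neg (fSub (0 + 1) 0)))))))
def fMeager (F w : ℕ) : Fml :=
  fEx (.and (.and (fFunOn 0 (w + 1)) (.all (.all (fImp (fRel (0 + 1 + 1) (0 + 1) 0)
    (fNwd 0 (w + 1 + 1 + 1))))))
    (.all (fImp (.mem 0 (F + 1 + 1)) (fEx (fEx (.and (fRel (0 + 1 + 1 + 1) (0 + 1) 0)
      (.mem (0 + 1 + 1) 0)))))))
def fHia : Fml :=
  fEx (fEx (fEx (.and (.and (.and (.and (.and (.and (fOmega (0 + 1 + 1))
    (fIntAlg (0 + 1) (0 + 1 + 1))) (fField 0 (0 + 1 + 1))) (fSub 0 (0 + 1)))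
    (.neg (fIntAlg 0 (0 + 1 + 1))))
    (.all (fImp (.and (fReals 0 (0 + 1 + 1 + 1)) (fCardLe 0 (0 + 1 + 1)))
      (.neg (fDom 0 (0 + 1 + 1 + 1))))))
    (.all (fImp (.and (fReals 0 (0 + 1 + 1 + 1)) (fCardLe 0 (0 + 1 + 1)))
      (fMeager 0 (0 + 1 + 1 + 1)))))))

section

variable {B : Type} [CompleteBooleanAlgebra B] (v : ℕ → BName B)

theorem val_fDiff (z x y : ℕ) : val (fDiff z x y) v = isDiffB (v z) (v x) (v y) := by
  simp only [fDiff, val_all, val_iff, val_and, val_neg, val_mem, push_zero, push_succ, isDiffB]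

theorem val_fInter (z x y : ℕ) : val (fInter z x y) v = isInterB (v z) (v x) (v y) := by
  simp only [fInter, val_all, val_iff, val_and, val_mem, push_zero, push_succ, isInterB]

theorem val_fField (S w : ℕ) : val (fField S w) v = isFieldB (v S) (v w) := by
  simp only [fField, val_all, val_imp, val_and, val_mem, val_fSub, val_fDiff, val_fInter,
    push_zero, push_succ, isFieldB]

theorem val_fChain (C : ℕ) : val (fChain C) v = isChainB (v C) := by
  simp only [fChain, val_all, val_imp, val_and, val_or, val_mem, val_fSub, push_zero, push_succ,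
    isChainB]

theorem val_fGen (A C w : ℕ) : val (fGen A C w) v = isGenB (v A) (v C) (v w) := by
  simp only [fGen, val_all, val_imp, val_and, val_fSub, val_fField, push_zero, push_succ, isGenB]

theorem val_fIntAlg (A w : ℕ) : val (fIntAlg A w) v = isIntAlgB (v A) (v w) := by
  simp only [fIntAlg, val_and, val_ex, val_fField, val_fChain, val_fGen, push_zero, push_succ,
    isIntAlgB]

theorem val_fReals (F w : ℕ) : val (fReals F w) v = isRealsB (v F) (v w) := by
  simp only [fReals, val_all, val_imp, val_mem, val_fFunInto, push_zero, push_succ, isRealsB]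

theorem val_fLeStar (g f w : ℕ) : val (fLeStar g f w) v = leStarB (v g) (v f) (v w) := by
  simp only [fLeStar, val_all, val_ex, val_imp, val_and, val_or, val_neg, val_mem, val_eq,
    val_fRel, push_zero, push_succ, leStarB]

theorem val_fDom (F w : ℕ) : val (fDom F w) v = isDomB (v F) (v w) := by
  simp only [fDom, val_all, val_ex, val_imp, val_and, val_mem, val_fFunInto, val_fLeStar,
    push_zero, push_succ, isDomB]

theorem val_fFinSeq (s w : ℕ) : val (fFinSeq s w) v = isFinSeqB (v s) (v w) := by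
  simp only [fFinSeq, val_ex, val_and, val_mem, val_fFunInto, push_zero, push_succ, isFinSeqB]

theorem val_fNwd (N w : ℕ) : val (fNwd N w) v = isNwdB (v N) (v w) := by
  simp only [fNwd, val_all, val_ex, val_imp, val_and, val_neg, val_mem, val_fFinSeq, val_fSub,
    push_zero, push_succ, isNwdB]

theorem val_fMeager (F w : ℕ) : val (fMeager F w) v = isMeagerB (v F) (v w) := by
  simp only [fMeager, val_all, val_ex, val_imp, val_and, val_mem, val_fFunOn, val_fRel, val_fNwd,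
    push_zero, push_succ, isMeagerB]

theorem val_fHia : val fHia v = hiaB B := by
  simp only [fHia, val_all, val_ex, val_imp, val_and, val_neg, val_fOmega, val_fIntAlg,
    val_fField, val_fSub, val_fReals, val_fCardLe, val_fDom, val_fMeager,
    push_zero, push_succ, hiaB]

end

section

variable {M : Type} [Membership M M] (v : ℕ → M)

theorem sat_fDiff (z x y : ℕ) :
    Sat (fDiff z x y) v ↔ ∀ t : M, t ∈ v z ↔ t ∈ v x ∧ t ∉ v y := by
  simp only [fDiff, sat_all, sat_iff, sat_and, sat_neg, sat_mem, push_zero, push_succ]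

theorem sat_fInter (z x y : ℕ) :
    Sat (fInter z x y) v ↔ ∀ t : M, t ∈ v z ↔ t ∈ v x ∧ t ∈ v y := by
  simp only [fInter, sat_all, sat_iff, sat_and, sat_mem, push_zero, push_succ]

theorem sat_fField (S w : ℕ) : Sat (fField S w) v ↔ IsFieldIn (v S) (v w) := by
  simp only [fField, sat_all, sat_imp, sat_and, sat_mem, sat_fSub, sat_fDiff, sat_fInter,
    push_zero, push_succ, IsFieldIn]
  tauto

theorem sat_fChain (C : ℕ) : Sat (fChain C) v ↔ IsChainIn (v C) := by
  simp only [fChain, sat_all, sat_imp, sat_and, sat_or, sat_mem, sat_fSub, push_zero, push_succ,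
    IsChainIn]

theorem sat_fGen (A C w : ℕ) : Sat (fGen A C w) v ↔ IsGenIn (v A) (v C) (v w) := by
  simp only [fGen, sat_all, sat_imp, sat_and, sat_fSub, sat_fField, push_zero, push_succ, IsGenIn]

theorem sat_fIntAlg (A w : ℕ) : Sat (fIntAlg A w) v ↔ IsIntAlgIn (v A) (v w) := by
  simp only [fIntAlg, sat_and, sat_ex, sat_fField, sat_fChain, sat_fGen, push_zero, push_succ,
    IsIntAlgIn]

theorem sat_fReals (F w : ℕ) : Sat (fReals F w) v ↔ IsRealsIn (v F) (v w) := by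
  simp only [fReals, sat_all, sat_imp, sat_mem, sat_fFunInto, push_zero, push_succ, IsRealsIn]

theorem sat_fLeStar (g f w : ℕ) : Sat (fLeStar g f w) v ↔ LeStarIn (v g) (v f) (v w) := by
  simp only [fLeStar, sat_all, sat_ex, sat_imp, sat_and, sat_or, sat_neg, sat_mem, sat_eq,
    sat_fRel, push_zero, push_succ, LeStarIn]

theorem sat_fDom (F w : ℕ) : Sat (fDom F w) v ↔ IsDomIn (v F) (v w) := by
  simp only [fDom, sat_all, sat_ex, sat_imp, sat_and, sat_mem, sat_fFunInto, sat_fLeStar,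
    push_zero, push_succ, IsDomIn]

theorem sat_fFinSeq (s w : ℕ) : Sat (fFinSeq s w) v ↔ IsFinSeqIn (v s) (v w) := by
  simp only [fFinSeq, sat_ex, sat_and, sat_mem, sat_fFunInto, push_zero, push_succ, IsFinSeqIn]

theorem sat_fNwd (N w : ℕ) : Sat (fNwd N w) v ↔ IsNwdIn (v N) (v w) := by
  simp only [fNwd, sat_all, sat_ex, sat_imp, sat_and, sat_neg, sat_mem, sat_fFinSeq, sat_fSub,
    push_zero, push_succ, IsNwdIn]

theorem sat_fMeager (F w : ℕ) : Sat (fMeager F w) v ↔ IsMeagerIn (v F) (v w) := by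
  simp only [fMeager, sat_all, sat_ex, sat_imp, sat_and, sat_mem, sat_fFunOn, sat_fRel, sat_fNwd,
    push_zero, push_succ, IsMeagerIn]

theorem sat_fHia : Sat fHia v ↔ ∃ w S A : M, IsOmegaIn w ∧ IsIntAlgIn S w ∧ IsFieldIn A w ∧
    SubIn A S ∧ ¬ IsIntAlgIn A w ∧ (∀ F : M, IsRealsIn F w ∧ CardLeIn F S → ¬ IsDomIn F w) ∧
    ∀ F : M, IsRealsIn F w ∧ CardLeIn F S → IsMeagerIn F w := by
  simp only [fHia, sat_all, sat_ex, sat_imp, sat_and, sat_neg, sat_fOmega, sat_fIntAlg,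
    sat_fField, sat_fSub, sat_fReals, sat_fCardLe, sat_fDom, sat_fMeager,
    push_zero, push_succ, and_assoc]

end

end Pool.Agent.Hia
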