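import Pool.Agent.Lib.MP_062a1c_lc.Stmts
import Pool.Agent.Lib.MP_a1c723_lc.BV.Dom

/-!
# MP_062a1c_lc, module HIT: a Cohen branch hits one-sided neighbourhoods
-/

set_option autoImplicit false

namespace Pool.Agent.Hia

open Pool.Agent.MPa4e7db Pool.Agent.StarRoth.BV MeasureTheory Filter Topology

namespace HitAux

theorem isPre_of_prefix {r t : List Bool} {x : ℕ → Bool} (h : r <+: t) (ht : IsPre t x) :
    IsPre r x := by
  intro i hi
  have h1 : i < t.length := lt_of_lt_of_le hi h.length_le
  rw [h.getElem hi]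
  exact ht i h1

theorem turn_prefix (s : List Bool) (b : Bool) {k l : ℕ} (h : k ≤ l) :
    turn s b k <+: turn s b l := by
  unfold turn
  rw [List.prefix_append_right_inj, List.cons_prefix_cons]
  refine ⟨rfl, ?_⟩
  obtain ⟨j, rfl⟩ := Nat.exists_eq_add_of_le h
  rw [List.replicate_add]
  exact List.prefix_append _ _

/-- The topological part: an open set of conditions for each finite initial segment. -/
theorem topo {I : Type} (e : ℕ → I) (he : Function.Injective e) (E : List Bool → Set (I → Bool))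
    (hE : ∀ t, MeasurableSet (E t))
    (hdep : ∀ t x x', (∀ i, i ∉ Set.range e → x i = x' i) → x ∈ E t → x' ∈ E t)
    (hcov : ∀ t x, ∃ t', t <+: t' ∧ x ∈ E t') :
    ∀ᶠ x in residual (I → Bool), ∃ t, x ∈ E t ∧ IsPre t (fun n => x (e n)) := by
  classical
  let K : Type := {i : I // i ∉ Set.range e}
  let π : (I → Bool) → (K → Bool) := fun x i => x i.1
  let ext : (K → Bool) → (I → Bool) := fun a i => if h : i ∉ Set.range e then a ⟨i, h⟩ else false
  have hext : ∀ x i, i ∉ Set.range e → ext (π x) i = x i := by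
    intro x i hi
    simp only [ext, π, dif_pos hi]
  have hπc : Continuous π := continuous_pi fun i => continuous_apply i.1
  have hπo : IsOpenMap π := by
    have h := isOpenMap_fst.comp
      (Homeomorph.piEquivPiSubtypeProd (fun i : I => i ∉ Set.range e)
        (fun _ => Bool)).isOpenMap
    exact h
  have hextm : Measurable ext := by
    refine measurable_pi_lambda _ fun i => ?_
    by_cases hi : i ∉ Set.range e
    · simp only [ext, dif_pos hi]
      exact measurable_pi_apply _
    · simp only [ext, dif_neg hi]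
      exact measurable_const
  have hU : ∀ t, ∃ U : Set (K → Bool), IsOpen U ∧ (ext ⁻¹' (E t)) =ᵇ U := by
    intro t
    have h1 : MeasurableSet (ext ⁻¹' (E t)) := hextm (hE t)
    have h2 : MeasurableSet[borel (K → Bool)] (ext ⁻¹' (E t)) := pi_le_borel_pi _ h1
    exact DomAux.residualEq_of_borel h2
  choose U hUo hUE using hU
  have hiff : ∀ᶠ a in residual (K → Bool), ∀ t, (a ∈ ext ⁻¹' (E t) ↔ a ∈ U t) := by
    rw [eventually_countable_forall]
    intro t
    exact Filter.eventuallyEq_set.mp (hUE t)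
  have hdense : ∀ t, Dense (⋃ t', ⋃ (_ : t <+: t'), U t') := by
    intro t
    apply dense_of_mem_residual
    filter_upwards [hiff] with a ha
    obtain ⟨t', ht', hk⟩ := hcov t (ext a)
    exact Set.mem_iUnion.mpr ⟨t', Set.mem_iUnion.mpr ⟨ht', (ha t').mp hk⟩⟩
  -- the open dense set
  let O : Set (I → Bool) := ⋃ t : List Bool, (π ⁻¹' (U t)) ∩ {x | IsPre t (fun n => x (e n))}
  have hOopen : IsOpen O := by
    refine isOpen_iUnion fun t => ((hUo t).preimage hπc).inter ?_
    have h1 : {x : I → Bool | IsPre t (fun n => x (e n))} =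
        ⋂ i : Fin t.length, {x | x (e i) = t[i]} := by
      ext x
      simp only [IsPre, Set.mem_ofPred_eq, Set.mem_iInter]
      constructor
      · intro h i
        exact (h i i.2).symm
      · intro h i hi
        exact (h ⟨i, hi⟩).symm
    rw [h1]
    refine isOpen_iInter_of_finite fun i => ?_
    exact (isOpen_discrete ({t[i]} : Set Bool)).preimage
      (continuous_apply (A := fun _ : I => Bool) (e i))
  have hOdense : Dense O := by
    rw [dense_iff_inter_open]
    intro V hV hVne
    obtain ⟨x₀, hx₀⟩ := hVne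
    obtain ⟨F, u, hu, hFV⟩ := isOpen_pi_iff.mp hV x₀ hx₀
    let V' : Set (I → Bool) := (F : Set I).pi fun i => {x₀ i}
    have hV'o : IsOpen V' := isOpen_set_pi F.finite_toSet fun i _ => isOpen_discrete _
    have hV'V : V' ⊆ V := by
      intro x hx
      apply hFV
      intro i hi
      have := hx i hi
      rw [Set.mem_singleton_iff] at this
      rw [this]
      exact (hu i hi).2
    -- a bound for the block coordinates in `F`
    obtain ⟨N, hN⟩ : ∃ N : ℕ, ∀ n, e n ∈ F → n < N := by
      have hfin : (e ⁻¹' (F : Set I)).Finite := F.finite_toSet.preimage he.injOn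
      obtain ⟨N, hN⟩ := hfin.bddAbove
      exact ⟨N + 1, fun n hn => Nat.lt_succ_of_le (hN hn)⟩
    let t₀ : List Bool := List.ofFn fun n : Fin N => x₀ (e n)
    have hne : (π '' V').Nonempty := ⟨π x₀, x₀, fun i _ => rfl, rfl⟩
    obtain ⟨a, ⟨x₁, hx₁, rfl⟩, ha⟩ :=
      (hdense t₀).inter_open_nonempty _ (hπo _ hV'o) hne
    obtain ⟨t, ha⟩ := Set.mem_iUnion.mp ha
    obtain ⟨ht, ha⟩ := Set.mem_iUnion.mp ha
    let x : I → Bool := fun i =>
      if h : i ∈ Set.range e then (t[h.choose]?).getD false else x₁ i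
    have hxe : ∀ n, x (e n) = (t[n]?).getD false := by
      intro n
      have h : e n ∈ Set.range e := ⟨n, rfl⟩
      have h1 : h.choose = n := he h.choose_spec
      simp only [x, dif_pos h, h1]
    have hxπ : π x = π x₁ := by
      funext i
      simp only [π, x]
      rw [dif_neg i.2]
    refine ⟨x, hV'V ?_, ?_⟩
    · intro i hi
      rw [Set.mem_singleton_iff]
      by_cases h : i ∈ Set.range e
      · obtain ⟨n, rfl⟩ := h
        have hn : n < N := hN n hi
        have h1 : n < t₀.length := by simp [t₀, hn]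
        have h2 : n < t.length := lt_of_lt_of_le h1 ht.length_le
        rw [hxe, List.getElem?_eq_getElem h2, ← ht.getElem h1]
        simp [t₀]
      · simp only [x, dif_neg h]
        exact hx₁ i hi
    · refine Set.mem_iUnion.mpr ⟨t, ?_, ?_⟩
      · rw [Set.mem_preimage, hxπ]
        exact ha
      · intro i hi
        simp only
        rw [hxe, List.getElem?_eq_getElem hi]
        rfl
  have hO : O ∈ residual _ := residual_of_dense_open hOopen hOdense
  have hiff' : ∀ᶠ x in residual (I → Bool), ∀ t, (π x ∈ ext ⁻¹' (E t) ↔ π x ∈ U t) :=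
    (tendsto_residual_of_isOpenMap hπc hπo).eventually hiff
  filter_upwards [hO, hiff'] with x hx hx'
  obtain ⟨t, h1, h2⟩ := Set.mem_iUnion.mp hx
  refine ⟨t, ?_, h2⟩
  have h4 : ext (π x) ∈ E t := (hx' t).mpr h1
  exact hdep t _ _ (fun i hi => hext x i hi) h4

section measure

variable {Ω : Type} [MeasurableSpace Ω] (μ : Measure Ω) [IsProbabilityMeasure μ]
  (v : List Bool → Ω → Bool) (δ : List Bool → Ω → ℕ)

/-- The points not yet hit by the initial segment `t`. -/
def Rest (m : ℕ) (t : List Bool) : Set Ω :=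
  {y | ¬ ∃ s, m ≤ s.length ∧ turn s (v s y) (δ s y) <+: t}

theorem measurable_rest (hv : ∀ s, Measurable (v s)) (hδ : ∀ s, Measurable (δ s)) (m : ℕ)
    (t : List Bool) : MeasurableSet (Rest v δ m t) := by
  have h1 : Rest v δ m t = ⋂ s : List Bool,
      {y | m ≤ s.length ∧ turn s (v s y) (δ s y) <+: t}ᶜ := by
    ext y
    simp only [Rest, Set.mem_ofPred_eq, not_exists, Set.mem_iInter, Set.mem_compl_iff]
  rw [h1]
  refine MeasurableSet.iInter fun s => MeasurableSet.compl ?_
  have h2 : Measurable fun y => (v s y, δ s y) := (hv s).prodMk (hδ s)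
  exact h2 (MeasurableSet.of_discrete (s := {p : Bool × ℕ | m ≤ s.length ∧ turn s p.1 p.2 <+: t}))

theorem rest_mono (m : ℕ) {t t' : List Bool} (h : t <+: t') :
    Rest v δ m t' ⊆ Rest v δ m t := by
  rintro y hy ⟨s, hs, hp⟩
  exact hy ⟨s, hs, hp.trans h⟩

theorem step (hv : ∀ s, Measurable (v s)) (hδ : ∀ s, Measurable (δ s)) (m : ℕ)
    (t : List Bool) : ∃ t', t <+: t' ∧ μ (Rest v δ m t') ≤ (3 / 4) * μ (Rest v δ m t) := by
  -- extend `t` to length at least `m`
  set s : List Bool := t ++ List.replicate m false with hs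
  have hts : t <+: s := List.prefix_append _ _
  have hsm : m ≤ s.length := by simp [hs]
  set R := Rest v δ m s with hR
  have hRm : MeasurableSet R := measurable_rest v δ hv hδ m s
  by_cases h0 : μ R = 0
  · exact ⟨s, hts, by rw [← hR, h0]; exact zero_le⟩
  -- a bit
  obtain ⟨b, hb⟩ : ∃ b : Bool, (1 / 2) * μ R ≤ μ (R ∩ {y | v s y = b}) := by
    by_contra hcon
    push Not at hcon
    have h1 : μ R ≤ μ (R ∩ {y | v s y = true}) + μ (R ∩ {y | v s y = false}) := by
      refine (measure_mono ?_).trans (measure_union_le _ _)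
      intro y hy
      cases h : v s y
      · exact Or.inr ⟨hy, h⟩
      · exact Or.inl ⟨hy, h⟩
    have h2 := ENNReal.add_lt_add (hcon true) (hcon false)
    have h3 : (1 / 2 : ENNReal) * μ R + (1 / 2) * μ R = μ R := by
      rw [← add_mul, one_div, ENNReal.inv_two_add_inv_two, one_mul]
    rw [h3] at h2
    exact absurd h1 (not_le.2 h2)
  -- a bound
  obtain ⟨k, hk⟩ : ∃ k : ℕ, μ ((R ∩ {y | v s y = b}) ∩ {y | k < δ s y}) < (1 / 4) * μ R := by
    have hvm : MeasurableSet {y | v s y = b} := (hv s) (measurableSet_singleton b)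
    have h1 : Tendsto (fun k : ℕ => μ ((R ∩ {y | v s y = b}) ∩ {y | k < δ s y})) atTop
        (𝓝 (μ (⋂ k : ℕ, (R ∩ {y | v s y = b}) ∩ {y | k < δ s y}))) := by
      refine tendsto_measure_iInter_atTop (fun k => ?_) ?_ ⟨0, measure_ne_top _ _⟩
      · exact ((hRm.inter hvm).inter ((hδ s) (measurableSet_Ioi (a := k)))).nullMeasurableSet
      · intro a c hac y hy
        exact ⟨hy.1, lt_of_le_of_lt hac hy.2⟩
    have h2 : (⋂ k : ℕ, (R ∩ {y | v s y = b}) ∩ {y | k < δ s y}) = ∅ := by
      ext y
      simp only [Set.mem_iInter, Set.mem_inter_iff, Set.mem_ofPred_eq, Set.mem_empty_iff_false,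
        iff_false, not_forall]
      exact ⟨δ s y, fun h => lt_irrefl _ h.2⟩
    rw [h2, measure_empty] at h1
    have h3 : (0 : ENNReal) < (1 / 4) * μ R :=
      ENNReal.mul_pos (by simp) h0
    exact (h1.eventually (gt_mem_nhds h3)).exists
  refine ⟨turn s b k, hts.trans ?_, ?_⟩
  · unfold turn; exact List.prefix_append _ _
  · have hsub : Rest v δ m (turn s b k) ∪ ((R ∩ {y | v s y = b}) \ {y | k < δ s y}) ⊆ R := by
      rintro y (hy | hy)
      · exact rest_mono v δ m (by unfold turn; exact List.prefix_append _ _) hy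
      · exact hy.1.1
    have hdisj : Disjoint (Rest v δ m (turn s b k))
        ((R ∩ {y | v s y = b}) \ {y | k < δ s y}) := by
      rw [Set.disjoint_left]
      rintro y hy ⟨⟨-, hyb⟩, hyk⟩
      apply hy
      refine ⟨s, hsm, ?_⟩
      have h1 : v s y = b := hyb
      have h2 : δ s y ≤ k := not_lt.1 hyk
      rw [h1]
      exact turn_prefix s b h2
    have hvm : MeasurableSet {y | v s y = b} := (hv s) (measurableSet_singleton b)
    have hkm : MeasurableSet {y | k < δ s y} := (hδ s) (measurableSet_Ioi (a := k))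
    have h4 : μ (Rest v δ m (turn s b k)) + μ ((R ∩ {y | v s y = b}) \ {y | k < δ s y}) ≤ μ R := by
      rw [← measure_union hdisj ((hRm.inter hvm).diff hkm)]
      exact measure_mono hsub
    have h5 : μ ((R ∩ {y | v s y = b}) ∩ {y | k < δ s y}) +
        μ ((R ∩ {y | v s y = b}) \ {y | k < δ s y}) = μ (R ∩ {y | v s y = b}) :=
      measure_inter_add_diff _ hkm
    have hle : μ R ≤ μ (Rest v δ m t) := measure_mono (rest_mono v δ m hts)
    have hfin : μ R ≠ ⊤ := measure_ne_top _ _
    have f1 : μ (Rest v δ m (turn s b k)) ≠ ⊤ := measure_ne_top _ _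
    have f2 : μ ((R ∩ {y | v s y = b}) \ {y | k < δ s y}) ≠ ⊤ := measure_ne_top _ _
    have f3 : μ ((R ∩ {y | v s y = b}) ∩ {y | k < δ s y}) ≠ ⊤ := measure_ne_top _ _
    have f4 : μ (R ∩ {y | v s y = b}) ≠ ⊤ := measure_ne_top _ _
    refine le_trans ?_ (mul_le_mul_right hle _)
    lift μ R to NNReal using hfin with a
    lift μ (Rest v δ m (turn s b k)) to NNReal using f1 with c
    lift μ ((R ∩ {y | v s y = b}) \ {y | k < δ s y}) to NNReal using f2 with d
    lift μ ((R ∩ {y | v s y = b}) ∩ {y | k < δ s y}) to NNReal using f3 with g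
    lift μ (R ∩ {y | v s y = b}) to NNReal using f4 with q
    have e1 : ((1 / 2 : NNReal) : ENNReal) = 1 / 2 := by
      rw [ENNReal.coe_div (by norm_num)]; simp
    have e2 : ((1 / 4 : NNReal) : ENNReal) = 1 / 4 := by
      rw [ENNReal.coe_div (by norm_num)]; simp
    have e3 : ((3 / 4 : NNReal) : ENNReal) = 3 / 4 := by
      rw [ENNReal.coe_div (by norm_num)]; simp
    rw [← e1, ← ENNReal.coe_mul, ENNReal.coe_le_coe] at hb
    rw [← e2, ← ENNReal.coe_mul, ENNReal.coe_lt_coe] at hk
    rw [← e3, ← ENNReal.coe_mul, ENNReal.coe_le_coe]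
    rw [← ENNReal.coe_add, ENNReal.coe_le_coe] at h4
    rw [← ENNReal.coe_add, ENNReal.coe_inj] at h5
    rw [← NNReal.coe_le_coe] at hb h4 ⊢
    rw [← NNReal.coe_lt_coe] at hk
    rw [← NNReal.coe_inj] at h5
    push_cast at *
    linarith

theorem small (hv : ∀ s, Measurable (v s)) (hδ : ∀ s, Measurable (δ s)) (m : ℕ) (t : List Bool)
    {η : ENNReal} (hη : 0 < η) : ∃ t', t <+: t' ∧ μ (Rest v δ m t') < η := by
  have key : ∀ n : ℕ, ∃ t', t <+: t' ∧ μ (Rest v δ m t') ≤ (3 / 4) ^ n := by
    intro n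
    induction n with
    | zero => exact ⟨t, List.prefix_refl _, by simpa using prob_le_one⟩
    | succ n ih =>
      obtain ⟨t', ht', h⟩ := ih
      obtain ⟨t'', ht'', h'⟩ := step μ v δ hv hδ m t'
      refine ⟨t'', ht'.trans ht'', h'.trans ?_⟩
      rw [pow_succ, mul_comm]
      exact mul_le_mul_left h _
  have h34 : (3 / 4 : ENNReal) < 1 := by
    rw [ENNReal.div_lt_iff (by simp) (by simp)]
    norm_num
  have hlim := ENNReal.tendsto_pow_atTop_nhds_zero_of_lt_one h34
  obtain ⟨n, hn⟩ := (hlim.eventually (gt_mem_nhds hη)).exists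
  obtain ⟨t', ht', h⟩ := key n
  exact ⟨t', ht', lt_of_le_of_lt h hn⟩

end measure

/-- One half of the statement. -/
theorem half {I J : Type} (e : ℕ → I) (he : Function.Injective e)
    (v : List Bool → (I → Bool) × (J → Bool) → Bool)
    (δ : List Bool → (I → Bool) × (J → Bool) → ℕ)
    (hv : ∀ s, Measurable (v s)) (hδ : ∀ s, Measurable (δ s))
    (hvd : ∀ s x x' y, (∀ i, i ∉ Set.range e → x i = x' i) → v s (x, y) = v s (x', y))
    (hδd : ∀ s x x' y, (∀ i, i ∉ Set.range e → x i = x' i) → δ s (x, y) = δ s (x', y)) :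
    ∀ᶠ z in FF I J, ∀ m : ℕ,
      ∃ s, m ≤ s.length ∧ IsPre (turn s (v s z) (δ s z)) (fun n => z.1 (e n)) := by
  let μ : Measure (J → Bool) := coinMeasure J
  have : IsProbabilityMeasure μ := by
    change IsProbabilityMeasure (coinMeasure J)
    unfold coinMeasure
    infer_instance
  have hres : ∀ᶠ x in residual (I → Bool), ∀ m : ℕ, ∀ j : ℕ,
      ∃ t, μ (Rest (fun s y => v s (x, y)) (fun s y => δ s (x, y)) m t) < ((j : ENNReal) + 1)⁻¹ ∧
        IsPre t (fun n => x (e n)) := by
    rw [eventually_countable_forall]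
    intro m
    rw [eventually_countable_forall]
    intro j
    refine topo e he (fun t => {x | μ (Rest (fun s y => v s (x, y)) (fun s y => δ s (x, y)) m t) <
      ((j : ENNReal) + 1)⁻¹}) ?_ ?_ ?_
    · intro t
      have h1 : MeasurableSet (Rest v δ m t) := measurable_rest v δ hv hδ m t
      exact measurableSet_lt (measurable_measure_prodMk_left (ν := μ) h1) measurable_const
    · intro t x x' h hx
      have h1 : Rest (fun s y => v s (x', y)) (fun s y => δ s (x', y)) m t =
          Rest (fun s y => v s (x, y)) (fun s y => δ s (x, y)) m t := by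
        ext y
        simp only [Rest, Set.mem_ofPred_eq]
        refine not_congr (exists_congr fun s => and_congr_right fun _ => ?_)
        rw [hvd s x x' y h, hδd s x x' y h]
      change μ _ < _
      rw [h1]
      exact hx
    · intro t x
      exact small μ (fun s y => v s (x, y)) (fun s y => δ s (x, y))
        (fun s => (hv s).comp measurable_prodMk_left) (fun s => (hδ s).comp measurable_prodMk_left)
        m t (ENNReal.inv_pos.2 (ENNReal.add_ne_top.2 ⟨ENNReal.natCast_ne_top j, ENNReal.one_ne_top⟩))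
  unfold FF
  rw [eventually_curry_iff]
  filter_upwards [hres] with x hx
  rw [eventually_countable_forall]
  intro m
  have h0 : μ {y | ¬ ∃ s, m ≤ s.length ∧
      IsPre (turn s (v s (x, y)) (δ s (x, y))) (fun n => x (e n))} = 0 := by
    by_contra hne
    obtain ⟨j, hj⟩ := ENNReal.exists_inv_nat_lt hne
    obtain ⟨t, ht, htp⟩ := hx m j
    have h1 : μ {y | ¬ ∃ s, m ≤ s.length ∧
        IsPre (turn s (v s (x, y)) (δ s (x, y))) (fun n => x (e n))} ≤
        μ (Rest (fun s y => v s (x, y)) (fun s y => δ s (x, y)) m t) := by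
      refine measure_mono fun y hy => ?_
      rintro ⟨s, hs, hp⟩
      exact hy ⟨s, hs, isPre_of_prefix hp htp⟩
    have h2 : ((j : ENNReal) + 1)⁻¹ ≤ (j : ENNReal)⁻¹ := ENNReal.inv_le_inv.mpr le_self_add
    exact absurd (h1.trans_lt (ht.trans_le h2)) (not_lt.2 hj.le)
  rw [ae_iff]
  exact h0

end HitAux

open HitAux

/-- Module HIT. -/
theorem hitStmt : HitStmt := by
  classical
  intro W I J _ ι hι v δ hv hδ
  have hCv : ∀ s b, ∃ C : Set I, C.Countable ∧
      DomAux.Dep C {z : (I → Bool) × (J → Bool) | v s z = b} := fun s b =>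
    DomAux.exists_dep (hv s (measurableSet_singleton b))
  have hCδ : ∀ s k, ∃ C : Set I, C.Countable ∧
      DomAux.Dep C {z : (I → Bool) × (J → Bool) | δ s z = k} := fun s k =>
    DomAux.exists_dep (hδ s (measurableSet_singleton k))
  choose Cv hCvc hCvd using hCv
  choose Cδ hCδc hCδd using hCδ
  let C : Set I := (⋃ s, ⋃ b, Cv s b) ∪ ⋃ s, ⋃ k, Cδ s k
  have hC : C.Countable :=
    (Set.countable_iUnion fun s => Set.countable_iUnion fun b => hCvc s b).union
      (Set.countable_iUnion fun s => Set.countable_iUnion fun k => hCδc s k)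
  obtain ⟨w, hw⟩ : ∃ w, ∀ n, ι w n ∉ C := by
    by_contra hcon
    push Not at hcon
    choose n hn using hcon
    have hinj : Function.Injective (fun w => (⟨ι w (n w), hn w⟩ : C)) := by
      intro a b hab
      exact (hι a b (n a) (n b) (congrArg Subtype.val hab)).1
    have : Countable C := hC
    have : Countable W := hinj.countable
    exact not_countable (α := W) this
  have he : Function.Injective (ι w) := fun a b h => (hι w w a b h).2
  have hsub : ∀ i ∈ C, i ∉ Set.range (ι w) := by
    rintro i hi ⟨n, rfl⟩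
    exact hw n hi
  have hvd : ∀ s (x x' : I → Bool) (y : J → Bool), (∀ i, i ∉ Set.range (ι w) → x i = x' i) →
      v s (x, y) = v s (x', y) := by
    intro s x x' y h
    exact ((hCvd s (v s (x, y)) x x' y fun i hi => h i (hsub i (Or.inl
      (Set.mem_iUnion.mpr ⟨s, Set.mem_iUnion.mpr ⟨_, hi⟩⟩)))).mp rfl).symm
  have hδd : ∀ s (x x' : I → Bool) (y : J → Bool), (∀ i, i ∉ Set.range (ι w) → x i = x' i) →
      δ s (x, y) = δ s (x', y) := by
    intro s x x' y h
    exact ((hCδd s (δ s (x, y)) x x' y fun i hi => h i (hsub i (Or.inr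
      (Set.mem_iUnion.mpr ⟨s, Set.mem_iUnion.mpr ⟨_, hi⟩⟩)))).mp rfl).symm
  refine ⟨w, ?_⟩
  have h1 := half (ι w) he v δ hv hδ hvd hδd
  have h2 := half (ι w) he (fun s z => !(v s z)) δ
    (fun s => (measurable_from_top (f := Bool.not)).comp (hv s)) hδ
    (fun s x x' y h => by rw [hvd s x x' y h]) hδd
  filter_upwards [h1, h2] with z hz1 hz2 m
  exact ⟨hz1 m, hz2 m⟩

end Pool.Agent.Hia
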