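import Pool.Agent.Lib.MP_a1c723_lc.BV.Internal

/-!
# MP_062a1c_lc: the notions of the question inside a model of set theory

All notions below are *internal* to an arbitrary structure `(M, ∈)`: a type `M` with a binary
relation, written `x ∈ a` through an arbitrary instance of `Membership M M`. All quantifiers run
over the elements of `M`. The basic notions (`SubIn`, `RelIn`, `IsFunOnIn`, `IsFunIntoIn`,
`CardLeIn`, `IsOmegaIn`, …) are those of `Pool.Agent.Lib.MP_a1c723_lc.BV.Internal`.
-/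

set_option autoImplicit false

namespace Pool.Agent.Hia

open Pool.Agent.StarRoth.BV

variable {M : Type} [Membership M M]

/-- `S` is a field of subsets of `w`: a set of subsets of `w` that contains `w` and is closed
under complements (`b = w ∖ a`) and intersections (`c = a ∩ b`). -/
def IsFieldIn (S w : M) : Prop :=
  (∀ a : M, a ∈ S → SubIn a w) ∧ w ∈ S ∧
    (∀ a b : M, a ∈ S ∧ (∀ t : M, t ∈ b ↔ t ∈ w ∧ t ∉ a) → b ∈ S) ∧
    ∀ a b c : M, (a ∈ S ∧ b ∈ S) ∧ (∀ t : M, t ∈ c ↔ t ∈ a ∧ t ∈ b) → c ∈ S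

/-- `C` is a chain of sets. -/
def IsChainIn (C : M) : Prop := ∀ a b : M, a ∈ C ∧ b ∈ C → SubIn a b ∨ SubIn b a

/-- `A` is the field of subsets of `w` generated by `C ⊆ A`: every field of subsets of `w` that
contains `C` contains `A`. -/
def IsGenIn (A C w : M) : Prop := SubIn C A ∧ ∀ S : M, IsFieldIn S w ∧ SubIn C S → SubIn A S

/-- The field `A` of subsets of `w` is an interval algebra: it is generated by a chain. -/
def IsIntAlgIn (A w : M) : Prop := IsFieldIn A w ∧ ∃ C : M, IsChainIn C ∧ IsGenIn A C w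

/-- `F` is a set of functions from `w = ω` to `ω` (a set of reals). -/
def IsRealsIn (F w : M) : Prop := ∀ f : M, f ∈ F → IsFunIntoIn f w w

/-- `g ≤* f`: `g(m) ≤ f(m)` for all `m ∈ ω` outside some `n ∈ ω`. -/
def LeStarIn (g f w : M) : Prop :=
  ∃ n : M, n ∈ w ∧ ∀ m k l : M, ((m ∈ w ∧ m ∉ n) ∧ RelIn g m k) ∧ RelIn f m l → k ∈ l ∨ k = l

/-- `F` is a dominating family: every function `ω → ω` is `≤*` some member of `F`. -/
def IsDomIn (F w : M) : Prop :=
  ∀ g : M, IsFunIntoIn g w w → ∃ f : M, f ∈ F ∧ LeStarIn g f w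

/-- `s` is a finite sequence of natural numbers: a function from some `n ∈ ω` to `ω`. -/
def IsFinSeqIn (s w : M) : Prop := ∃ n : M, n ∈ w ∧ IsFunIntoIn s n w

/-- `N` is nowhere dense in `ω^ω`: every finite sequence has an extension that is an initial
segment of no element of `N`. -/
def IsNwdIn (N w : M) : Prop :=
  ∀ s : M, IsFinSeqIn s w → ∃ t : M, (IsFinSeqIn t w ∧ SubIn s t) ∧
    ∀ f : M, f ∈ N → ¬ SubIn t f

/-- `F` is meager in `ω^ω`: it is covered by a sequence `P` of nowhere dense sets. -/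
def IsMeagerIn (F w : M) : Prop :=
  ∃ P : M, (IsFunOnIn P w ∧ ∀ n N : M, RelIn P n N → IsNwdIn N w) ∧
    ∀ f : M, f ∈ F → ∃ n N : M, RelIn P n N ∧ f ∈ N

end Pool.Agent.Hia
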