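import Pool.Agent.Lib.MP_062a1c_lc.Defs
import Pool.Agent.Lib.MP_a1c723_lc.BV.Stmts

/-!
# MP_062a1c_lc: statements of the modules

Every module is one file `Pool/Agent/Lib/MP_062a1c_lc/<Name>.lean` with the theorem(s) below,
proved exactly as stated.
-/

set_option autoImplicit false

namespace Pool.Agent.Hia

open Pool.Agent.MPa4e7db Pool.Agent.StarRoth.BV MeasureTheory Filter

/-- Module HIT (file Hit.lean): a Cohen branch is generic for one-sided neighbourhoods of the
nodes that are chosen by measurable functions `v`, `δ` of Cohen and random coordinates. -/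
def HitStmt : Prop :=
  ∀ {W I J : Type} [Uncountable W] (ι : W → ℕ → I), (∀ v w m n, ι v m = ι w n → v = w ∧ m = n) →
    ∀ (v : List Bool → (I → Bool) × (J → Bool) → Bool)
      (δ : List Bool → (I → Bool) × (J → Bool) → ℕ),
      (∀ s, Measurable (v s)) → (∀ s, Measurable (δ s)) →
      ∃ w, ∀ᶠ z in FF I J, ∀ m : ℕ,
        (∃ s, m ≤ s.length ∧ IsPre (turn s (v s z) (δ s z)) (fun n => z.1 (ι w n))) ∧
        (∃ s, m ≤ s.length ∧ IsPre (turn s (!(v s z)) (δ s z)) (fun n => z.1 (ι w n)))

/-- Module EVD (file Evd.lean): a random function is eventually different from every function of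
a given family. -/
def EvdStmt : Prop :=
  ∀ {T I : Type} [Infinite T] (G : T → (I → Bool) × ((Set T × ℕ × ℕ) → Bool) → ℕ → ℕ),
    (∀ t n, Measurable fun z => G t z n) →
    ∃ h : (I → Bool) × ((Set T × ℕ × ℕ) → Bool) → ℕ → ℕ, (∀ n, Measurable fun z => h z n) ∧
      ∀ t, ∀ᶠ z in FF I (Set T × ℕ × ℕ), ∀ᶠ n in atTop, h z n ≠ G t z n

/-- Module TREE (file Tree.lean): combinatorics of the binary tree. -/
structure TreeStmt : Prop where
  chain : ∀ x y : ℕ → Bool, (∀ t, below t x = true → below t y = true) ∨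
    ∀ t, below t y = true → below t x = true
  right : ∀ s x, IsPre (s ++ [true]) x → below s x = true
  left : ∀ s x, IsPre (s ++ [false]) x → below s x = false
  exL : ∀ r x, IsPre r x → (∀ m, ∃ n, m ≤ n ∧ x n = true) → ∃ t, r <+: t ∧ below t x = true
  exR : ∀ r x, IsPre r x → (∀ m, ∃ n, m ≤ n ∧ x n = false) → ∃ t, r <+: t ∧ below t x = false
  /-- another branch does not separate the points near `x` -/
  germ : ∀ x y : ℕ → Bool, x ≠ y → ∃ m, (∀ t : List Bool, m ≤ t.length → IsPre (t.take m) x →
    below t y = true) ∨ ∀ t : List Bool, m ≤ t.length → IsPre (t.take m) x → below t y = false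
  /-- a branch that is not eventually constant does not separate the points near a node -/
  node : ∀ x : ℕ → Bool, (∀ m, ∃ n, m ≤ n ∧ x n = true) → (∀ m, ∃ n, m ≤ n ∧ x n = false) →
    ∀ s, ∃ k, (∀ t ∈ cone s k, below t x = true) ∨ ∀ t ∈ cone s k, below t x = false
  /-- the singletons are differences of cuts -/
  single : ∀ s t : List Bool, (below t (pt true s) = true ∧ ¬ below t (pt false s) = true) ↔ t = s

/-- Module FACTS (file Facts.lean): the complete Boolean algebra. -/
def Facts2Stmt : Prop :=
  AlgStmt → CCCStmt → DomStmt → EvdStmt → HitStmt → TreeStmt → ∀ (W : Type) [Uncountable W],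
    ∃ (B : Type) (_ : CompleteBooleanAlgebra B) (u π : W → List Bool → B), Facts2 B W u π

/-- Module FIELD (file Field.lean): names of fields of sets. -/
def FieldStmt : Prop :=
  ∀ {B : Type} [CompleteBooleanAlgebra B] {G : Type} (g : G → ℕ → B),
    isFieldB (fldN g) omegaN = ⊤ ∧ isGenB (fldN g) (famB g) omegaN = ⊤ ∧
    ∀ {G' : Type} (g' : G' → ℕ → B), (∀ i, ∃ σ, g' i = ev g σ) → subB (fldN g') (fldN g) = ⊤

/-- Module DOM (file NotDom.lean): no set of reals of size at most `|S|` is dominating. -/
def NotDomStmt : Prop :=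
  ∀ {B W : Type} [CompleteBooleanAlgebra B] {u π : W → List Bool → B}, Facts2 B W u π →
    (⨅ F : BName B, isRealsB F omegaN ⊓ cardLeB F (fldN (genS u)) ⇨ (isDomB F omegaN)ᶜ) = ⊤

/-- Module MEAGER (file Meager.lean): every set of reals of size at most `|S|` is meager. -/
def MeagerStmt : Prop :=
  ∀ {B W : Type} [CompleteBooleanAlgebra B] {u π : W → List Bool → B}, Facts2 B W u π →
    (⨅ F : BName B, isRealsB F omegaN ⊓ cardLeB F (fldN (genS u)) ⇨ isMeagerB F omegaN) = ⊤

/-- Module NOTINT (file NotInt.lean): the subalgebra `A` is not an interval algebra. -/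
def NotIntStmt : Prop :=
  ∀ {B W : Type} [CompleteBooleanAlgebra B] {u π : W → List Bool → B}, Facts2 B W u π →
    isIntAlgB (fldN (genA u)) omegaN = ⊥

end Pool.Agent.Hia
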